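import Mathlib

set_option autoImplicit false

open Complex Metric Set Real MeasureTheory

namespace WG

/-- equality case of the sub-mean inequality -/
theorem eq_of_le_circleAverage {G : ℂ → ℝ} {c : ℂ} {r M : ℝ} (hr : 0 < r)
    (hG : ContinuousOn G (sphere c r)) (hle : ∀ w ∈ sphere c r, G w ≤ M)
    (h : M ≤ circleAverage G c r) : ∀ w ∈ sphere c r, G w = M := by
  intro w hw
  by_contra hne
  have hlt : G w < M := lt_of_le_of_ne (hle w hw) hne
  have hw' : w ∈ circleMap c r '' Ioc 0 (2 * π) := by
    rw [image_circleMap_Ioc, abs_of_pos hr]; exact hw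
  obtain ⟨θ, hθ, rfl⟩ := hw'
  have hmem : ∀ θ : ℝ, circleMap c r θ ∈ sphere c r := fun θ => circleMap_mem_sphere c hr.le θ
  have hc : Continuous (fun θ : ℝ => G (circleMap c r θ)) :=
    hG.comp_continuous (continuous_circleMap c r) hmem
  have hpos : 0 < ∫ θ in (0:ℝ)..(2 * π), (M - G (circleMap c r θ)) := by
    have hc' : Continuous (fun θ : ℝ => M - G (circleMap c r θ)) := continuous_const.sub hc
    apply intervalIntegral.integral_pos Real.two_pi_pos hc'.continuousOn
    · intro x _
      have := hle _ (hmem x)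
      show 0 ≤ M - G (circleMap c r x)
      linarith
    · refine ⟨θ, Ioc_subset_Icc_self hθ, ?_⟩
      show 0 < M - G (circleMap c r θ)
      linarith
  rw [intervalIntegral.integral_sub (by simp) (hc.intervalIntegrable _ _)] at hpos
  simp only [intervalIntegral.integral_const, smul_eq_mul, sub_zero] at hpos
  rw [circleAverage_def, smul_eq_mul] at h
  have hp : 0 < 2 * π := Real.two_pi_pos
  have : M * (2 * π) ≤ ∫ θ in (0:ℝ)..(2 * π), G (circleMap c r θ) := by
    have := mul_le_mul_of_nonneg_right h hp.le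
    calc M * (2 * π) ≤ ((2 * π)⁻¹ * ∫ θ in (0:ℝ)..(2 * π), G (circleMap c r θ)) * (2 * π) := this
      _ = ∫ θ in (0:ℝ)..(2 * π), G (circleMap c r θ) := by field_simp
  linarith

theorem max_principle {K : Set ℂ} (hK : IsCompact K) {F : ℂ → ℝ} (hF : ContinuousOn F K)
    (hsub : ∀ z ∈ interior K, ∃ r > 0, closedBall z r ⊆ K ∧ F z ≤ circleAverage F z r)
    (hb : ∀ z ∈ K, z ∉ interior K → F z ≤ 0) : ∀ z ∈ K, F z ≤ 0 := by
  by_contra hcon
  push Not at hcon
  obtain ⟨z0, hz0, hpos⟩ := hcon
  obtain ⟨m, hmK, hm⟩ := hK.exists_isMaxOn ⟨z0, hz0⟩ hF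
  have hMpos : 0 < F m := lt_of_lt_of_le hpos (hm hz0)
  have hScl : IsClosed (K ∩ F ⁻¹' {F m}) :=
    hF.preimage_isClosed_of_isClosed hK.isClosed isClosed_singleton
  have hS : IsCompact (K ∩ F ⁻¹' {F m}) := hK.of_isClosed_subset hScl inter_subset_left
  obtain ⟨p, hpS, hp⟩ := hS.exists_isMaxOn ⟨m, hmK, rfl⟩ (continuous_re.continuousOn)
  have hpF : F p = F m := hpS.2
  have hpi : p ∈ interior K := by
    by_contra h
    have := hb p hpS.1 h
    rw [hpF] at this; linarith
  obtain ⟨r, hr, hrK, havg⟩ := hsub p hpi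
  have hmem : p + r ∈ sphere p r := by
    simp [abs_of_pos hr]
  have h1 := eq_of_le_circleAverage hr (hF.mono (sphere_subset_closedBall.trans hrK))
    (fun w hw => hm (hrK (sphere_subset_closedBall hw))) (by rw [← hpF]; exact havg) (p + r) hmem
  have h2 : (p + r : ℂ) ∈ K ∩ F ⁻¹' {F m} := ⟨hrK (sphere_subset_closedBall hmem), h1⟩
  have h3 := hp h2
  simp at h3
  linarith

theorem re_circleAverage {f : ℂ → ℂ} {c : ℂ} {r : ℝ} (hr : 0 ≤ r)
    (hf : AnalyticOnNhd ℂ f (closedBall c r)) :
    circleAverage (fun z => (f z).re) c r = (f c).re := by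
  have h1 : DiffContOnCl ℂ f (ball c |r|) := by
    rw [abs_of_nonneg hr]
    rcases eq_or_lt_of_le hr with h | h
    · subst h
      rw [ball_zero]
      exact ⟨differentiableOn_empty, by rw [closure_empty]; exact continuousOn_empty _⟩
    · refine ⟨(hf.differentiableOn).mono ball_subset_closedBall, ?_⟩
      rw [closure_ball _ h.ne']
      exact hf.continuousOn
  have h2 := h1.circleAverage
  have h3 : CircleIntegrable f c r :=
    (hf.continuousOn.mono sphere_subset_closedBall).circleIntegrable hr
  have h4 := ContinuousLinearMap.circleAverage_comp_comm reCLM h3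
  rw [h2] at h4
  simpa [Function.comp_def] using h4

theorem re_circleAverage' {f : ℂ → ℂ} {c : ℂ} {r : ℝ} (hr : 0 ≤ r) (hf : Differentiable ℂ f) :
    circleAverage (fun z => (f z).re) c r = (f c).re :=
  re_circleAverage hr (fun z _ => hf.analyticAt z)

theorem circleAverage_sub' {f g : ℂ → ℝ} {c : ℂ} {r : ℝ} (hr : 0 ≤ r)
    (hf : ContinuousOn f (sphere c r)) (hg : ContinuousOn g (sphere c r)) :
    circleAverage (fun z => f z - g z) c r = circleAverage f c r - circleAverage g c r := by
  exact circleAverage_fun_sub (hf.circleIntegrable hr) (hg.circleIntegrable hr)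

theorem circleAverage_add' {f g : ℂ → ℝ} {c : ℂ} {r : ℝ} (hr : 0 ≤ r)
    (hf : ContinuousOn f (sphere c r)) (hg : ContinuousOn g (sphere c r)) :
    circleAverage (fun z => f z + g z) c r = circleAverage f c r + circleAverage g c r := by
  exact circleAverage_fun_add (hf.circleIntegrable hr) (hg.circleIntegrable hr)

theorem circleAverage_mono' {f g : ℂ → ℝ} {c : ℂ} {r : ℝ} (hr : 0 ≤ r)
    (hf : ContinuousOn f (sphere c r)) (hg : ContinuousOn g (sphere c r))
    (h : ∀ z ∈ sphere c r, f z ≤ g z) : circleAverage f c r ≤ circleAverage g c r := by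
  apply circleAverage_mono (hf.circleIntegrable hr) (hg.circleIntegrable hr)
  rwa [abs_of_nonneg hr]

theorem circleAverage_const' (a : ℝ) (c : ℂ) (r : ℝ) : circleAverage (fun _ => a) c r = a :=
  circleAverage_const a c r

theorem poly_re_le {T : Polynomial ℂ} {m : ℝ} {c : ℂ} {ρ : ℝ} (hρ : 0 < ρ)
    (h : ∀ ζ ∈ sphere c ρ, (T.eval ζ).re ≤ m) : ∀ ζ ∈ closedBall c ρ, (T.eval ζ).re ≤ m := by
  have hd : Differentiable ℂ (fun z => T.eval z) := T.differentiable
  have hc : Continuous (fun z => (T.eval z).re) := continuous_re.comp hd.continuous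
  have key := max_principle (isCompact_closedBall c ρ) (F := fun z => (T.eval z).re - m)
    (hc.sub continuous_const).continuousOn
    (by
      intro z hz
      rw [interior_closedBall _ hρ.ne'] at hz
      have hz' : dist z c < ρ := hz
      refine ⟨ρ - dist z c, by linarith, ?_, ?_⟩
      · intro w hw
        have hw' : dist w z ≤ ρ - dist z c := hw
        have := dist_triangle w z c
        show dist w c ≤ ρ
        linarith
      · have hr : 0 ≤ ρ - dist z c := by linarith
        rw [circleAverage_sub' hr hc.continuousOn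
          continuousOn_const, re_circleAverage' hr hd, circleAverage_const'])
    (by
      intro z hz hzi
      rw [interior_closedBall _ hρ.ne'] at hzi
      have : z ∈ sphere c ρ := by
        have h1 : dist z c ≤ ρ := hz
        have h2 : ¬ dist z c < ρ := hzi
        show dist z c = ρ
        linarith
      linarith [h z this])
  intro ζ hζ
  have := key ζ hζ
  linarith

theorem poly_le_re {T : Polynomial ℂ} {m : ℝ} {c : ℂ} {ρ : ℝ} (hρ : 0 < ρ)
    (h : ∀ ζ ∈ sphere c ρ, m ≤ (T.eval ζ).re) : ∀ ζ ∈ closedBall c ρ, m ≤ (T.eval ζ).re := by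
  intro ζ hζ
  have := poly_re_le (T := -T) (m := -m) hρ (by
    intro w hw; simp only [Polynomial.eval_neg, neg_re]; linarith [h w hw]) ζ hζ
  simp only [Polynomial.eval_neg, neg_re] at this
  linarith

end WG
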