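import Pool.Agent.Helper853.WG.SymA
import Pool.Agent.Helper853.WG.Basic

set_option autoImplicit false

open Complex Metric Set Real MeasureTheory

namespace WG

/-- the geodesic in logarithmic coordinates -/
noncomputable def toU (a b : ℝ) (φ : ℂ → ℂ → ℝ) (z : ℂ) (t : ℝ) : ℝ :=
  ‖z‖ ^ 2 + φ z ((a * Real.exp (Real.log (b / a) * max 0 (min 1 t)) : ℝ) : ℂ)

theorem radL_pos {a b : ℝ} (ha : 0 < a) (hab : a < b) : 0 < Real.log (b / a) :=
  Real.log_pos (by rw [lt_div_iff₀ ha]; linarith)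

theorem rad_ge {a b : ℝ} (ha : 0 < a) (hab : a < b) {s : ℝ} (hs : 0 ≤ s) :
    a ≤ a * Real.exp (Real.log (b / a) * s) := by
  have h1 : 1 ≤ Real.exp (Real.log (b / a) * s) :=
    Real.one_le_exp (mul_nonneg (radL_pos ha hab).le hs)
  nlinarith

theorem rad_one {a b : ℝ} (ha : 0 < a) (hab : a < b) : a * Real.exp (Real.log (b / a) * 1) = b := by
  rw [mul_one, Real.exp_log (div_pos (ha.trans hab) ha)]
  field_simp

theorem rad_le {a b : ℝ} (ha : 0 < a) (hab : a < b) {s : ℝ} (hs : s ≤ 1) :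
    a * Real.exp (Real.log (b / a) * s) ≤ b := by
  calc a * Real.exp (Real.log (b / a) * s) ≤ a * Real.exp (Real.log (b / a) * 1) :=
        mul_le_mul_of_nonneg_left (Real.exp_le_exp.mpr
          (mul_le_mul_of_nonneg_left hs (radL_pos ha hab).le)) ha.le
    _ = b := rad_one ha hab

theorem rad_gt {a b : ℝ} (ha : 0 < a) (hab : a < b) {s : ℝ} (hs : 0 < s) :
    a < a * Real.exp (Real.log (b / a) * s) := by
  have h1 : 1 < Real.exp (Real.log (b / a) * s) :=
    Real.one_lt_exp_iff.mpr (mul_pos (radL_pos ha hab) hs)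
  nlinarith

theorem rad_lt {a b : ℝ} (ha : 0 < a) (hab : a < b) {s : ℝ} (hs : s < 1) :
    a * Real.exp (Real.log (b / a) * s) < b := by
  calc a * Real.exp (Real.log (b / a) * s) < a * Real.exp (Real.log (b / a) * 1) :=
        mul_lt_mul_of_pos_left (Real.exp_lt_exp.mpr
          (mul_lt_mul_of_pos_left hs (radL_pos ha hab))) ha
    _ = b := rad_one ha hab

theorem norm_rad {a : ℝ} (ha : 0 < a) (x : ℝ) :
    ‖((a * Real.exp x : ℝ) : ℂ)‖ = a * Real.exp x := by
  rw [Complex.norm_real, Real.norm_eq_abs, abs_of_pos (mul_pos ha (Real.exp_pos x))]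

theorem rad_mem {a b : ℝ} (ha : 0 < a) (hab : a < b) {s : ℝ} (hs : 0 ≤ s) (hs1 : s ≤ 1) :
    ((a * Real.exp (Real.log (b / a) * s) : ℝ) : ℂ) ∈ cann a b := by
  constructor
  · rw [norm_rad ha]; exact rad_ge ha hab hs
  · rw [norm_rad ha]; exact rad_le ha hab hs1

theorem clamp_eq {t : ℝ} (h0 : 0 ≤ t) (h1 : t ≤ 1) : max 0 (min 1 t) = t := by
  rw [min_eq_right h1, max_eq_right h0]

theorem toU_geo {a b : ℝ} (ha : 0 < a) (hab : a < b) {φ₁ φ₂ : ℂ → ℝ} {φ : ℂ → ℂ → ℝ}
    (hφ : IsWeakGeodesic a b φ₁ φ₂ φ)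
    (hrot : ∀ c : ℂ, ‖c‖ = 1 → ∀ z : ℂ, ∀ σ ∈ cann a b, φ z (c * σ) = φ z σ) :
    Geo (toU a b φ) := by
  constructor
  · have hG : Continuous (fun p : ℂ × ℝ =>
        ((p.1, ((a * Real.exp (Real.log (b / a) * max 0 (min 1 p.2)) : ℝ) : ℂ)) : ℂ × ℂ)) := by
      fun_prop
    have h1 := hφ.cont.comp_continuous hG (fun p => ⟨mem_univ _, rad_mem ha hab (le_max_left _ _)
      (max_le zero_le_one (min_le_left _ _))⟩)
    have h2 : Continuous (fun p : ℂ × ℝ => ‖p.1‖ ^ 2) := by fun_prop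
    exact h2.add h1
  · intro f g hf hg hgre
    obtain ⟨G, hGdef⟩ : ∃ G : ℂ → ℂ, G = fun ζ => (a : ℂ) * Complex.exp ((Real.log (b / a) : ℝ) * g ζ) :=
      ⟨_, rfl⟩
    have hGan : AnalyticOnNhd ℂ G (closedBall 0 1) := by
      rw [hGdef]
      intro ζ hζ
      have h1 : AnalyticAt ℂ (fun ζ => ((Real.log (b / a) : ℝ) : ℂ) * g ζ) ζ :=
        analyticAt_const.mul (hg ζ hζ)
      exact analyticAt_const.mul (AnalyticAt.cexp h1)
    have hGn : ∀ ζ, ‖G ζ‖ = a * Real.exp (Real.log (b / a) * (g ζ).re) := by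
      intro ζ
      rw [hGdef]
      simp only
      rw [norm_mul, Complex.norm_real, Real.norm_eq_abs, abs_of_pos ha, Complex.norm_exp,
        Complex.re_ofReal_mul]
    have hGval : ∀ ζ, ∃ c : ℂ, ‖c‖ = 1 ∧
        G ζ = c * ((a * Real.exp (Real.log (b / a) * (g ζ).re) : ℝ) : ℂ) := by
      intro ζ
      refine ⟨Complex.exp (((Real.log (b / a) * (g ζ).im : ℝ) : ℂ) * I),
        Complex.norm_exp_ofReal_mul_I _, ?_⟩
      rw [hGdef]
      simp only
      rw [Complex.ofReal_mul a, Complex.ofReal_exp, mul_left_comm, ← Complex.exp_add]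
      congr 2
      apply Complex.ext
      · simp
      · simp
    have hU : ∀ ζ ∈ closedBall (0:ℂ) 1, ∀ z : ℂ, toU a b φ z (g ζ).re = ‖z‖ ^ 2 + φ z (G ζ) := by
      intro ζ hζ z
      obtain ⟨h0, h1⟩ := hgre ζ hζ
      obtain ⟨c, hc, hGc⟩ := hGval ζ
      unfold toU
      rw [clamp_eq h0.le h1.le, hGc, hrot c hc z _ (rad_mem ha hab h0.le h1.le)]
    have h3 := hφ.psh.2 f G hf hGan (by
      intro ζ hζ
      obtain ⟨h0, h1⟩ := hgre ζ hζ
      refine ⟨mem_univ _, ?_, ?_⟩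
      · rw [hGn]; exact rad_gt ha hab h0
      · rw [hGn]; exact rad_lt ha hab h1)
    rw [hU 0 (mem_closedBall_self zero_le_one)]
    refine h3.trans (le_of_eq ?_)
    apply circleAverage_congr_sphere
    intro ζ hζ
    rw [abs_one] at hζ
    exact (hU ζ (sphere_subset_closedBall hζ) (f ζ)).symm

theorem toU_comp {a b : ℝ} (ha : 0 < a) (hab : a < b) {φ₁ : ℂ → ℝ} {φ : ℂ → ℂ → ℝ}
    (h1 : Pot φ₁) (hφ : IsWeakGeodesic a b φ₁ (fun z => φ₁ (I * z)) φ)
    {ψ : ℂ → ℝ} (hψ : DiscSub ψ) (hgr : ∃ M, ∀ z, ψ z ≤ ‖z‖ ^ 2 + M) (l : ℝ)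
    (hl : ∀ z, ψ z ≤ ‖z‖ ^ 2 + φ₁ z) (hr : ∀ z, ψ z + l ≤ ‖z‖ ^ 2 + φ₁ (I * z)) :
    ∀ z, ∀ t ∈ Icc (0:ℝ) 1, ψ z + l * t ≤ toU a b φ z t := by
  obtain ⟨M, hM⟩ := hgr
  obtain ⟨M', hM'⟩ := geo_bdd ha hab hφ
  obtain ⟨L, hL⟩ : ∃ L, L = Real.log (b / a) := ⟨_, rfl⟩
  have hL0 : 0 < L := by rw [hL]; exact radL_pos ha hab
  have hb : 0 < b := ha.trans hab
  obtain ⟨v, hv⟩ : ∃ v : ℂ × ℂ → ℝ, v = fun p => ψ p.1 + l / L * (Real.log ‖p.2‖ - Real.log a) :=
    ⟨_, rfl⟩
  have hLab : Real.log b - Real.log a = L := by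
    rw [hL, Real.log_div hb.ne' ha.ne']
  have hvc : ContinuousOn v (univ ×ˢ cann a b) := by
    rw [hv]
    apply ContinuousOn.add
    · exact (hψ.1.comp continuous_fst).continuousOn
    · apply ContinuousOn.mul continuousOn_const
      apply ContinuousOn.sub _ continuousOn_const
      apply ContinuousOn.log
      · fun_prop
      · rintro ⟨z, σ⟩ ⟨_, h2⟩
        have h3 : a ≤ ‖σ‖ := h2.1
        show ‖σ‖ ≠ 0
        linarith
  have huc : ContinuousOn (fun p : ℂ × ℂ => ‖p.1‖ ^ 2 + φ p.1 p.2) (univ ×ˢ cann a b) := by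
    apply ContinuousOn.add
    · fun_prop
    · exact hφ.cont
  have hvp : PSHOn (univ ×ˢ ann a b) v := by
    constructor
    · apply hvc.mono
      rintro ⟨z, σ⟩ ⟨h3, h4⟩
      exact ⟨h3, h4.1.le, h4.2.le⟩
    · intro f g hf hg hmem
      have hgn : ∀ ζ ∈ closedBall (0:ℂ) 1, g ζ ≠ 0 := by
        intro ζ hζ h0
        have := (hmem ζ hζ).2.1
        rw [show ((f ζ, g ζ) : ℂ × ℂ).2 = g ζ from rfl, h0, norm_zero] at this
        linarith
      have hlog : circleAverage (fun ζ => Real.log ‖g ζ‖) 0 1 = Real.log ‖g 0‖ := by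
        apply AnalyticOnNhd.circleAverage_log_norm_of_ne_zero
        · rw [abs_one]; exact hg
        · rw [abs_one]; exact hgn
      have hc1 : ContinuousOn (fun ζ => ψ (f ζ)) (sphere 0 1) :=
        hψ.1.comp_continuousOn (hf.continuousOn.mono sphere_subset_closedBall)
      have hc2 : ContinuousOn (fun ζ => Real.log ‖g ζ‖) (sphere 0 1) := by
        apply ContinuousOn.log
        · exact (hg.continuousOn.mono sphere_subset_closedBall).norm
        · intro ζ hζ
          exact norm_ne_zero_iff.mpr (hgn ζ (sphere_subset_closedBall hζ))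
      have hc3 : ContinuousOn (fun ζ => Real.log ‖g ζ‖ - Real.log a) (sphere 0 1) :=
        hc2.sub continuousOn_const
      have hc4 : ContinuousOn (fun ζ => l / L * (Real.log ‖g ζ‖ - Real.log a)) (sphere 0 1) :=
        continuousOn_const.mul hc3
      have e1 : circleAverage (fun ζ => v (f ζ, g ζ)) 0 1 =
          circleAverage (fun ζ => ψ (f ζ)) 0 1 + l / L * (Real.log ‖g 0‖ - Real.log a) := by
        rw [hv]
        simp only
        rw [circleAverage_add' zero_le_one hc1 hc4]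
        congr 1
        have e2 : circleAverage (fun ζ => l / L * (Real.log ‖g ζ‖ - Real.log a)) 0 1 =
            l / L * circleAverage (fun ζ => Real.log ‖g ζ‖ - Real.log a) 0 1 :=
          circleAverage_fun_smul (a := l / L) (f := fun ζ => Real.log ‖g ζ‖ - Real.log a)
        rw [e2, circleAverage_sub' zero_le_one hc2 continuousOn_const, circleAverage_const', hlog]
      rw [e1, hv]
      simp only
      linarith [hψ.2 f hf]
  have hlog01 : ∀ σ ∈ cann a b, 0 ≤ (Real.log ‖σ‖ - Real.log a) / L ∧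
      (Real.log ‖σ‖ - Real.log a) / L ≤ 1 := by
    intro σ hσ
    have hσ0 : 0 < ‖σ‖ := lt_of_lt_of_le ha hσ.1
    constructor
    · apply div_nonneg _ hL0.le
      linarith [Real.log_le_log ha hσ.1]
    · rw [div_le_one hL0]
      linarith [Real.log_le_log hσ0 hσ.2]
  have hcomp := comparison ha hab huc hvc hvp hφ.maximal (M := M') (by
      rintro ⟨z, σ⟩ ⟨_, hσ⟩
      have := (abs_le.mp (hM' z σ hσ)).1
      simp only
      linarith) (N := M + |l|) (by
      rintro ⟨z, σ⟩ ⟨_, hσ⟩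
      rw [hv]
      simp only
      have h2 := hlog01 σ hσ
      have h3 : l / L * (Real.log ‖σ‖ - Real.log a) = l * ((Real.log ‖σ‖ - Real.log a) / L) := by
        ring
      have h4 : l * ((Real.log ‖σ‖ - Real.log a) / L) ≤ |l| := by
        calc l * ((Real.log ‖σ‖ - Real.log a) / L) ≤ |l| * ((Real.log ‖σ‖ - Real.log a) / L) :=
              mul_le_mul_of_nonneg_right (le_abs_self l) h2.1
          _ ≤ |l| * 1 := mul_le_mul_of_nonneg_left h2.2 (abs_nonneg l)
          _ = |l| := mul_one _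
      rw [h3]
      linarith [hM z]) (by
      rintro z σ (hσ | hσ)
      · rw [hv]
        simp only
        rw [hσ, sub_self, mul_zero, add_zero, hφ.left z σ hσ]
        exact hl z
      · rw [hv]
        simp only
        rw [hσ, hLab, div_mul_cancel₀ _ hL0.ne', hφ.right z σ hσ]
        exact hr z)
  intro z t ht
  have h2 := hcomp (z, ((a * Real.exp (Real.log (b / a) * t) : ℝ) : ℂ))
    ⟨mem_univ _, rad_mem ha hab ht.1 ht.2⟩
  rw [hv] at h2
  simp only at h2
  rw [norm_rad ha, Real.log_mul ha.ne' (Real.exp_pos _).ne', Real.log_exp, add_sub_cancel_left,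
    ← hL] at h2
  unfold toU
  rw [clamp_eq ht.1 ht.2, ← hL]
  have h3 : l / L * (L * t) = l * t := by field_simp
  rw [h3] at h2
  exact h2

end WG
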