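import Pool.Agent.Helper853.WG.SymB
import Pool.Agent.Helper853.WG.Log

set_option autoImplicit false

open Complex Metric Set Real MeasureTheory

namespace WG

theorem geo_data {a b : ℝ} (ha : 0 < a) (hab : a < b) {φ₁ : ℂ → ℝ} {φ : ℂ → ℂ → ℝ}
    (h1 : Pot φ₁) (hφ : IsWeakGeodesic a b φ₁ (fun z => φ₁ (I * z)) φ) :
    GData (toU a b φ) (fun z => ‖z‖ ^ 2 + φ₁ z) := by
  have hb : 0 < b := ha.trans hab
  have hLb : Real.exp (Real.log (b / a)) = b / a := Real.exp_log (div_pos hb ha)
  have hL0 : 0 ≤ Real.log (b / a) := Real.log_nonneg (by rw [le_div_iff₀ ha]; linarith)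
  have hclamp : ∀ t ∈ Icc (0 : ℝ) 1, max 0 (min 1 t) = t := by
    intro t ht
    rw [min_eq_right ht.2, max_eq_right ht.1]
  have hU : ∀ z, ∀ t ∈ Icc (0 : ℝ) 1, toU a b φ z t =
      ‖z‖ ^ 2 + φ z ((a * Real.exp (Real.log (b / a) * t) : ℝ) : ℂ) := by
    intro z t ht
    unfold toU
    rw [hclamp t ht]
  have hmem : ∀ t ∈ Icc (0 : ℝ) 1,
      ((a * Real.exp (Real.log (b / a) * t) : ℝ) : ℂ) ∈ cann a b := by
    intro t ht
    have hpos : 0 < a * Real.exp (Real.log (b / a) * t) := mul_pos ha (Real.exp_pos _)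
    have hn : ‖((a * Real.exp (Real.log (b / a) * t) : ℝ) : ℂ)‖ =
        a * Real.exp (Real.log (b / a) * t) := by
      rw [Complex.norm_real, Real.norm_eq_abs, abs_of_pos hpos]
    have h2 : 1 ≤ Real.exp (Real.log (b / a) * t) := Real.one_le_exp (mul_nonneg hL0 ht.1)
    have h3 : Real.exp (Real.log (b / a) * t) ≤ b / a := by
      rw [← hLb]
      refine Real.exp_le_exp.mpr ?_
      rw [hLb]
      exact mul_le_of_le_one_right hL0 ht.2
    constructor
    · rw [hn]
      nlinarith
    · rw [hn]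
      calc a * Real.exp (Real.log (b / a) * t) ≤ a * (b / a) :=
            mul_le_mul_of_nonneg_left h3 ha.le
        _ = b := by field_simp
  have hI : ∀ z : ℂ, ‖I * z‖ = ‖z‖ := by
    intro z
    rw [norm_mul, Complex.norm_I, one_mul]
  have hgeo : Geo (toU a b φ) :=
    toU_geo ha hab hφ (fun c hc => geo_rot ha hab hφ hc)
  refine { toGeo := hgeo, left := ?_, right := ?_, comp := ?_, even := ?_, symm := ?_,
           semi := ?_, grow := ?_, upper := ?_, lower := ?_ }
  · intro z
    rw [hU z 0 ⟨le_refl _, zero_le_one⟩, mul_zero, Real.exp_zero, mul_one,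
      hφ.left z (a : ℂ) (by rw [Complex.norm_real, Real.norm_eq_abs, abs_of_pos ha])]
  · intro z
    have hab' : a * (b / a) = b := by field_simp
    rw [hU z 1 ⟨zero_le_one, le_refl _⟩, mul_one, hLb, hab',
      hφ.right z (b : ℂ) (by rw [Complex.norm_real, Real.norm_eq_abs, abs_of_pos hb])]
    simp only [hI]
  · intro ψ hψ hgr l hl hr z t ht
    refine toU_comp ha hab h1 hφ hψ hgr l hl ?_ z t ht
    intro z
    have := hr z
    simp only [hI] at this
    exact this
  · intro z t ht
    rw [hU _ t ht, hU _ t ht, norm_neg, geo_even ha hab h1 hφ z _ (hmem t ht)]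
  · intro z t ht
    have ht' : 1 - t ∈ Icc (0 : ℝ) 1 := ⟨by linarith [ht.2], by linarith [ht.1]⟩
    rw [hU _ _ ht', hU _ t ht, hI, ← geo_symm ha hab h1 hφ z _ (hmem t ht)]
    congr 2
    have h2 : a * Real.exp (Real.log (b / a) * (1 - t)) =
        a * b / (a * Real.exp (Real.log (b / a) * t)) := by
      rw [mul_sub, mul_one, Real.exp_sub, hLb]
      have h3 := Real.exp_ne_zero (Real.log (b / a) * t)
      field_simp
    rw [h2]
    push_cast
    rfl
  · refine ⟨6, by norm_num, ?_⟩
    intro z w t ht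
    rw [hU _ t ht, hU _ t ht, hU _ t ht]
    have h2 := geo_semi ha hab h1 hφ z w _ (hmem t ht)
    have h3 := parallelogram_law_with_norm ℝ z w
    nlinarith [h2, h3]
  · obtain ⟨M, hM⟩ := geo_bdd ha hab hφ
    refine ⟨M, fun z t ht => ?_⟩
    rw [hU _ t ht, add_sub_cancel_left]
    exact hM z _ (hmem t ht)
  · intro z hz
    have := h1.upper z hz
    simp only [norm_zero]
    rw [zero_pow two_ne_zero, zero_add]
    exact this
  · intro z
    have := h1.lower z
    simp only [norm_zero]
    rw [zero_pow two_ne_zero, zero_add]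
    exact this

end WG
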