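import Pool.Agent.Helper853.WG.Defs

set_option autoImplicit false

open Complex Metric Set Real MeasureTheory

namespace WG

/-- an affine image `c * v + d`, `c ≥ 0`, of a psh function is psh -/
theorem comparison_psh {Ω : Set (ℂ × ℂ)} {v : ℂ × ℂ → ℝ} (hv : PSHOn Ω v) (c d : ℝ) (hc : 0 ≤ c) :
    PSHOn Ω (fun p => c * v p + d) := by
  refine ⟨(continuousOn_const.mul hv.1).add continuousOn_const, ?_⟩
  intro f g hf hg hfg
  have h1 := hv.2 f g hf hg hfg
  have hcont : ContinuousOn (fun ζ => v (f ζ, g ζ)) (sphere (0:ℂ) 1) := by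
    apply hv.1.comp
    · exact (hf.continuousOn.prodMk hg.continuousOn).mono sphere_subset_closedBall
    · intro ζ hζ
      exact hfg ζ (sphere_subset_closedBall hζ)
  have hint : CircleIntegrable (fun ζ => v (f ζ, g ζ)) 0 1 := hcont.circleIntegrable zero_le_one
  have hint2 : CircleIntegrable (fun ζ => c • v (f ζ, g ζ)) 0 1 :=
    (continuousOn_const.mul hcont).circleIntegrable zero_le_one
  have e : circleAverage (fun ζ => c * v (f ζ, g ζ) + d) 0 1 =
      c * circleAverage (fun ζ => v (f ζ, g ζ)) 0 1 + d := by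
    have e1 := circleAverage_fun_add (c := (0:ℂ)) (R := 1) hint2
      (show CircleIntegrable (fun _ : ℂ => d) 0 1 from continuousOn_const.circleIntegrable zero_le_one)
    rw [circleAverage_const] at e1
    have e2 : circleAverage (fun ζ => c • v (f ζ, g ζ)) 0 1 = c • circleAverage (fun ζ => v (f ζ, g ζ)) 0 1 :=
      circleAverage_fun_smul
    rw [e2] at e1
    exact e1
  show c * v (f 0, g 0) + d ≤ circleAverage (fun ζ => c * v (f ζ, g ζ) + d) 0 1
  rw [e]
  have := mul_le_mul_of_nonneg_left h1 hc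
  linarith

/-- comparison principle on ℂ × annulus -/
theorem comparison {a b : ℝ} (ha : 0 < a) (hab : a < b) {u v : ℂ × ℂ → ℝ}
    (hu : ContinuousOn u (univ ×ˢ cann a b)) (hv : ContinuousOn v (univ ×ˢ cann a b))
    (hvp : PSHOn (univ ×ˢ ann a b) v) (hum : MaximalOn (univ ×ˢ ann a b) u)
    {M : ℝ} (hub : ∀ p ∈ (univ : Set ℂ) ×ˢ cann a b, ‖p.1‖ ^ 2 - M ≤ u p)
    {N : ℝ} (hvb : ∀ p ∈ (univ : Set ℂ) ×ˢ cann a b, v p ≤ ‖p.1‖ ^ 2 + N)
    (hbd : ∀ z σ : ℂ, (‖σ‖ = a ∨ ‖σ‖ = b) → v (z, σ) ≤ u (z, σ)) :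
    ∀ p ∈ (univ : Set ℂ) ×ˢ cann a b, v p ≤ u p := by
  have hclosed : IsClosed ((univ : Set ℂ) ×ˢ cann a b) := by
    apply isClosed_univ.prod
    have h1 : cann a b = {σ : ℂ | a ≤ ‖σ‖} ∩ {σ : ℂ | ‖σ‖ ≤ b} := rfl
    rw [h1]
    exact (isClosed_le continuous_const continuous_norm).inter (isClosed_le continuous_norm continuous_const)
  have hsub : (univ : Set ℂ) ×ˢ ann a b ⊆ (univ : Set ℂ) ×ˢ cann a b := by
    rintro ⟨z, σ⟩ ⟨_, h2⟩
    exact ⟨trivial, h2.1.le, h2.2.le⟩
  -- the perturbed inequality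
  have main : ∀ η δ : ℝ, 0 < η → η < 1 → 0 < δ → ∀ p ∈ (univ : Set ℂ) ×ˢ ann a b,
      (1 - η) * v p + (-(η * M) - δ) ≤ u p := by
    intro η δ hη0 hη1 hδ
    have hpsh := comparison_psh hvp (1 - η) (-(η * M) - δ) (by linarith)
    apply hum _ hpsh
    refine ⟨{p ∈ (univ : Set ℂ) ×ˢ cann a b | u p ≤ (1 - η) * v p + (-(η * M) - δ)}, ?_, ?_, ?_⟩
    · have hcl : IsClosed {p ∈ (univ : Set ℂ) ×ˢ cann a b | u p ≤ (1 - η) * v p + (-(η * M) - δ)} :=
        hclosed.isClosed_le hu ((continuousOn_const.mul hv).add continuousOn_const)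
      set R0 : ℝ := 1 + (|N| + 2 * |M|) / η with hR0
      have hC0 : 0 ≤ (|N| + 2 * |M|) / η := by positivity
      apply IsCompact.of_isClosed_subset ((isCompact_closedBall (0:ℂ) R0).prod (isCompact_closedBall (0:ℂ) b)) hcl
      rintro ⟨z, σ⟩ ⟨hp, hle⟩
      refine ⟨?_, ?_⟩
      · rw [mem_closedBall_zero_iff]
        have h1 := hub _ hp
        have h2 := hvb _ hp
        simp only at h1 h2 hle ⊢
        by_contra hcon
        push Not at hcon
        have h3 : (1 - η) * v (z, σ) ≤ (1 - η) * (‖z‖ ^ 2 + N) := mul_le_mul_of_nonneg_left h2 (by linarith)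
        have h4 : η * ‖z‖ ^ 2 ≤ |N| + 2 * |M| := by
          have a1 : (1 - η) * N ≤ |N| := by
            calc (1 - η) * N ≤ (1 - η) * |N| := mul_le_mul_of_nonneg_left (le_abs_self N) (by linarith)
              _ ≤ 1 * |N| := mul_le_mul_of_nonneg_right (by linarith) (abs_nonneg N)
              _ = |N| := one_mul _
          have a2 : -(η * M) ≤ |M| := by
            calc -(η * M) = η * (-M) := by ring
              _ ≤ η * |M| := mul_le_mul_of_nonneg_left (neg_le_abs M) hη0.le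
              _ ≤ 1 * |M| := mul_le_mul_of_nonneg_right (by linarith) (abs_nonneg M)
              _ = |M| := one_mul _
          have a3 := le_abs_self M
          nlinarith
        have h5 : ‖z‖ ^ 2 ≤ (|N| + 2 * |M|) / η := by
          rw [le_div_iff₀ hη0]
          linarith
        have h6 : R0 ^ 2 < ‖z‖ ^ 2 := by
          apply pow_lt_pow_left₀ hcon (by linarith) (by norm_num)
        have h7 : (|N| + 2 * |M|) / η < R0 ^ 2 := by
          rw [hR0]
          nlinarith
        linarith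
      · rw [mem_closedBall_zero_iff]
        exact hp.2.2
    · rintro ⟨z, σ⟩ ⟨hp, hle⟩
      have hp2 : a ≤ ‖σ‖ ∧ ‖σ‖ ≤ b := hp.2
      have hstrict : ¬ (‖σ‖ = a ∨ ‖σ‖ = b) := by
        intro hor
        have h1 := hbd z σ hor
        have h2 := hub _ hp
        simp only at h2 hle
        have h3 : 0 ≤ u (z, σ) + M := by nlinarith [sq_nonneg ‖z‖]
        have h4 : (1 - η) * v (z, σ) ≤ (1 - η) * u (z, σ) := mul_le_mul_of_nonneg_left h1 (by linarith)
        nlinarith
      push Not at hstrict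
      exact ⟨trivial, lt_of_le_of_ne hp2.1 (Ne.symm hstrict.1), lt_of_le_of_ne hp2.2 hstrict.2⟩
    · rintro p ⟨hp, hpK⟩
      by_contra hcon
      push Not at hcon
      exact hpK ⟨hsub hp, hcon.le⟩
  have inner : ∀ p ∈ (univ : Set ℂ) ×ˢ ann a b, v p ≤ u p := by
    intro p hp
    by_contra hcon
    push Not at hcon
    set d := v p - u p with hd
    have hd0 : 0 < d := by rw [hd]; linarith
    set B := |v p + M| + 1 with hB
    have hB0 : 0 < B := by positivity
    set η := min (1 / 2) (d / (3 * B)) with hη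
    have hη0 : 0 < η := by rw [hη]; positivity
    have hη1 : η < 1 := lt_of_le_of_lt (min_le_left _ _) (by norm_num)
    have h1 := main η (d / 3) hη0 hη1 (by positivity) p hp
    have h2 : η * (v p + M) ≤ d / 3 := by
      calc η * (v p + M) ≤ η * B := by
            apply mul_le_mul_of_nonneg_left _ hη0.le
            have := le_abs_self (v p + M)
            linarith
        _ ≤ d / (3 * B) * B := mul_le_mul_of_nonneg_right (min_le_right _ _) hB0.le
        _ = d / 3 := by field_simp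
    nlinarith
  rintro ⟨z, σ⟩ hp
  have hp2 : a ≤ ‖σ‖ ∧ ‖σ‖ ≤ b := hp.2
  by_cases h1 : ‖σ‖ = a
  · exact hbd z σ (Or.inl h1)
  · by_cases h2 : ‖σ‖ = b
    · exact hbd z σ (Or.inr h2)
    · exact inner (z, σ) ⟨trivial, lt_of_le_of_ne hp2.1 (Ne.symm h1), lt_of_le_of_ne hp2.2 h2⟩

end WG
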