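import Mathlib
open Complex Metric Set Real

namespace WG

theorem cos_avg_aff (α β t r : ℝ) :
    ∫ θ in (0:ℝ)..(2 * π), (α + β * (t + r * Real.cos θ)) = (2 * π) * (α + β * t) := by
  have h1 : ∀ θ : ℝ, α + β * (t + r * Real.cos θ) = (α + β * t) + (β * r) * Real.cos θ := by
    intro θ; ring
  simp_rw [h1]
  rw [intervalIntegral.integral_add (by simp) (by
      exact (Continuous.intervalIntegrable (by fun_prop) _ _)),
    intervalIntegral.integral_const, intervalIntegral.integral_const_mul, integral_cos]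
  simp

/-- a continuous function satisfying the sub-mean inequality along the cosine is convex -/
theorem convexOn_of_cos_mean {g : ℝ → ℝ} (hg : Continuous g)
    (h : ∀ t r : ℝ, 0 < r → 0 < t - r → t + r < 1 →
      g t ≤ (2 * π)⁻¹ * ∫ θ in (0:ℝ)..(2 * π), g (t + r * Real.cos θ)) :
    ConvexOn ℝ (Icc (0:ℝ) 1) g := by
  refine LinearOrder.convexOn_of_lt (convex_Icc 0 1) ?_
  intro x hx y hy hxy a b ha hb hab
  obtain ⟨β, hβ⟩ : ∃ β : ℝ, β = (g y - g x) / (y - x) := ⟨_, rfl⟩
  obtain ⟨α, hα⟩ : ∃ α : ℝ, α = g x - β * x := ⟨_, rfl⟩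
  have hyx : y - x ≠ 0 := (sub_pos.2 hxy).ne'
  have hβ' : β * (y - x) = g y - g x := by rw [hβ]; field_simp
  have hφc : Continuous fun t => g t - (α + β * t) := by fun_prop
  have hmain : ∀ t ∈ Icc x y, g t - (α + β * t) ≤ 0 := by
    by_contra hcon
    push Not at hcon
    obtain ⟨c, hc, hcp⟩ := hcon
    obtain ⟨m, hm, hmax⟩ := isCompact_Icc.exists_isMaxOn (nonempty_Icc.2 hxy.le)
      (hφc.continuousOn (s := Icc x y))
    have hMpos : 0 < g m - (α + β * m) := lt_of_lt_of_le hcp (hmax hc)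
    have hS : IsCompact (Icc x y ∩ {t | g t - (α + β * t) = g m - (α + β * m)}) :=
      isCompact_Icc.inter_right (isClosed_eq hφc continuous_const)
    obtain ⟨ts, hts, hgr⟩ := hS.exists_isGreatest ⟨m, hm, rfl⟩
    obtain ⟨htsI, htsM⟩ := hts
    have htsM' : g ts - (α + β * ts) = g m - (α + β * m) := htsM
    have h0x : g x - (α + β * x) = 0 := by rw [hα]; ring
    have h0y : g y - (α + β * y) = 0 := by rw [hα]; linarith
    have hts1 : x < ts := by
      rcases eq_or_lt_of_le htsI.1 with e | e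
      · exfalso; rw [← e, h0x] at htsM'; linarith
      · exact e
    have hts2 : ts < y := by
      rcases eq_or_lt_of_le htsI.2 with e | e
      · exfalso; rw [e, h0y] at htsM'; linarith
      · exact e
    obtain ⟨r, hr⟩ : ∃ r : ℝ, r = min (ts - x) (y - ts) / 2 := ⟨_, rfl⟩
    have hr0 : 0 < r := by
      rw [hr]
      have := lt_min (sub_pos.2 hts1) (sub_pos.2 hts2)
      linarith
    have hr1 : r < ts - x := by
      have h1 := min_le_left (ts - x) (y - ts)
      linarith
    have hr2 : r < y - ts := by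
      have h1 := min_le_right (ts - x) (y - ts)
      linarith
    have h1 := h ts r hr0 (by linarith [hx.1]) (by linarith [hy.2])
    have hc1 : Continuous fun θ : ℝ => g (ts + r * Real.cos θ) := by fun_prop
    have hc2 : Continuous fun θ : ℝ => α + β * (ts + r * Real.cos θ) := by fun_prop
    have h2 : 0 < ∫ θ in (0:ℝ)..(2 * π), ((g ts - (α + β * ts)) -
        (g (ts + r * Real.cos θ) - (α + β * (ts + r * Real.cos θ)))) := by
      refine intervalIntegral.integral_pos (by positivity) (by fun_prop) ?_ ?_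
      · intro θ _
        have hcos1 := Real.neg_one_le_cos θ
        have hcos2 := Real.cos_le_one θ
        have hmem : ts + r * Real.cos θ ∈ Icc x y := by
          constructor <;> nlinarith
        have := hmax hmem
        have h3 : g (ts + r * Real.cos θ) - (α + β * (ts + r * Real.cos θ)) ≤
          g m - (α + β * m) := this
        linarith
      · refine ⟨0, ⟨le_rfl, by positivity⟩, ?_⟩
        rw [Real.cos_zero, mul_one]
        have hmem : ts + r ∈ Icc x y := ⟨by linarith, by linarith⟩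
        have h3 : g (ts + r) - (α + β * (ts + r)) ≤ g m - (α + β * m) := hmax hmem
        rcases eq_or_lt_of_le h3 with e | e
        · exfalso
          have := hgr ⟨hmem, e⟩
          linarith
        · linarith
    have hc3 : Continuous fun θ : ℝ => g (ts + r * Real.cos θ) - (α + β * (ts + r * Real.cos θ)) :=
      hc1.sub hc2
    have hc4 : Continuous fun _ : ℝ => g ts - (α + β * ts) := continuous_const
    rw [intervalIntegral.integral_sub (hc4.intervalIntegrable _ _) (hc3.intervalIntegrable _ _),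
      intervalIntegral.integral_sub (hc1.intervalIntegrable _ _) (hc2.intervalIntegrable _ _),
      cos_avg_aff, intervalIntegral.integral_const, smul_eq_mul, sub_zero] at h2
    have hpi : 0 < 2 * π := by positivity
    have h3 : (2 * π) * g ts ≤ ∫ θ in (0:ℝ)..(2 * π), g (ts + r * Real.cos θ) := by
      have := mul_le_mul_of_nonneg_left h1 hpi.le
      rwa [← mul_assoc, mul_inv_cancel₀ hpi.ne', one_mul] at this
    nlinarith
  have hmem : a • x + b • y ∈ Icc x y := by
    rw [smul_eq_mul, smul_eq_mul]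
    have hb' : b = 1 - a := by linarith
    subst hb'
    constructor <;> nlinarith
  have h4 := hmain _ hmem
  rw [smul_eq_mul, smul_eq_mul] at h4 ⊢
  rw [smul_eq_mul, smul_eq_mul]
  have hb' : a = 1 - b := by linarith
  subst hb'
  have h5 : α + β * ((1 - b) * x + b * y) = g x + b * (β * (y - x)) := by rw [hα]; ring
  rw [h5, hβ'] at h4
  linarith

/-- supporting line at 1/2 of a convex function on [0,1] -/
theorem exists_support {g : ℝ → ℝ} (hg : ConvexOn ℝ (Icc (0:ℝ) 1) g) :
    ∃ l : ℝ, ∀ t ∈ Icc (0:ℝ) 1, g (1/2) + l * (t - 1/2) ≤ g t := by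
  have key : ∀ t s : ℝ, 0 ≤ t → t < 1/2 → 1/2 < s → s ≤ 1 →
      (g (1/2) - g t) / (1/2 - t) ≤ (g s - g (1/2)) / (s - 1/2) := by
    intro t s ht0 ht1 hs0 hs1
    exact hg.slope_mono_adjacent ⟨ht0, by linarith⟩ ⟨by linarith, hs1⟩ ht1 hs0
  obtain ⟨T, hT⟩ : ∃ T : Set ℝ, T = (fun t : ℝ => (g (1/2) - g t) / (1/2 - t)) '' Ico 0 (1/2) :=
    ⟨_, rfl⟩
  have hne : T.Nonempty := by
    rw [hT]
    exact ⟨_, 0, ⟨le_rfl, by norm_num⟩, rfl⟩
  have hub : ∀ s : ℝ, 1/2 < s → s ≤ 1 → ∀ v ∈ T, v ≤ (g s - g (1/2)) / (s - 1/2) := by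
    intro s hs0 hs1 v hv
    rw [hT] at hv
    obtain ⟨t, ht, rfl⟩ := hv
    exact key t s ht.1 ht.2 hs0 hs1
  have hbdd : BddAbove T := ⟨_, hub 1 (by norm_num) le_rfl⟩
  refine ⟨sSup T, ?_⟩
  intro t ht
  rcases lt_trichotomy t (1/2) with h | h | h
  · have h1 : (g (1/2) - g t) / (1/2 - t) ≤ sSup T := by
      apply le_csSup hbdd
      rw [hT]
      exact ⟨t, ⟨ht.1, h⟩, rfl⟩
    have h2 : 0 < 1/2 - t := by linarith
    rw [div_le_iff₀ h2] at h1
    linarith
  · rw [h]; simp
  · have h1 : sSup T ≤ (g t - g (1/2)) / (t - 1/2) := csSup_le hne (hub t h ht.2)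
    have h2 : 0 < t - 1/2 := by linarith
    rw [le_div_iff₀ h2] at h1
    linarith

end WG
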