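import Mathlib
open Complex Metric Set Real

namespace WG

/-- the explicit potential on ℂ/ℤ[i] -/
noncomputable def phi1 (z : ℂ) : ℝ :=
  3 / (4 * π ^ 2) * Real.cos (2 * π * z.re) - 1 / (8 * π ^ 2) * Real.cos (2 * π * z.im)

theorem phi1_smooth : ContDiff ℝ (⊤ : ℕ∞) phi1 := by
  unfold phi1
  refine ContDiff.sub (contDiff_const.mul (Real.contDiff_cos.comp (contDiff_const.mul ?_)))
    (contDiff_const.mul (Real.contDiff_cos.comp (contDiff_const.mul ?_)))
  · exact Complex.reCLM.contDiff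
  · exact Complex.imCLM.contDiff

theorem phi1_periodic (z : ℂ) (m n : ℤ) : phi1 (z + (m + n * I)) = phi1 z := by
  unfold phi1
  have h1 : (z + (m + n * I)).re = z.re + m := by simp
  have h2 : (z + (m + n * I)).im = z.im + n := by simp
  rw [h1, h2]
  have e1 : 2 * π * (z.re + m) = 2 * π * z.re + m * (2 * π) := by ring
  have e2 : 2 * π * (z.im + n) = 2 * π * z.im + n * (2 * π) := by ring
  rw [e1, e2, Real.cos_add_int_mul_two_pi, Real.cos_add_int_mul_two_pi]

theorem phi1_even (z : ℂ) : phi1 (-z) = phi1 z := by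
  unfold phi1
  rw [Complex.neg_re, Complex.neg_im, mul_neg, mul_neg, Real.cos_neg, Real.cos_neg]

theorem phi1_abs (z : ℂ) : |phi1 z| ≤ 1 := by
  unfold phi1
  have hpi : 3 < π := Real.pi_gt_three
  have hpi2 : 9 ≤ π ^ 2 := by nlinarith
  have hA : 0 < 3 / (4 * π ^ 2) := by positivity
  have hB : 0 < 1 / (8 * π ^ 2) := by positivity
  have hA' : 3 / (4 * π ^ 2) ≤ 1 / 2 := by
    rw [div_le_iff₀ (by positivity)]
    nlinarith
  have hB' : 1 / (8 * π ^ 2) ≤ 1 / 2 := by
    rw [div_le_iff₀ (by positivity)]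
    nlinarith
  have h1 := Real.neg_one_le_cos (2 * π * z.re)
  have h2 := Real.cos_le_one (2 * π * z.re)
  have h3 := Real.neg_one_le_cos (2 * π * z.im)
  have h4 := Real.cos_le_one (2 * π * z.im)
  rw [abs_le]
  constructor <;> nlinarith

theorem comp_lin (ℓ : ℂ →L[ℝ] ℝ) (g g' : ℝ → ℝ) (hg : ∀ x, HasDerivAt g (g' x) x) (z : ℂ) :
    HasFDerivAt (fun z => g (ℓ z)) (g' (ℓ z) • ℓ) z :=
  (hg (ℓ z)).comp_hasFDerivAt z ℓ.hasFDerivAt

/-- positivity of the Kaehler form: Laplacian of |z|^2 + phi1 is positive -/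
theorem phi1_laplacian (z : ℂ) : 0 < Laplacian.laplacian (fun z : ℂ => ‖z‖ ^ 2 + phi1 z) z := by
  set A : ℝ := 3 / (4 * π ^ 2) with hA
  set B : ℝ := 1 / (8 * π ^ 2) with hB
  have hpi : π ≠ 0 := Real.pi_ne_zero
  have c1 : ∀ x : ℝ, HasDerivAt (fun x : ℝ => 2 * π * x) (2 * π) x := by
    intro x
    simpa using (hasDerivAt_id x).const_mul (2 * π)
  have hg1 : ∀ x : ℝ, HasDerivAt (fun x : ℝ => x ^ 2 + A * Real.cos (2 * π * x))
      (2 * x - 2 * π * A * Real.sin (2 * π * x)) x := by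
    intro x
    have h := (hasDerivAt_pow 2 x).add (((c1 x).cos).const_mul A)
    refine h.congr_deriv ?_
    simp
    ring
  have hg2 : ∀ x : ℝ, HasDerivAt (fun x : ℝ => x ^ 2 - B * Real.cos (2 * π * x))
      (2 * x + 2 * π * B * Real.sin (2 * π * x)) x := by
    intro x
    have h := (hasDerivAt_pow 2 x).sub (((c1 x).cos).const_mul B)
    refine h.congr_deriv ?_
    simp
    ring
  have hg1' : ∀ x : ℝ, HasDerivAt (fun x : ℝ => 2 * x - 2 * π * A * Real.sin (2 * π * x))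
      (2 - 3 * Real.cos (2 * π * x)) x := by
    intro x
    have h := ((hasDerivAt_id x).const_mul 2).sub (((c1 x).sin).const_mul (2 * π * A))
    refine h.congr_deriv ?_
    rw [hA]
    field_simp
    ring
  have hg2' : ∀ x : ℝ, HasDerivAt (fun x : ℝ => 2 * x + 2 * π * B * Real.sin (2 * π * x))
      (2 + 1 / 2 * Real.cos (2 * π * x)) x := by
    intro x
    have h := ((hasDerivAt_id x).const_mul 2).add (((c1 x).sin).const_mul (2 * π * B))
    refine h.congr_deriv ?_
    rw [hB]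
    field_simp
    ring
  have hf : (fun z : ℂ => ‖z‖ ^ 2 + phi1 z) =
      fun z : ℂ => ((Complex.reCLM z) ^ 2 + A * Real.cos (2 * π * Complex.reCLM z)) +
        ((Complex.imCLM z) ^ 2 - B * Real.cos (2 * π * Complex.imCLM z)) := by
    funext z
    rw [Complex.sq_norm, Complex.normSq_apply]
    simp only [phi1, Complex.reCLM_apply, Complex.imCLM_apply]
    ring
  rw [hf, InnerProductSpace.laplacian_eq_iteratedFDeriv_complexPlane]
  have h1 : fderiv ℝ (fun z : ℂ => ((Complex.reCLM z) ^ 2 + A * Real.cos (2 * π * Complex.reCLM z)) +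
        ((Complex.imCLM z) ^ 2 - B * Real.cos (2 * π * Complex.imCLM z))) =
      fun z : ℂ => (2 * Complex.reCLM z - 2 * π * A * Real.sin (2 * π * Complex.reCLM z)) • Complex.reCLM +
        (2 * Complex.imCLM z + 2 * π * B * Real.sin (2 * π * Complex.imCLM z)) • Complex.imCLM := by
    funext z
    exact ((comp_lin Complex.reCLM _ _ hg1 z).add (comp_lin Complex.imCLM _ _ hg2 z)).fderiv
  have h2 : fderiv ℝ (fun z : ℂ => (2 * Complex.reCLM z - 2 * π * A * Real.sin (2 * π * Complex.reCLM z)) • Complex.reCLM +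
        (2 * Complex.imCLM z + 2 * π * B * Real.sin (2 * π * Complex.imCLM z)) • Complex.imCLM) z =
      ((2 - 3 * Real.cos (2 * π * Complex.reCLM z)) • Complex.reCLM).smulRight Complex.reCLM +
      ((2 + 1 / 2 * Real.cos (2 * π * Complex.imCLM z)) • Complex.imCLM).smulRight Complex.imCLM :=
    (((comp_lin Complex.reCLM _ _ hg1' z).smul_const Complex.reCLM).add
      ((comp_lin Complex.imCLM _ _ hg2' z).smul_const Complex.imCLM)).fderiv
  simp only [iteratedFDeriv_two_apply, h1, h2]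
  have b1 := Real.cos_le_one (2 * π * z.re)
  have b2 := Real.neg_one_le_cos (2 * π * z.im)
  simp
  linarith

theorem cos_taylor (t : ℝ) : Real.cos t ≤ 1 - t ^ 2 / 2 + t ^ 4 / 24 := by
  have key : ∀ t : ℝ, 0 ≤ t → Real.cos t ≤ 1 - t ^ 2 / 2 + t ^ 4 / 24 := by
    intro t ht
    have d1 : ∀ x : ℝ, HasDerivAt (fun x : ℝ => Real.sin x - x + x ^ 3 / 6) (Real.cos x - 1 + x ^ 2 / 2) x := by
      intro x
      have h := ((Real.hasDerivAt_sin x).sub (hasDerivAt_id x)).add ((hasDerivAt_pow 3 x).div_const 6)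
      refine h.congr_deriv ?_
      norm_num
      ring
    have d2 : ∀ x : ℝ, HasDerivAt (fun x : ℝ => 1 - x ^ 2 / 2 + x ^ 4 / 24 - Real.cos x)
        (Real.sin x - x + x ^ 3 / 6) x := by
      intro x
      have h := (((hasDerivAt_pow 2 x).div_const 2).const_sub 1).add ((hasDerivAt_pow 4 x).div_const 24)
      have h' := h.sub (Real.hasDerivAt_cos x)
      refine h'.congr_deriv ?_
      norm_num
      ring
    have m1 : MonotoneOn (fun x : ℝ => Real.sin x - x + x ^ 3 / 6) (Set.Ici 0) := by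
      apply monotoneOn_of_deriv_nonneg (convex_Ici 0)
      · exact fun x _ => (d1 x).continuousAt.continuousWithinAt
      · exact fun x _ => (d1 x).differentiableAt.differentiableWithinAt
      · intro x _
        rw [(d1 x).deriv]
        have := Real.one_sub_sq_div_two_le_cos (x := x)
        linarith
    have s1 : ∀ x : ℝ, 0 ≤ x → 0 ≤ Real.sin x - x + x ^ 3 / 6 := by
      intro x hx
      have := m1 (Set.mem_Ici.2 le_rfl) (Set.mem_Ici.2 hx) hx
      simpa using this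
    have m2 : MonotoneOn (fun x : ℝ => 1 - x ^ 2 / 2 + x ^ 4 / 24 - Real.cos x) (Set.Ici 0) := by
      apply monotoneOn_of_deriv_nonneg (convex_Ici 0)
      · exact fun x _ => (d2 x).continuousAt.continuousWithinAt
      · exact fun x _ => (d2 x).differentiableAt.differentiableWithinAt
      · intro x hx
        rw [(d2 x).deriv]
        rw [interior_Ici] at hx
        exact s1 x (le_of_lt hx)
    have := m2 (Set.mem_Ici.2 le_rfl) (Set.mem_Ici.2 ht) ht
    simp at this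
    linarith
  rcases le_total 0 t with h | h
  · exact key t h
  · have := key (-t) (by linarith)
    rw [Real.cos_neg] at this
    have e1 : (-t) ^ 2 = t ^ 2 := by ring
    have e2 : (-t) ^ 4 = t ^ 4 := by ring
    rwa [e1, e2] at this

/-- upper bound near the real axis -/
theorem phi1_upper (z : ℂ) (hz : ‖z‖ ≤ 1 / 10) :
    ‖z‖ ^ 2 + phi1 z ≤ phi1 0 - 9 / 20 * z.re ^ 2 + 5 / 4 * z.im ^ 2 := by
  have hpi : 3 < π := Real.pi_gt_three
  have hpi' : π < 3.15 := Real.pi_lt_d2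
  have hpi0 : 0 < π := Real.pi_pos
  have hpi2 : π ^ 2 ≤ 10 := by nlinarith
  have h0 : phi1 0 = 3 / (4 * π ^ 2) - 1 / (8 * π ^ 2) := by simp [phi1]
  have hn : ‖z‖ ^ 2 = z.re ^ 2 + z.im ^ 2 := by
    rw [Complex.sq_norm, Complex.normSq_apply]
    ring
  have hx : z.re ^ 2 ≤ 1 / 100 := by
    have h1 : ‖z‖ ^ 2 ≤ (1 / 10) ^ 2 := pow_le_pow_left₀ (norm_nonneg z) hz 2
    nlinarith [sq_nonneg z.im]
  rw [h0, hn]
  unfold phi1
  have c1 := cos_taylor (2 * π * z.re)
  have c2 := Real.one_sub_sq_div_two_le_cos (x := 2 * π * z.im)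
  have e1 : 3 / (4 * π ^ 2) * Real.cos (2 * π * z.re) ≤ 3 / (4 * π ^ 2) - 3 / 2 * z.re ^ 2 + π ^ 2 / 2 * z.re ^ 4 := by
    calc _ ≤ 3 / (4 * π ^ 2) * (1 - (2 * π * z.re) ^ 2 / 2 + (2 * π * z.re) ^ 4 / 24) :=
          mul_le_mul_of_nonneg_left c1 (by positivity)
      _ = _ := by
          field_simp
          ring
  have e2 : 1 / (8 * π ^ 2) - 1 / 4 * z.im ^ 2 ≤ 1 / (8 * π ^ 2) * Real.cos (2 * π * z.im) := by
    calc _ = 1 / (8 * π ^ 2) * (1 - (2 * π * z.im) ^ 2 / 2) := by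
          field_simp
          ring
      _ ≤ _ := mul_le_mul_of_nonneg_left c2 (by positivity)
  have e3 : π ^ 2 / 2 * z.re ^ 4 ≤ 1 / 20 * z.re ^ 2 := by
    have h1 : z.re ^ 4 = z.re ^ 2 * z.re ^ 2 := by ring
    rw [h1]
    have h2 : z.re ^ 2 * z.re ^ 2 ≤ 1 / 100 * z.re ^ 2 := mul_le_mul_of_nonneg_right hx (sq_nonneg _)
    nlinarith [sq_nonneg z.re]
  linarith

/-- lower bound -/
theorem phi1_lower (z : ℂ) : phi1 0 - 1 / 2 * ‖z‖ ^ 2 ≤ ‖z‖ ^ 2 + phi1 z := by
  have hpi0 : 0 < π := Real.pi_pos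
  have h0 : phi1 0 = 3 / (4 * π ^ 2) - 1 / (8 * π ^ 2) := by simp [phi1]
  have hn : ‖z‖ ^ 2 = z.re ^ 2 + z.im ^ 2 := by
    rw [Complex.sq_norm, Complex.normSq_apply]
    ring
  rw [h0, hn]
  unfold phi1
  have c1 := Real.one_sub_sq_div_two_le_cos (x := 2 * π * z.re)
  have e1 : 3 / (4 * π ^ 2) - 3 / 2 * z.re ^ 2 ≤ 3 / (4 * π ^ 2) * Real.cos (2 * π * z.re) := by
    calc _ = 3 / (4 * π ^ 2) * (1 - (2 * π * z.re) ^ 2 / 2) := by
          field_simp
          ring
      _ ≤ _ := mul_le_mul_of_nonneg_left c1 (by positivity)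
  have e2 : 1 / (8 * π ^ 2) * Real.cos (2 * π * z.im) ≤ 1 / (8 * π ^ 2) := by
    calc _ ≤ 1 / (8 * π ^ 2) * 1 := mul_le_mul_of_nonneg_left (Real.cos_le_one _) (by positivity)
      _ = _ := mul_one _
  nlinarith [sq_nonneg z.im, sq_nonneg z.re]

theorem cos_second (a s : ℝ) : |Real.cos (a + s) + Real.cos (a - s) - 2 * Real.cos a| ≤ s ^ 2 := by
  have e : Real.cos (a + s) + Real.cos (a - s) - 2 * Real.cos a = -(2 * Real.cos a * (1 - Real.cos s)) := by
    rw [Real.cos_add, Real.cos_sub]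
    ring
  have h1 := Real.one_sub_sq_div_two_le_cos (x := s)
  have h2 := Real.cos_le_one s
  have h3 := Real.cos_le_one a
  have h4 := Real.neg_one_le_cos a
  rw [e, abs_neg, abs_le]
  constructor <;> nlinarith

/-- semiconcavity -/
theorem phi1_semiconcave (z w : ℂ) : phi1 (z + w) + phi1 (z - w) - 2 * phi1 z ≤ 4 * ‖w‖ ^ 2 := by
  have hpi0 : 0 < π := Real.pi_pos
  have hn : ‖w‖ ^ 2 = w.re ^ 2 + w.im ^ 2 := by
    rw [Complex.sq_norm, Complex.normSq_apply]
    ring
  rw [hn]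
  unfold phi1
  rw [Complex.add_re, Complex.add_im, Complex.sub_re, Complex.sub_im]
  have r1 : 2 * π * (z.re + w.re) = 2 * π * z.re + 2 * π * w.re := by ring
  have r2 : 2 * π * (z.im + w.im) = 2 * π * z.im + 2 * π * w.im := by ring
  have r3 : 2 * π * (z.re - w.re) = 2 * π * z.re - 2 * π * w.re := by ring
  have r4 : 2 * π * (z.im - w.im) = 2 * π * z.im - 2 * π * w.im := by ring
  rw [r1, r2, r3, r4]
  have c1 := (abs_le.1 (cos_second (2 * π * z.re) (2 * π * w.re))).2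
  have c2 := (abs_le.1 (cos_second (2 * π * z.im) (2 * π * w.im))).1
  have e1 : 3 / (4 * π ^ 2) * (Real.cos (2 * π * z.re + 2 * π * w.re) + Real.cos (2 * π * z.re - 2 * π * w.re) -
      2 * Real.cos (2 * π * z.re)) ≤ 3 * w.re ^ 2 := by
    calc _ ≤ 3 / (4 * π ^ 2) * (2 * π * w.re) ^ 2 := mul_le_mul_of_nonneg_left c1 (by positivity)
      _ = _ := by
          field_simp
          ring
  have e2 : -(1 / 2 * w.im ^ 2) ≤ 1 / (8 * π ^ 2) * (Real.cos (2 * π * z.im + 2 * π * w.im) +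
      Real.cos (2 * π * z.im - 2 * π * w.im) - 2 * Real.cos (2 * π * z.im)) := by
    calc _ = 1 / (8 * π ^ 2) * (-(2 * π * w.im) ^ 2) := by
          field_simp
          ring
      _ ≤ _ := mul_le_mul_of_nonneg_left c2 (by positivity)
  nlinarith [sq_nonneg w.im, sq_nonneg w.re]

theorem cos_lip (a b : ℝ) : |Real.cos (a + b) - Real.cos a| ≤ |b| := by
  have h : a + b - a = b := by ring
  have := Real.abs_cos_sub_cos_le (a + b) a
  rwa [h] at this

/-- Lipschitz -/
theorem phi1_lip (z w : ℂ) : |phi1 (z + w) - phi1 z| ≤ 1 * ‖w‖ := by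
  have hpi0 : 0 < π := Real.pi_pos
  have hpi : 3 < π := Real.pi_gt_three
  unfold phi1
  rw [Complex.add_re, Complex.add_im]
  have r1 : 2 * π * (z.re + w.re) = 2 * π * z.re + 2 * π * w.re := by ring
  have r2 : 2 * π * (z.im + w.im) = 2 * π * z.im + 2 * π * w.im := by ring
  rw [r1, r2]
  have c1 := cos_lip (2 * π * z.re) (2 * π * w.re)
  have c2 := cos_lip (2 * π * z.im) (2 * π * w.im)
  have n1 : |w.re| ≤ ‖w‖ := Complex.abs_re_le_norm w
  have n2 : |w.im| ≤ ‖w‖ := Complex.abs_im_le_norm w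
  have e : 3 / (4 * π ^ 2) * Real.cos (2 * π * z.re + 2 * π * w.re) -
      1 / (8 * π ^ 2) * Real.cos (2 * π * z.im + 2 * π * w.im) -
      (3 / (4 * π ^ 2) * Real.cos (2 * π * z.re) - 1 / (8 * π ^ 2) * Real.cos (2 * π * z.im)) =
      3 / (4 * π ^ 2) * (Real.cos (2 * π * z.re + 2 * π * w.re) - Real.cos (2 * π * z.re)) -
      1 / (8 * π ^ 2) * (Real.cos (2 * π * z.im + 2 * π * w.im) - Real.cos (2 * π * z.im)) := by ring
  rw [e]
  have a1 : |3 / (4 * π ^ 2) * (Real.cos (2 * π * z.re + 2 * π * w.re) - Real.cos (2 * π * z.re))| ≤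
      1 / 2 * ‖w‖ := by
    rw [abs_mul, abs_of_pos (show 0 < 3 / (4 * π ^ 2) by positivity)]
    calc _ ≤ 3 / (4 * π ^ 2) * |2 * π * w.re| := mul_le_mul_of_nonneg_left c1 (by positivity)
      _ = 3 / (2 * π) * |w.re| := by
          rw [abs_mul, abs_of_pos (show 0 < 2 * π by positivity)]
          field_simp
          ring
      _ ≤ 1 / 2 * ‖w‖ := by
          apply mul_le_mul _ n1 (abs_nonneg _) (by norm_num)
          rw [div_le_iff₀ (by positivity)]
          linarith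
  have a2 : |1 / (8 * π ^ 2) * (Real.cos (2 * π * z.im + 2 * π * w.im) - Real.cos (2 * π * z.im))| ≤
      1 / 2 * ‖w‖ := by
    rw [abs_mul, abs_of_pos (show 0 < 1 / (8 * π ^ 2) by positivity)]
    calc _ ≤ 1 / (8 * π ^ 2) * |2 * π * w.im| := mul_le_mul_of_nonneg_left c2 (by positivity)
      _ = 1 / (4 * π) * |w.im| := by
          rw [abs_mul, abs_of_pos (show 0 < 2 * π by positivity)]
          field_simp
          ring
      _ ≤ 1 / 2 * ‖w‖ := by
          apply mul_le_mul _ n2 (abs_nonneg _) (by norm_num)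
          rw [div_le_iff₀ (by positivity)]
          linarith
  calc _ ≤ _ := abs_sub _ _
    _ ≤ 1 / 2 * ‖w‖ + 1 / 2 * ‖w‖ := add_le_add a1 a2
    _ = _ := by ring

end WG
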