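import Pool.Agent.Helper853.WG.Data

set_option autoImplicit false

open Complex Metric Set Real

namespace WG

theorem phi2_laplacian (z : ℂ) : 0 < Laplacian.laplacian (fun z : ℂ => ‖z‖ ^ 2 + phi1 (I * z)) z := by
  set A : ℝ := 3 / (4 * π ^ 2) with hA
  set B : ℝ := 1 / (8 * π ^ 2) with hB
  have hpi : π ≠ 0 := Real.pi_ne_zero
  have c1 : ∀ x : ℝ, HasDerivAt (fun x : ℝ => 2 * π * x) (2 * π) x := by
    intro x
    simpa using (hasDerivAt_id x).const_mul (2 * π)
  have hg1 : ∀ x : ℝ, HasDerivAt (fun x : ℝ => x ^ 2 + A * Real.cos (2 * π * x))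
      (2 * x - 2 * π * A * Real.sin (2 * π * x)) x := by
    intro x
    have h := (hasDerivAt_pow 2 x).add (((c1 x).cos).const_mul A)
    refine h.congr_deriv ?_
    simp
    ring
  have hg2 : ∀ x : ℝ, HasDerivAt (fun x : ℝ => x ^ 2 - B * Real.cos (2 * π * x))
      (2 * x + 2 * π * B * Real.sin (2 * π * x)) x := by
    intro x
    have h := (hasDerivAt_pow 2 x).sub (((c1 x).cos).const_mul B)
    refine h.congr_deriv ?_
    simp
    ring
  have hg1' : ∀ x : ℝ, HasDerivAt (fun x : ℝ => 2 * x - 2 * π * A * Real.sin (2 * π * x))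
      (2 - 3 * Real.cos (2 * π * x)) x := by
    intro x
    have h := ((hasDerivAt_id x).const_mul 2).sub (((c1 x).sin).const_mul (2 * π * A))
    refine h.congr_deriv ?_
    rw [hA]
    field_simp
    ring
  have hg2' : ∀ x : ℝ, HasDerivAt (fun x : ℝ => 2 * x + 2 * π * B * Real.sin (2 * π * x))
      (2 + 1 / 2 * Real.cos (2 * π * x)) x := by
    intro x
    have h := ((hasDerivAt_id x).const_mul 2).add (((c1 x).sin).const_mul (2 * π * B))
    refine h.congr_deriv ?_
    rw [hB]
    field_simp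
    ring
  have hf : (fun z : ℂ => ‖z‖ ^ 2 + phi1 (I * z)) =
      fun z : ℂ => ((Complex.imCLM z) ^ 2 + A * Real.cos (2 * π * Complex.imCLM z)) +
        ((Complex.reCLM z) ^ 2 - B * Real.cos (2 * π * Complex.reCLM z)) := by
    funext z
    rw [Complex.sq_norm, Complex.normSq_apply]
    have e1 : (I * z).re = -z.im := by simp
    have e2 : (I * z).im = z.re := by simp
    have e3 : Real.cos (2 * π * -z.im) = Real.cos (2 * π * z.im) := by
      rw [mul_neg, Real.cos_neg]
    simp only [phi1, Complex.imCLM_apply, Complex.reCLM_apply, e1, e2, e3]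
    ring
  rw [hf, InnerProductSpace.laplacian_eq_iteratedFDeriv_complexPlane]
  have h1 : fderiv ℝ (fun z : ℂ => ((Complex.imCLM z) ^ 2 + A * Real.cos (2 * π * Complex.imCLM z)) +
        ((Complex.reCLM z) ^ 2 - B * Real.cos (2 * π * Complex.reCLM z))) =
      fun z : ℂ => (2 * Complex.imCLM z - 2 * π * A * Real.sin (2 * π * Complex.imCLM z)) • Complex.imCLM +
        (2 * Complex.reCLM z + 2 * π * B * Real.sin (2 * π * Complex.reCLM z)) • Complex.reCLM := by
    funext z
    exact ((comp_lin Complex.imCLM _ _ hg1 z).add (comp_lin Complex.reCLM _ _ hg2 z)).fderiv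
  have h2 : fderiv ℝ (fun z : ℂ => (2 * Complex.imCLM z - 2 * π * A * Real.sin (2 * π * Complex.imCLM z)) • Complex.imCLM +
        (2 * Complex.reCLM z + 2 * π * B * Real.sin (2 * π * Complex.reCLM z)) • Complex.reCLM) z =
      ((2 - 3 * Real.cos (2 * π * Complex.imCLM z)) • Complex.imCLM).smulRight Complex.imCLM +
      ((2 + 1 / 2 * Real.cos (2 * π * Complex.reCLM z)) • Complex.reCLM).smulRight Complex.reCLM :=
    (((comp_lin Complex.imCLM _ _ hg1' z).smul_const Complex.imCLM).add
      ((comp_lin Complex.reCLM _ _ hg2' z).smul_const Complex.reCLM)).fderiv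
  simp only [iteratedFDeriv_two_apply, h1, h2]
  have b1 := Real.cos_le_one (2 * π * z.im)
  have b2 := Real.neg_one_le_cos (2 * π * z.re)
  simp
  linarith


theorem phi2_smooth : ContDiff ℝ (⊤ : ℕ∞) (fun z : ℂ => phi1 (I * z)) :=
  phi1_smooth.comp (contDiff_const.mul contDiff_id)

theorem phi2_periodic (z : ℂ) (m n : ℤ) : phi1 (I * (z + (m + n * I))) = phi1 (I * z) := by
  have h : I * (z + (m + n * I)) = I * z + (((-n : ℤ) : ℂ) + (m : ℂ) * I) := by
    have : I * I = -1 := I_mul_I
    push_cast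
    linear_combination (n : ℂ) * this
  rw [h, phi1_periodic]

end WG
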