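import Mathlib

set_option autoImplicit false

open Complex Metric Set Real

namespace WG

/-- open annulus -/
def ann (a b : ℝ) : Set ℂ := {σ | a < ‖σ‖ ∧ ‖σ‖ < b}

/-- closed annulus -/
def cann (a b : ℝ) : Set ℂ := {σ | a ≤ ‖σ‖ ∧ ‖σ‖ ≤ b}

/-- continuous plurisubharmonic functions on an open subset of `ℂ × ℂ`: the sub-mean value
inequality holds along every closed holomorphic disc in `Ω`. -/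
def PSHOn (Ω : Set (ℂ × ℂ)) (u : ℂ × ℂ → ℝ) : Prop :=
  ContinuousOn u Ω ∧
    ∀ f g : ℂ → ℂ, AnalyticOnNhd ℂ f (closedBall 0 1) → AnalyticOnNhd ℂ g (closedBall 0 1) →
      (∀ ζ ∈ closedBall (0:ℂ) 1, (f ζ, g ζ) ∈ Ω) →
      u (f 0, g 0) ≤ circleAverage (fun ζ => u (f ζ, g ζ)) 0 1

/-- maximality: a psh function that is `≤ u` off a compact set is `≤ u` -/
def MaximalOn (Ω : Set (ℂ × ℂ)) (u : ℂ × ℂ → ℝ) : Prop :=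
  ∀ v : ℂ × ℂ → ℝ, PSHOn Ω v →
    (∃ K : Set (ℂ × ℂ), IsCompact K ∧ K ⊆ Ω ∧ ∀ p ∈ Ω \ K, v p ≤ u p) → ∀ p ∈ Ω, v p ≤ u p

structure IsWeakGeodesic (a b : ℝ) (φ₁ φ₂ : ℂ → ℝ) (φ : ℂ → ℂ → ℝ) : Prop where
  periodic : ∀ z : ℂ, ∀ σ ∈ cann a b, ∀ m n : ℤ, φ (z + (m + n * I)) σ = φ z σ
  cont : ContinuousOn (fun p : ℂ × ℂ => φ p.1 p.2) (univ ×ˢ cann a b)
  left : ∀ z σ : ℂ, ‖σ‖ = a → φ z σ = φ₁ z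
  right : ∀ z σ : ℂ, ‖σ‖ = b → φ z σ = φ₂ z
  psh : PSHOn (univ ×ˢ ann a b) (fun p => ‖p.1‖ ^ 2 + φ p.1 p.2)
  maximal : MaximalOn (univ ×ˢ ann a b) (fun p => ‖p.1‖ ^ 2 + φ p.1 p.2)

/-- subharmonic along all holomorphic discs (continuous functions on `ℂ`) -/
def DiscSub (ψ : ℂ → ℝ) : Prop :=
  Continuous ψ ∧ ∀ f : ℂ → ℂ, AnalyticOnNhd ℂ f (closedBall 0 1) →
    ψ (f 0) ≤ circleAverage (fun ζ => ψ (f ζ)) 0 1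

structure Geo (u : ℂ → ℝ → ℝ) : Prop where
  cont : Continuous (fun p : ℂ × ℝ => u p.1 p.2)
  disc : ∀ f g : ℂ → ℂ, AnalyticOnNhd ℂ f (closedBall 0 1) → AnalyticOnNhd ℂ g (closedBall 0 1) →
    (∀ ζ ∈ closedBall (0:ℂ) 1, 0 < (g ζ).re ∧ (g ζ).re < 1) →
    u (f 0) (g 0).re ≤ circleAverage (fun ζ => u (f ζ) (g ζ).re) 0 1

structure GData (u : ℂ → ℝ → ℝ) (h : ℂ → ℝ) : Prop extends Geo u where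
  left : ∀ z, u z 0 = h z
  right : ∀ z, u z 1 = h (I * z)
  comp : ∀ ψ : ℂ → ℝ, DiscSub ψ → (∃ M, ∀ z, ψ z ≤ ‖z‖ ^ 2 + M) → ∀ l : ℝ,
    (∀ z, ψ z ≤ h z) → (∀ z, ψ z + l ≤ h (I * z)) →
    ∀ z, ∀ t ∈ Icc (0:ℝ) 1, ψ z + l * t ≤ u z t
  even : ∀ z, ∀ t ∈ Icc (0:ℝ) 1, u (-z) t = u z t
  symm : ∀ z, ∀ t ∈ Icc (0:ℝ) 1, u (I * z) (1 - t) = u z t
  semi : ∃ C > 0, ∀ z w : ℂ, ∀ t ∈ Icc (0:ℝ) 1, u (z + w) t + u (z - w) t - 2 * u z t ≤ C * ‖w‖ ^ 2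
  grow : ∃ M, ∀ z, ∀ t ∈ Icc (0:ℝ) 1, |u z t - ‖z‖ ^ 2| ≤ M
  upper : ∀ z, ‖z‖ ≤ 1 / 10 → h z ≤ h 0 - 9 / 20 * z.re ^ 2 + 5 / 4 * z.im ^ 2
  lower : ∀ z, h 0 - 1 / 2 * ‖z‖ ^ 2 ≤ h z

structure Pot (φ : ℂ → ℝ) : Prop where
  cont : Continuous φ
  periodic : ∀ z : ℂ, ∀ m n : ℤ, φ (z + (m + n * I)) = φ z
  even : ∀ z, φ (-z) = φ z
  bdd : ∀ z, |φ z| ≤ 1
  semi : ∀ z w, φ (z + w) + φ (z - w) - 2 * φ z ≤ 4 * ‖w‖ ^ 2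
  lip : ∀ z w, |φ (z + w) - φ z| ≤ 1 * ‖w‖
  sub : DiscSub (fun z => ‖z‖ ^ 2 + φ z)
  upper : ∀ z, ‖z‖ ≤ 1 / 10 → ‖z‖ ^ 2 + φ z ≤ φ 0 - 9 / 20 * z.re ^ 2 + 5 / 4 * z.im ^ 2
  lower : ∀ z, φ 0 - 1 / 2 * ‖z‖ ^ 2 ≤ ‖z‖ ^ 2 + φ z


noncomputable def psi (u : ℂ → ℝ → ℝ) (l : ℝ) (z : ℂ) : ℝ :=
  sInf ((fun t => u z t - l * t) '' Icc (0:ℝ) 1)

/-- strict positivity `T ≥ ε ω` of the slice current with potential `f` (`ω = dd^c |z|^2`) -/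
def StrictlyPositive (f : ℂ → ℝ) : Prop :=
  ∃ ε > 0, ∀ (z : ℂ) (r : ℝ), 0 < r →
    f z - ε * ‖z‖ ^ 2 ≤ circleAverage (fun w => f w - ε * ‖w‖ ^ 2) z r

end WG
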