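import Pool.Agent.Helper853.WG.Kis

set_option autoImplicit false

open Complex Metric Set Real MeasureTheory

namespace WG

noncomputable def gW (α β : ℝ) (τ : ℂ) : ℂ :=
  (α : ℂ) * Complex.exp (((π / 2 : ℝ) : ℂ) * I * τ) +
    (β : ℂ) * Complex.exp (-(((π / 2 : ℝ) : ℂ) * I * τ))

theorem ci_re (c : ℝ) (τ : ℂ) : ((c : ℂ) * I * τ).re = -(c * τ.im) := by
  simp only [Complex.mul_re, Complex.mul_im, Complex.ofReal_re, Complex.ofReal_im, Complex.I_re,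
    Complex.I_im]
  ring

theorem ci_im (c : ℝ) (τ : ℂ) : ((c : ℂ) * I * τ).im = c * τ.re := by
  simp only [Complex.mul_re, Complex.mul_im, Complex.ofReal_re, Complex.ofReal_im, Complex.I_re,
    Complex.I_im]
  ring

theorem gW_re (α β : ℝ) (τ : ℂ) : (gW α β τ).re =
    (α * Real.exp (-(π / 2 * τ.im)) + β * Real.exp (π / 2 * τ.im)) * Real.cos (π / 2 * τ.re) := by
  unfold gW
  rw [Complex.add_re, Complex.re_ofReal_mul, Complex.re_ofReal_mul, Complex.exp_re, Complex.exp_re,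
    Complex.neg_re, Complex.neg_im, ci_re, ci_im, neg_neg, Real.cos_neg]
  ring

theorem gW_im (α β : ℝ) (τ : ℂ) : (gW α β τ).im =
    (α * Real.exp (-(π / 2 * τ.im)) - β * Real.exp (π / 2 * τ.im)) * Real.sin (π / 2 * τ.re) := by
  unfold gW
  rw [Complex.add_im, Complex.im_ofReal_mul, Complex.im_ofReal_mul, Complex.exp_im, Complex.exp_im,
    Complex.neg_re, Complex.neg_im, ci_re, ci_im, neg_neg, Real.sin_neg]
  ring

/-- the model function with `e₁ = exp (iπτ)`, `e₂ = exp (-iπτ)` -/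
noncomputable def EA (h0 α β : ℝ) (τ e₁ e₂ : ℂ) : ℂ :=
  (h0 : ℂ) + ((9 / 10 : ℝ) : ℂ) * (((α ^ 2 : ℝ) : ℂ) * (τ - ((1 / 2 : ℝ) : ℂ)) * e₁ +
      ((β ^ 2 : ℝ) : ℂ) * (τ - ((1 / 2 : ℝ) : ℂ)) * e₂ -
      ((α * β : ℝ) : ℂ) * (((1 : ℝ) : ℂ) - ((2 : ℝ) : ℂ) * τ)) -
    ((9 / 10 : ℝ) : ℂ) * (-I * ((α ^ 2 : ℝ) : ℂ) * e₁ + I * ((β ^ 2 : ℝ) : ℂ) * e₂) +
    (((α ^ 2 + β ^ 2) / 20 : ℝ) : ℂ) * (-I * e₁ + I * e₂)

theorem EA_re (h0 α β : ℝ) (τ e₁ e₂ : ℂ) : (EA h0 α β τ e₁ e₂).re =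
    h0 + 9 / 10 * (α ^ 2 * ((τ.re - 1 / 2) * e₁.re - τ.im * e₁.im) +
      β ^ 2 * ((τ.re - 1 / 2) * e₂.re - τ.im * e₂.im) - α * β * (1 - 2 * τ.re)) -
    9 / 10 * (α ^ 2 * e₁.im - β ^ 2 * e₂.im) + (α ^ 2 + β ^ 2) / 20 * (e₁.im - e₂.im) := by
  unfold EA
  simp only [Complex.add_re, Complex.sub_re, Complex.mul_re, Complex.mul_im, Complex.ofReal_re,
    Complex.ofReal_im, Complex.I_re, Complex.I_im, Complex.neg_re, Complex.neg_im, Complex.add_im,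
    Complex.sub_im]
  ring

noncomputable def EW (h0 α β : ℝ) (τ : ℂ) : ℂ :=
  EA h0 α β τ (Complex.exp ((π : ℂ) * I * τ)) (Complex.exp (-((π : ℂ) * I * τ)))

theorem EW_re (h0 α β : ℝ) (τ : ℂ) (A2 B2 C S : ℝ) (hA : A2 = Real.exp (-(π / 2 * τ.im)))
    (hB : B2 = Real.exp (π / 2 * τ.im)) (hC : C = Real.cos (π / 2 * τ.re))
    (hS : S = Real.sin (π / 2 * τ.re)) : (EW h0 α β τ).re =
    h0 + 9 / 10 * ((α * A2) ^ 2 * ((τ.re - 1 / 2) * (C ^ 2 - S ^ 2) - τ.im * (2 * S * C)) +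
      (β * B2) ^ 2 * ((τ.re - 1 / 2) * (C ^ 2 - S ^ 2) + τ.im * (2 * S * C)) -
      α * β * (1 - 2 * τ.re)) -
    9 / 10 * ((α * A2) ^ 2 + (β * B2) ^ 2) * (2 * S * C) +
    (α ^ 2 + β ^ 2) / 20 * (A2 ^ 2 + B2 ^ 2) * (2 * S * C) := by
  unfold EW
  rw [EA_re, Complex.exp_re, Complex.exp_re, Complex.exp_im, Complex.exp_im, Complex.neg_re,
    Complex.neg_im, ci_re, ci_im, neg_neg, Real.cos_neg, Real.sin_neg]
  have e1 : Real.exp (-(π * τ.im)) = A2 ^ 2 := by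
    rw [hA, sq, ← Real.exp_add]
    congr 1
    ring
  have e2 : Real.exp (π * τ.im) = B2 ^ 2 := by
    rw [hB, sq, ← Real.exp_add]
    congr 1
    ring
  have e3 : Real.cos (π * τ.re) = C ^ 2 - S ^ 2 := by
    rw [hC, hS, ← Real.cos_two_mul']
    congr 1
    ring
  have e4 : Real.sin (π * τ.re) = 2 * S * C := by
    rw [hC, hS, ← Real.sin_two_mul]
    congr 1
    ring
  rw [e1, e2, e3, e4]
  ring

theorem real_core (a b N x C S s A B : ℝ) (hx0 : 0 ≤ x) (hx1 : x ≤ 1) (hSC : S ^ 2 + C ^ 2 = 1)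
    (hS0 : 0 ≤ S) (hC0 : 0 ≤ C) (hCx : 1 - x ≤ C) (hSx : x ≤ S) (hA : a ^ 2 ≤ N * A)
    (hB : b ^ 2 ≤ N * B) (hN : 0 ≤ N)
    (h4 : (s = 4 ∧ 140 * A ≤ B) ∨ (s = -4 ∧ 140 * B ≤ A)) :
    (1 - x) * (-(9 / 20) * ((a + b) * C) ^ 2 + 5 / 4 * ((a - b) * S) ^ 2) +
      x * (-(9 / 20) * ((a - b) * S) ^ 2 + 5 / 4 * ((a + b) * C) ^ 2) ≤
    9 / 10 * (a ^ 2 * ((x - 1 / 2) * (C ^ 2 - S ^ 2) - s * (2 * S * C)) +
      b ^ 2 * ((x - 1 / 2) * (C ^ 2 - S ^ 2) + s * (2 * S * C)) - a * b * (1 - 2 * x)) -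
    9 / 10 * (a ^ 2 + b ^ 2) * (2 * S * C) + N / 20 * (A + B) * (2 * S * C) := by
  have hSCn : 0 ≤ S * C := mul_nonneg hS0 hC0
  have hS1 : S ≤ 1 := by nlinarith [sq_nonneg C]
  have hC1 : C ≤ 1 := by nlinarith [sq_nonneg S]
  have k1 : (1 - x) * S ^ 2 ≤ S * C := by
    calc (1 - x) * S ^ 2 ≤ C * S ^ 2 := mul_le_mul_of_nonneg_right hCx (sq_nonneg S)
      _ ≤ S * C := by nlinarith [mul_nonneg hSCn (sub_nonneg.mpr hS1)]
  have k2 : x * C ^ 2 ≤ S * C := by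
    calc x * C ^ 2 ≤ S * C ^ 2 := mul_le_mul_of_nonneg_right hSx (sq_nonneg C)
      _ ≤ S * C := by nlinarith [mul_nonneg hSCn (sub_nonneg.mpr hC1)]
  have k1' : 0 ≤ (1 - x) * S ^ 2 := mul_nonneg (by linarith) (sq_nonneg S)
  have k2' : 0 ≤ x * C ^ 2 := mul_nonneg hx0 (sq_nonneg C)
  have f1 : (1 - x) * S ^ 2 * (9 / 20 * (a + b) ^ 2 + 5 / 4 * (a - b) ^ 2) ≤
      S * C * (5 / 2 * (a ^ 2 + b ^ 2)) := by
    have e1 : 9 / 20 * (a + b) ^ 2 + 5 / 4 * (a - b) ^ 2 ≤ 5 / 2 * (a ^ 2 + b ^ 2) := by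
      nlinarith [sq_nonneg (a + b)]
    exact mul_le_mul k1 e1 (by positivity) hSCn
  have f2 : x * C ^ 2 * (9 / 20 * (a - b) ^ 2 + 5 / 4 * (a + b) ^ 2) ≤
      S * C * (5 / 2 * (a ^ 2 + b ^ 2)) := by
    have e1 : 9 / 20 * (a - b) ^ 2 + 5 / 4 * (a + b) ^ 2 ≤ 5 / 2 * (a ^ 2 + b ^ 2) := by
      nlinarith [sq_nonneg (a - b)]
    exact mul_le_mul k2 e1 (by positivity) hSCn
  have nb : 0 ≤ -(9 / 10) * s * a ^ 2 + 9 / 10 * s * b ^ 2 - 9 / 10 * (a ^ 2 + b ^ 2)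
      - 5 / 2 * (a ^ 2 + b ^ 2) + N / 20 * (A + B) := by
    rcases h4 with ⟨hs, hAB⟩ | ⟨hs, hAB⟩
    · have h5 := mul_le_mul_of_nonneg_left hAB hN
      rw [hs]
      nlinarith [sq_nonneg a, sq_nonneg b]
    · have h5 := mul_le_mul_of_nonneg_left hAB hN
      rw [hs]
      nlinarith [sq_nonneg a, sq_nonneg b]
  have hq := mul_nonneg hSCn nb
  have hL : (1 - x) * (-(9 / 20) * ((a + b) * C) ^ 2 + 5 / 4 * ((a - b) * S) ^ 2) +
      x * (-(9 / 20) * ((a - b) * S) ^ 2 + 5 / 4 * ((a + b) * C) ^ 2) =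
      -(9 / 20) * ((1 - x) * (a + b) ^ 2 + x * (a - b) ^ 2) +
      (1 - x) * S ^ 2 * (9 / 20 * (a + b) ^ 2 + 5 / 4 * (a - b) ^ 2) +
      x * C ^ 2 * (9 / 20 * (a - b) ^ 2 + 5 / 4 * (a + b) ^ 2) := by
    linear_combination (-(9 / 20) * ((1 - x) * (a + b) ^ 2 + x * (a - b) ^ 2)) * hSC
  have hp : (x - 1 / 2) * (C ^ 2 - S ^ 2) = x * C ^ 2 + (1 - x) * S ^ 2 - 1 / 2 := by
    linear_combination (-(1 / 2)) * hSC
  have g1 := mul_nonneg k1' (add_nonneg (sq_nonneg a) (sq_nonneg b))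
  have g2 := mul_nonneg k2' (add_nonneg (sq_nonneg a) (sq_nonneg b))
  rw [hL, hp]
  linarith

theorem exp_four_pi : 140 ≤ Real.exp (π / 2 * 4) ^ 2 := by
  have h1 : π / 2 * 4 + 1 ≤ Real.exp (π / 2 * 4) := Real.add_one_le_exp _
  have h2 : π + 1 ≤ Real.exp π := Real.add_one_le_exp _
  have h3 : (4 : ℝ) ≤ Real.exp π := by linarith [Real.pi_gt_three]
  have h4 : Real.exp (π / 2 * 4) = Real.exp π ^ 2 := by
    rw [sq, ← Real.exp_add]
    congr 1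
    ring
  rw [h4]
  have h5 : (16 : ℝ) ≤ Real.exp π ^ 2 := by nlinarith
  nlinarith

theorem gW_norm (α β : ℝ) (hN : α ^ 2 + β ^ 2 ≤ (Real.exp (-(2 * π)) / 20) ^ 2) (τ : ℂ)
    (h1 : -4 ≤ τ.im) (h2 : τ.im ≤ 4) : ‖gW α β τ‖ ≤ 1 / 10 := by
  have hρ : 0 ≤ Real.exp (-(2 * π)) / 20 := by positivity
  have hα : |α| ≤ Real.exp (-(2 * π)) / 20 :=
    abs_le_of_sq_le_sq (by nlinarith [sq_nonneg β]) hρ
  have hβ : |β| ≤ Real.exp (-(2 * π)) / 20 :=
    abs_le_of_sq_le_sq (by nlinarith [sq_nonneg α]) hρ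
  have hpi := Real.pi_pos
  have e1 : Real.exp (-(π / 2 * τ.im)) ≤ Real.exp (2 * π) :=
    Real.exp_le_exp.mpr (by nlinarith)
  have e2 : Real.exp (π / 2 * τ.im) ≤ Real.exp (2 * π) :=
    Real.exp_le_exp.mpr (by nlinarith)
  have e3 : Real.exp (-(2 * π)) / 20 * Real.exp (2 * π) = 1 / 20 := by
    rw [div_mul_eq_mul_div, ← Real.exp_add]
    rw [show -(2 * π) + 2 * π = 0 by ring, Real.exp_zero]
  unfold gW
  refine (norm_add_le _ _).trans ?_
  rw [norm_mul, norm_mul, Complex.norm_real, Complex.norm_real, Complex.norm_exp, Complex.norm_exp,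
    Complex.neg_re, ci_re, neg_neg, Real.norm_eq_abs, Real.norm_eq_abs]
  have f1 : |α| * Real.exp (-(π / 2 * τ.im)) ≤ 1 / 20 := by
    rw [← e3]
    exact mul_le_mul hα e1 (Real.exp_nonneg _) hρ
  have f2 : |β| * Real.exp (π / 2 * τ.im) ≤ 1 / 20 := by
    rw [← e3]
    exact mul_le_mul hβ e2 (Real.exp_nonneg _) hρ
  linarith

theorem detach_bdry {u : ℂ → ℝ → ℝ} {h : ℂ → ℝ} (hd : GData u h) (α β : ℝ)
    (hN : α ^ 2 + β ^ 2 ≤ (Real.exp (-(2 * π)) / 20) ^ 2) (τ : ℂ)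
    (h1 : -4 ≤ τ.im) (h2 : τ.im ≤ 4) (h3 : 0 ≤ τ.re) (h4 : τ.re ≤ 1)
    (hb : τ.re = 0 ∨ τ.re = 1 ∨ τ.im = 4 ∨ τ.im = -4) :
    u (gW α β τ) τ.re ≤ (EW (h 0) α β τ).re := by
  have hn := gW_norm α β hN τ h1 h2
  have hIn : ‖I * gW α β τ‖ ≤ 1 / 10 := by
    rw [norm_mul, Complex.norm_I, one_mul]
    exact hn
  have u1 := hd.upper _ hn
  have u2 := hd.upper _ hIn
  have i1 : (I * gW α β τ).re = -(gW α β τ).im := by
    rw [Complex.I_mul_re]
  have i2 : (I * gW α β τ).im = (gW α β τ).re := by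
    rw [Complex.I_mul_im]
  rw [i1, i2] at u2
  have hre := gW_re α β τ
  have him := gW_im α β τ
  obtain ⟨A2, hA2⟩ : ∃ A2, A2 = Real.exp (-(π / 2 * τ.im)) := ⟨_, rfl⟩
  obtain ⟨B2, hB2⟩ : ∃ B2, B2 = Real.exp (π / 2 * τ.im) := ⟨_, rfl⟩
  obtain ⟨C, hC⟩ : ∃ C, C = Real.cos (π / 2 * τ.re) := ⟨_, rfl⟩
  obtain ⟨S, hS⟩ : ∃ S, S = Real.sin (π / 2 * τ.re) := ⟨_, rfl⟩
  have hE := EW_re (h 0) α β τ A2 B2 C S hA2 hB2 hC hS
  rw [← hA2, ← hB2, ← hC] at hre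
  rw [← hA2, ← hB2, ← hS] at him
  have hAB : A2 * B2 = 1 := by
    rw [hA2, hB2, ← Real.exp_add]
    rw [show -(π / 2 * τ.im) + π / 2 * τ.im = 0 by ring, Real.exp_zero]
  have hab : α * β = (α * A2) * (β * B2) := by linear_combination (-(α * β)) * hAB
  rw [hE]
  rcases hb with hx | hx | hs
  · have hC1 : C = 1 := by rw [hC, hx, mul_zero, Real.cos_zero]
    have hS1 : S = 0 := by rw [hS, hx, mul_zero, Real.sin_zero]
    rw [hx, hd.left]
    rw [hre, him, hC1, hS1] at u1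
    rw [hC1, hS1]
    have e := hab
    nlinarith [u1]
  · have hC1 : C = 0 := by rw [hC, hx, mul_one, Real.cos_pi_div_two]
    have hS1 : S = 1 := by rw [hS, hx, mul_one, Real.sin_pi_div_two]
    rw [hx, hd.right]
    rw [hre, him, hC1, hS1] at u2
    rw [hC1, hS1]
    have e := hab
    nlinarith [u2]
  · have hconv := (Geo.convex hd.toGeo (gW α β τ)).2 (left_mem_Icc.mpr zero_le_one)
      (right_mem_Icc.mpr zero_le_one) (by linarith : (0 : ℝ) ≤ 1 - τ.re) h3 (by ring)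
    rw [smul_zero, zero_add, smul_eq_mul, mul_one, smul_eq_mul, smul_eq_mul, hd.left,
      hd.right] at hconv
    have hpi := Real.pi_pos
    have hC0 : 0 ≤ C := by
      rw [hC]
      exact Real.cos_nonneg_of_mem_Icc ⟨by nlinarith, by nlinarith⟩
    have hS0 : 0 ≤ S := by
      rw [hS]
      exact Real.sin_nonneg_of_nonneg_of_le_pi (by positivity) (by nlinarith)
    have hSC : S ^ 2 + C ^ 2 = 1 := by rw [hS, hC]; exact Real.sin_sq_add_cos_sq _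
    have hCx : 1 - τ.re ≤ C := by
      have h5 := Real.one_sub_mul_le_cos (x := π / 2 * τ.re) (by positivity) (by nlinarith)
      rw [hC]
      have h6 : 2 / π * (π / 2 * τ.re) = τ.re := by field_simp
      rw [h6] at h5
      exact h5
    have hSx : τ.re ≤ S := by
      have h5 := Real.mul_le_sin (x := π / 2 * τ.re) (by positivity) (by nlinarith)
      rw [hS]
      have h6 : 2 / π * (π / 2 * τ.re) = τ.re := by field_simp
      rw [h6] at h5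
      exact h5
    have hA0 : 0 < A2 := by rw [hA2]; exact Real.exp_pos _
    have hB0 : 0 < B2 := by rw [hB2]; exact Real.exp_pos _
    have hAs : (α * A2) ^ 2 ≤ (α ^ 2 + β ^ 2) * A2 ^ 2 := by
      nlinarith [mul_nonneg (sq_nonneg β) (sq_nonneg A2)]
    have hBs : (β * B2) ^ 2 ≤ (α ^ 2 + β ^ 2) * B2 ^ 2 := by
      nlinarith [mul_nonneg (sq_nonneg α) (sq_nonneg B2)]
    have h4' : (τ.im = 4 ∧ 140 * A2 ^ 2 ≤ B2 ^ 2) ∨ (τ.im = -4 ∧ 140 * B2 ^ 2 ≤ A2 ^ 2) := by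
      rcases hs with hs | hs
      · left
        refine ⟨hs, ?_⟩
        have h5 : 140 ≤ B2 ^ 2 := by rw [hB2, hs]; exact exp_four_pi
        have h6 : A2 ^ 2 * B2 ^ 2 = 1 := by rw [← mul_pow, hAB, one_pow]
        have h7 : 1 ≤ B2 := by nlinarith
        have h8 : A2 ≤ 1 := by nlinarith
        nlinarith
      · right
        refine ⟨hs, ?_⟩
        have h5 : 140 ≤ A2 ^ 2 := by
          rw [hA2, hs]
          have h6 := exp_four_pi
          rwa [show -(π / 2 * -4) = π / 2 * 4 by ring]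
        have h7 : 1 ≤ A2 := by nlinarith
        have h8 : B2 ≤ 1 := by nlinarith
        nlinarith
    have hcore := real_core (α * A2) (β * B2) (α ^ 2 + β ^ 2) τ.re C S τ.im (A2 ^ 2) (B2 ^ 2)
      h3 h4 hSC hS0 hC0 hCx hSx hAs hBs (by positivity) h4'
    rw [← hab] at hcore
    rw [hre, him] at u1 u2
    have v1 := mul_le_mul_of_nonneg_left u1 (by linarith : (0 : ℝ) ≤ 1 - τ.re)
    have v2 := mul_le_mul_of_nonneg_left u2 h3
    have e5 : (-((α * A2 - β * B2) * S)) ^ 2 = ((α * A2 - β * B2) * S) ^ 2 := neg_sq _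
    rw [e5] at v2
    linarith

theorem detach_key {u : ℂ → ℝ → ℝ} {h : ℂ → ℝ} (hd : GData u h) (α β : ℝ)
    (hN : α ^ 2 + β ^ 2 ≤ (Real.exp (-(2 * π)) / 20) ^ 2) :
    u (gW α β (1 / 2)) (1 / 2) ≤ h 0 - 4 / 5 * (α ^ 2 + β ^ 2) := by
  have hgd : Differentiable ℂ (gW α β) := by
    unfold gW
    fun_prop
  have hEd : Differentiable ℂ (EW (h 0) α β) := by
    unfold EW EA
    fun_prop
  have hFc : Continuous (fun τ : ℂ => u (gW α β τ) τ.re) :=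
    hd.cont.comp (hgd.continuous.prodMk Complex.continuous_re)
  have hMc : Continuous (fun τ : ℂ => (EW (h 0) α β τ).re) :=
    Complex.continuous_re.comp hEd.continuous
  have hK : IsCompact (Icc (0 : ℝ) 1 ×ℂ Icc (-4 : ℝ) 4) := isCompact_Icc.reProdIm isCompact_Icc
  have hint : interior (Icc (0 : ℝ) 1 ×ℂ Icc (-4 : ℝ) 4) = Ioo (0 : ℝ) 1 ×ℂ Ioo (-4 : ℝ) 4 := by
    rw [Complex.interior_reProdIm, interior_Icc, interior_Icc]
  have hmax := max_principle hK (F := fun τ : ℂ => u (gW α β τ) τ.re - (EW (h 0) α β τ).re)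
    (hFc.sub hMc).continuousOn ?_ ?_ (1 / 2) ?_
  · have e1 : (1 / 2 : ℂ).re = 1 / 2 := by norm_num
    have e2 : (1 / 2 : ℂ).im = 0 := by norm_num
    have hE := EW_re (h 0) α β (1 / 2) 1 1 (√2 / 2) (√2 / 2)
      (by rw [e2, mul_zero, neg_zero, Real.exp_zero]) (by rw [e2, mul_zero, Real.exp_zero])
      (by rw [e1, show π / 2 * (1 / 2) = π / 4 by ring, Real.cos_pi_div_four])
      (by rw [e1, show π / 2 * (1 / 2) = π / 4 by ring, Real.sin_pi_div_four])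
    have h2 : (√2 : ℝ) ^ 2 = 2 := Real.sq_sqrt (by norm_num)
    rw [e1, e2] at hE
    have hmax' : u (gW α β (1 / 2)) (1 / 2 : ℂ).re - (EW (h 0) α β (1 / 2)).re ≤ 0 := hmax
    rw [e1, hE] at hmax'
    nlinarith
  · intro z hz
    obtain ⟨r, hr, hball⟩ := Metric.nhds_basis_closedBall.mem_iff.1 (isOpen_interior.mem_nhds hz)
    refine ⟨r, hr, hball.trans interior_subset, ?_⟩
    rw [circleAverage_sub' hr.le hFc.continuousOn hMc.continuousOn, re_circleAverage' hr.le hEd]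
    have hlin : Differentiable ℂ (fun ζ : ℂ => (r : ℂ) * ζ + z) := by fun_prop
    have hdisc := hd.disc (fun ζ => gW α β ((r : ℂ) * ζ + z)) (fun ζ => (r : ℂ) * ζ + z)
      (fun w _ => (hgd.comp hlin).analyticAt w) (fun w _ => hlin.analyticAt w) (by
        intro ζ hζ
        have h5 : (r : ℂ) * ζ + z ∈ closedBall z r := by
          rw [mem_closedBall, dist_eq_norm, add_sub_cancel_right, norm_mul, Complex.norm_real,
            Real.norm_eq_abs, abs_of_pos hr]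
          rw [mem_closedBall, dist_zero_right] at hζ
          nlinarith
        have h6 := hball h5
        rw [hint, Complex.mem_reProdIm] at h6
        exact ⟨h6.1.1, h6.1.2⟩)
    have e1 := circleAverage_eq_circleAverage_zero_one (f := fun τ : ℂ => u (gW α β τ) τ.re)
      (c := z) (R := r)
    have h0 : (r : ℂ) * 0 + z = z := by ring
    rw [h0] at hdisc
    rw [e1]
    show u (gW α β z) z.re - (EW (h 0) α β z).re ≤ _
    have h7 : u (gW α β z) z.re ≤ circleAverage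
      (fun ζ => u (gW α β ((r : ℂ) * ζ + z)) ((r : ℂ) * ζ + z).re) 0 1 := hdisc
    linarith
  · intro z hz hzi
    rw [hint, Complex.mem_reProdIm] at hzi
    rw [Complex.mem_reProdIm] at hz
    obtain ⟨⟨h3, h4⟩, h1, h2⟩ := hz
    have hb : z.re = 0 ∨ z.re = 1 ∨ z.im = 4 ∨ z.im = -4 := by
      by_contra hcon
      push Not at hcon
      obtain ⟨c1, c2, c3, c4⟩ := hcon
      exact hzi ⟨⟨lt_of_le_of_ne h3 (Ne.symm c1), lt_of_le_of_ne h4 c2⟩,
        lt_of_le_of_ne h1 (Ne.symm c4), lt_of_le_of_ne h2 c3⟩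
    have := detach_bdry hd α β hN z h1 h2 h3 h4 hb
    show u (gW α β z) z.re - (EW (h 0) α β z).re ≤ 0
    linarith
  · rw [Complex.mem_reProdIm]
    norm_num

/-- TARGET -/
theorem detach {u : ℂ → ℝ → ℝ} {h : ℂ → ℝ} (hd : GData u h) : u 0 (1 / 2) < h 0 := by
  obtain ⟨ρ, hρ⟩ : ∃ ρ, ρ = Real.exp (-(2 * π)) / 20 := ⟨_, rfl⟩
  have hρ0 : 0 < ρ := by rw [hρ]; positivity
  have h2 : (√2 : ℝ) ^ 2 = 2 := Real.sq_sqrt (by norm_num)
  have hs2 : (0 : ℝ) < √2 := by positivity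
  have key : ∀ z : ℂ, ‖z‖ = ρ → u z (1 / 2) ≤ h 0 - 4 / 5 * ρ ^ 2 := by
    intro z hz
    have hzn : z.re ^ 2 + z.im ^ 2 = ρ ^ 2 := by
      rw [← hz, ← Complex.normSq_eq_norm_sq, Complex.normSq_apply]
      ring
    obtain ⟨α, hα⟩ : ∃ α, α = (z.re + z.im) * (√2 / 2) := ⟨_, rfl⟩
    obtain ⟨β, hβ⟩ : ∃ β, β = (z.re - z.im) * (√2 / 2) := ⟨_, rfl⟩
    have hN : α ^ 2 + β ^ 2 = ρ ^ 2 := by
      rw [← hzn, hα, hβ]
      linear_combination ((z.re ^ 2 + z.im ^ 2) / 2) * h2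
    have hk := detach_key hd α β (by rw [hN, hρ])
    rw [hN] at hk
    have hg : gW α β (1 / 2) = z := by
      have e1 : (1 / 2 : ℂ).re = 1 / 2 := by norm_num
      have e2 : (1 / 2 : ℂ).im = 0 := by norm_num
      apply Complex.ext
      · rw [gW_re, e1, e2, mul_zero, neg_zero, Real.exp_zero,
          show π / 2 * (1 / 2) = π / 4 by ring, Real.cos_pi_div_four, hα, hβ]
        linear_combination (z.re / 2) * h2
      · rw [gW_im, e1, e2, mul_zero, neg_zero, Real.exp_zero,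
          show π / 2 * (1 / 2) = π / 4 by ring, Real.sin_pi_div_four, hα, hβ]
        linear_combination (z.im / 2) * h2
    rw [hg] at hk
    exact hk
  have hl : Differentiable ℂ (fun ζ : ℂ => (ρ : ℂ) * ζ) := by fun_prop
  have hc : Differentiable ℂ (fun _ : ℂ => (1 / 2 : ℂ)) := differentiable_const _
  have e1 : (1 / 2 : ℂ).re = 1 / 2 := by norm_num
  have hdisc := hd.disc (fun ζ => (ρ : ℂ) * ζ) (fun _ => (1 / 2 : ℂ))
    (fun w _ => hl.analyticAt w) (fun w _ => hc.analyticAt w)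
    (fun ζ _ => by rw [e1]; constructor <;> norm_num)
  rw [mul_zero, e1] at hdisc
  have hcu : Continuous (fun ζ : ℂ => u ((ρ : ℂ) * ζ) (1 / 2)) :=
    hd.cont.comp (hl.continuous.prodMk continuous_const)
  have hm := circleAverage_mono' (f := fun ζ : ℂ => u ((ρ : ℂ) * ζ) (1 / 2))
    (g := fun _ => h 0 - 4 / 5 * ρ ^ 2) (c := 0) zero_le_one hcu.continuousOn
    continuousOn_const (by
      intro z hz
      apply key
      rw [mem_sphere, dist_zero_right] at hz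
      rw [norm_mul, hz, mul_one, Complex.norm_real, Real.norm_eq_abs, abs_of_pos hρ0])
  rw [circleAverage_const'] at hm
  have hpos : 0 < ρ ^ 2 := by positivity
  linarith

end WG
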