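import Pool.Agent.Helper853.WG.Basic
import Pool.Agent.Helper853.WG.Defs

set_option autoImplicit false
open Complex Metric Set Real MeasureTheory
namespace WG
noncomputable def tt (a b : ℝ) (σ : ℂ) : ℝ := Real.log (‖σ‖ / a) / Real.log (b / a)

noncomputable def Wup (a b : ℝ) (h₁ h₂ : ℂ → ℝ) (p : ℂ × ℂ) : ℝ :=
  (1 - tt a b p.2) * h₁ p.1 + tt a b p.2 * h₂ p.1

/-- the Perron family -/
def Fam (a b : ℝ) (h₁ h₂ : ℂ → ℝ) : Set (ℂ × ℂ → ℝ) :=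
  {v | PSHOn (univ ×ˢ ann a b) v ∧ ∀ p ∈ (univ : Set ℂ) ×ˢ ann a b, v p ≤ Wup a b h₁ h₂ p}

/-- the Perron envelope -/
noncomputable def Env (a b : ℝ) (h₁ h₂ : ℂ → ℝ) (p : ℂ × ℂ) : ℝ :=
  sSup ((fun v : ℂ × ℂ → ℝ => v p) '' Fam a b h₁ h₂)
end WG
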