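import Mathlib
open Complex Metric Set Real

namespace WG

open Filter Topology in
theorem deriv_zero_of_flat {F : ℂ → ℂ} {z₀ : ℂ} (hF : DifferentiableAt ℂ F z₀) (h0 : (F z₀).re = 0)
    {C r : ℝ} (hr : 0 < r) (hC : ∀ v : ℂ, ‖v‖ ≤ r → |(F (z₀ + v)).re| ≤ C * ‖v‖ ^ 2) :
    deriv F z₀ = 0 := by
  set c : ℂ := (starRingEnd ℂ) (deriv F z₀) with hc
  have h1 : HasDerivAt (fun t : ℝ => z₀ + (t : ℂ) * c) c 0 := by
    have h2 : HasDerivAt (fun t : ℝ => (t : ℂ)) 1 0 := Complex.ofRealCLM.hasDerivAt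
    have h3 := (h2.mul_const c).const_add z₀
    rw [one_mul] at h3
    exact h3
  have h2 : HasDerivAt (fun t : ℝ => F (z₀ + (t : ℂ) * c)) (deriv F z₀ * c) 0 := by
    have h3 : HasDerivAt F (deriv F z₀) (z₀ + ((0 : ℝ) : ℂ) * c) := by
      simpa using hF.hasDerivAt
    exact h3.comp (0 : ℝ) h1
  have h3 : HasDerivAt (fun t : ℝ => (F (z₀ + (t : ℂ) * c)).re) (deriv F z₀ * c).re 0 :=
    (Complex.reCLM.hasFDerivAt.comp_hasDerivAt (0 : ℝ) h2)
  have h4 : HasDerivAt (fun t : ℝ => (F (z₀ + (t : ℂ) * c)).re) 0 0 := by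
    rw [hasDerivAt_iff_isLittleO]
    have h5 : (fun t : ℝ => (F (z₀ + (t : ℂ) * c)).re - (F (z₀ + ((0 : ℝ) : ℂ) * c)).re
        - (t - 0) • (0 : ℝ)) =O[𝓝 0] (fun t : ℝ => t ^ 2) := by
      apply Asymptotics.IsBigO.of_bound (C * ‖c‖ ^ 2)
      have h6 : ∀ᶠ t : ℝ in 𝓝 0, ‖(t : ℂ) * c‖ < r := by
        have h7 : ContinuousAt (fun t : ℝ => ‖(t : ℂ) * c‖) 0 := by fun_prop
        apply h7.eventually_lt continuousAt_const
        simpa using hr
      filter_upwards [h6] with t ht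
      have h8 := hC _ ht.le
      rw [smul_zero, sub_zero, Complex.ofReal_zero, zero_mul, add_zero, h0, sub_zero,
        Real.norm_eq_abs]
      refine h8.trans (le_of_eq ?_)
      rw [norm_mul, Complex.norm_real, norm_pow, mul_pow]
      ring
    refine h5.trans_isLittleO ?_
    have h9 : (fun t : ℝ => t ^ 2) =o[𝓝 0] (fun t : ℝ => t ^ 1) :=
      Asymptotics.isLittleO_pow_pow (by norm_num)
    simpa using h9
  have h5 : (deriv F z₀ * c).re = 0 := h3.unique h4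
  rw [hc, Complex.mul_conj, Complex.ofReal_re] at h5
  exact Complex.normSq_eq_zero.1 h5

open Filter Topology in
/-- a harmonic function vanishing at 0 whose modulus is O(|v|^2) at each of its zeros vanishes near 0 -/
theorem zero_of_flat_zeros {F : ℂ → ℂ} {w : ℂ → ℝ} {ρ : ℝ} (hρ : 0 < ρ)
    (hF : AnalyticOnNhd ℂ F (ball (0:ℂ) ρ)) (hw : ∀ z ∈ ball (0:ℂ) ρ, (F z).re = w z)
    (h0 : w 0 = 0)
    (hflat : ∀ z₀ ∈ ball (0:ℂ) ρ, w z₀ = 0 → ∃ C > 0, ∃ r > 0, ∀ v : ℂ, ‖v‖ ≤ r → |w (z₀ + v)| ≤ C * ‖v‖ ^ 2) :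
    ∃ r > 0, ∀ z ∈ ball (0:ℂ) r, w z = 0 := by
  have h0mem : (0 : ℂ) ∈ ball (0 : ℂ) ρ := mem_ball_self hρ
  -- the derivative vanishes at all zeros
  have hd : ∀ z₀ ∈ ball (0:ℂ) ρ, w z₀ = 0 → deriv F z₀ = 0 := by
    intro z₀ hz₀ hwz
    obtain ⟨C, _, r, hr, hCr⟩ := hflat z₀ hz₀ hwz
    have hlt : 0 < ρ - ‖z₀‖ := by
      rw [mem_ball_zero_iff] at hz₀
      linarith
    refine deriv_zero_of_flat (C := C) (r := min r ((ρ - ‖z₀‖) / 2)) (hF z₀ hz₀).differentiableAt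
      (by rw [hw z₀ hz₀, hwz]) (by positivity) ?_
    intro v hv
    have h1 : z₀ + v ∈ ball (0 : ℂ) ρ := by
      rw [mem_ball_zero_iff]
      have h2 := norm_add_le z₀ v
      have h3 := hv.trans (min_le_right _ _)
      linarith
    rw [hw _ h1]
    exact hCr v (hv.trans (min_le_left _ _))
  have hFan : AnalyticAt ℂ F 0 := hF 0 h0mem
  rcases hFan.eventually_constant_or_nhds_le_map_nhds with hconst | hopen
  · have h1 : ∀ᶠ z in 𝓝 (0 : ℂ), z ∈ ball (0 : ℂ) ρ := isOpen_ball.mem_nhds h0mem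
    obtain ⟨r, hr, hr'⟩ := Metric.eventually_nhds_iff_ball.1 (hconst.and h1)
    refine ⟨r, hr, fun z hz => ?_⟩
    obtain ⟨h2, h3⟩ := hr' z hz
    rw [← hw z h3, h2, hw 0 h0mem, h0]
  · have hfreq : ∃ᶠ z in 𝓝[≠] (0 : ℂ), deriv F z = 0 := by
      rw [Filter.frequently_iff]
      intro U hU
      obtain ⟨V, hV, hVU⟩ := mem_nhdsWithin_iff_exists_mem_nhds_inter.1 hU
      have hV' : V ∩ ball (0 : ℂ) ρ ∈ 𝓝 (0 : ℂ) := Filter.inter_mem hV (isOpen_ball.mem_nhds h0mem)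
      have h1 : F '' (V ∩ ball (0 : ℂ) ρ) ∈ 𝓝 (F 0) := hopen (Filter.image_mem_map hV')
      obtain ⟨ε, hε, hball⟩ := Metric.mem_nhds_iff.1 h1
      have h2 : F 0 + ((ε / 2 : ℝ) : ℂ) * Complex.I ∈ ball (F 0) ε := by
        rw [mem_ball, dist_eq_norm, add_sub_cancel_left, norm_mul, Complex.norm_I, mul_one,
          Complex.norm_real, Real.norm_eq_abs, abs_of_pos (by positivity)]
        linarith
      obtain ⟨z, ⟨hzV, hzρ⟩, hFz⟩ := hball h2
      have hz0 : z ≠ 0 := by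
        rintro rfl
        have h3 : ((ε / 2 : ℝ) : ℂ) * Complex.I = 0 := by
          have h4 := hFz.symm
          rwa [add_eq_left] at h4
        rw [mul_eq_zero] at h3
        rcases h3 with h3 | h3
        · rw [Complex.ofReal_eq_zero] at h3
          linarith
        · exact Complex.I_ne_zero h3
      refine ⟨z, hVU ⟨hzV, hz0⟩, ?_⟩
      apply hd z hzρ
      rw [← hw z hzρ, hFz, Complex.add_re, hw 0 h0mem, h0]
      simp
    have hev : ∀ᶠ z in 𝓝 (0 : ℂ), deriv F z = 0 :=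
      hFan.deriv.frequently_zero_iff_eventually_zero.1 hfreq
    have h1 : ∀ᶠ z in 𝓝 (0 : ℂ), z ∈ ball (0 : ℂ) ρ := isOpen_ball.mem_nhds h0mem
    obtain ⟨r, hr, hr'⟩ := Metric.eventually_nhds_iff_ball.1 (hev.and h1)
    refine ⟨r, hr, fun z hz => ?_⟩
    have h2 : F z = F 0 := by
      apply isOpen_ball.is_const_of_deriv_eq_zero (convex_ball (0 : ℂ) r).isPreconnected
        (fun y hy => (hF y (hr' y hy).2).differentiableAt.differentiableWithinAt)
        (fun y hy => (hr' y hy).1) hz (mem_ball_self hr)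
    rw [← hw z (hr' z hz).2, h2, hw 0 h0mem, h0]

end WG
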