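import Mathlib
open Complex Metric Set Real

namespace WG

/-- a uniform limit of real parts of polynomials on a closed disc is the real part of an analytic function -/
theorem exists_analytic_of_limit {w : ℂ → ℝ} {ρ : ℝ} (hρ : 0 < ρ)
    (h : ∀ ε > 0, ∃ T : Polynomial ℂ, ∀ z ∈ closedBall (0:ℂ) ρ, |(T.eval z).re - w z| ≤ ε) :
    ∃ F : ℂ → ℂ, AnalyticOnNhd ℂ F (ball (0:ℂ) ρ) ∧ ∀ z ∈ ball (0:ℂ) ρ, (F z).re = w z := by
  choose T hT using fun k : ℕ => h (1 / ((k : ℝ) + 1)) (by positivity)
  set e : ℕ → ℝ := fun k => 1 / ((k : ℝ) + 1) with he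
  have he0 : Filter.Tendsto e Filter.atTop (nhds 0) := tendsto_one_div_add_atTop_nhds_zero_nat
  have hepos : ∀ k, 0 < e k := fun k => by simp only [he]; positivity
  set f : ℕ → ℂ → ℂ := fun k z => (T k).eval z - (T k).eval 0 with hf
  have h0mem : (0:ℂ) ∈ closedBall (0:ℂ) ρ := mem_closedBall_self hρ.le
  have hb : ∀ j k, ∀ z ∈ ball (0:ℂ) ρ, ‖f k z - f j z‖ ≤ 4 * (e k + e j) * (‖z‖ / (ρ - ‖z‖)) := by
    intro j k z hz
    have hB := Complex.borelCaratheodory_zero (f := fun z => f k z - f j z) (M := 2 * (e k + e j)) (R := ρ)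
      (by have := hepos j; have := hepos k; positivity) ?_ ?_ hρ hz (by simp [hf])
    · refine le_trans hB (le_of_eq ?_)
      ring
    · apply Differentiable.differentiableOn
      simp only [hf]
      fun_prop
    · intro x hx
      have hx' := ball_subset_closedBall hx
      have h1 := abs_le.1 (hT k x hx')
      have h2 := abs_le.1 (hT j x hx')
      have h3 := abs_le.1 (hT k 0 h0mem)
      have h4 := abs_le.1 (hT j 0 h0mem)
      show (f k x - f j x).re ≤ 2 * (e k + e j)
      simp only [hf, he, Complex.sub_re]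
      linarith [h1.1, h1.2, h2.1, h2.2, h3.1, h3.2, h4.1, h4.2]
  have hpos : ∀ z ∈ ball (0:ℂ) ρ, 0 ≤ ‖z‖ / (ρ - ‖z‖) := by
    intro z hz
    have := mem_ball_zero_iff.1 hz
    exact div_nonneg (norm_nonneg _) (by linarith)
  have hcau : ∀ z ∈ ball (0:ℂ) ρ, ∃ g : ℂ, Filter.Tendsto (fun k => f k z) Filter.atTop (nhds g) := by
    intro z hz
    apply cauchySeq_tendsto_of_complete
    have hlim : Filter.Tendsto (fun N : ℕ => 8 * e N * (‖z‖ / (ρ - ‖z‖))) Filter.atTop (nhds 0) := by
      have := (he0.const_mul 8).mul_const (‖z‖ / (ρ - ‖z‖))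
      simpa using this
    refine cauchySeq_of_le_tendsto_0 (fun N : ℕ => 8 * e N * (‖z‖ / (ρ - ‖z‖))) ?_ hlim
    intro n m N hn hm
    rw [dist_eq_norm]
    refine le_trans (hb m n z hz) ?_
    apply mul_le_mul_of_nonneg_right _ (hpos z hz)
    have hmono : ∀ a b : ℕ, a ≤ b → e b ≤ e a := by
      intro a b hab
      simp only [he]
      apply one_div_le_one_div_of_le (by positivity)
      have : (a:ℝ) ≤ b := by exact_mod_cast hab
      linarith
    have := hmono N n hn
    have := hmono N m hm
    linarith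
  choose! g hg using hcau
  have hgb : ∀ j, ∀ z ∈ ball (0:ℂ) ρ, ‖g z - f j z‖ ≤ 4 * e j * (‖z‖ / (ρ - ‖z‖)) := by
    intro j z hz
    have h1 : Filter.Tendsto (fun k => ‖f k z - f j z‖) Filter.atTop (nhds ‖g z - f j z‖) :=
      ((hg z hz).sub_const _).norm
    have h2 : Filter.Tendsto (fun k => 4 * (e k + e j) * (‖z‖ / (ρ - ‖z‖))) Filter.atTop
        (nhds (4 * (0 + e j) * (‖z‖ / (ρ - ‖z‖)))) :=
      ((he0.add_const (e j)).const_mul 4).mul_const _
    have := le_of_tendsto_of_tendsto' h1 h2 (fun k => hb j k z hz)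
    simpa using this
  have hloc : TendstoLocallyUniformlyOn f g Filter.atTop (ball (0:ℂ) ρ) := by
    rw [Metric.tendstoLocallyUniformlyOn_iff]
    intro ε hε x hx
    have hxr := mem_ball_zero_iff.1 hx
    set r := (‖x‖ + ρ) / 2 with hr
    have hxr' : ‖x‖ < r := by rw [hr]; linarith
    have hrρ : r < ρ := by rw [hr]; linarith
    refine ⟨ball 0 r, ?_, ?_⟩
    · apply mem_nhdsWithin_of_mem_nhds
      exact isOpen_ball.mem_nhds (mem_ball_zero_iff.2 hxr')
    · have hr0 : 0 < r := lt_of_le_of_lt (norm_nonneg _) hxr'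
      have hlim : Filter.Tendsto (fun N : ℕ => 4 * e N * (r / (ρ - r))) Filter.atTop (nhds 0) := by
        have := (he0.const_mul 4).mul_const (r / (ρ - r))
        simpa using this
      filter_upwards [hlim.eventually (gt_mem_nhds hε)] with n hn
      intro y hy
      have hyr := mem_ball_zero_iff.1 hy
      rw [dist_eq_norm]
      refine lt_of_le_of_lt (hgb n y (mem_ball_zero_iff.2 (by linarith))) ?_
      refine lt_of_le_of_lt ?_ hn
      apply mul_le_mul_of_nonneg_left _ (by have := hepos n; positivity)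
      apply div_le_div₀ hr0.le hyr.le (by linarith) (by linarith)
  have hdiff : DifferentiableOn ℂ g (ball (0:ℂ) ρ) := by
    apply hloc.differentiableOn _ isOpen_ball
    apply Filter.Eventually.of_forall
    intro n
    apply Differentiable.differentiableOn
    simp only [hf]
    fun_prop
  refine ⟨fun z => g z + (w 0 : ℂ), ?_, ?_⟩
  · apply DifferentiableOn.analyticOnNhd _ isOpen_ball
    exact hdiff.add_const _
  · intro z hz
    have hz' := ball_subset_closedBall hz
    have hw : ∀ y ∈ closedBall (0:ℂ) ρ, Filter.Tendsto (fun k => ((T k).eval y).re) Filter.atTop (nhds (w y)) := by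
      intro y hy
      rw [tendsto_iff_dist_tendsto_zero]
      refine squeeze_zero (fun k => dist_nonneg) (fun k => ?_) he0
      rw [Real.dist_eq]
      exact hT k y hy
    have h1 : Filter.Tendsto (fun k => (f k z).re) Filter.atTop (nhds (g z).re) :=
      (Complex.continuous_re.tendsto _).comp (hg z hz)
    have h2 : Filter.Tendsto (fun k => (f k z).re) Filter.atTop (nhds (w z - w 0)) := by
      have := (hw z hz').sub (hw 0 h0mem)
      simpa [hf] using this
    have h3 := tendsto_nhds_unique h1 h2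
    show (g z + (w 0 : ℂ)).re = w z
    rw [Complex.add_re, h3, Complex.ofReal_re]
    ring

end WG
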