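import Mathlib
open Complex Metric Set Real

namespace WG

theorem core_dslope {G : ℂ → ℂ} {ρ : ℝ} (hρ : 0 < ρ) (hG : DifferentiableOn ℂ G (ball (0:ℂ) ρ))
    (h0 : G 0 = 0) (hd : deriv G 0 = 0) :
    ∃ g : ℂ → ℂ, DifferentiableOn ℂ g (ball (0:ℂ) ρ) ∧ ∀ z, G z = z ^ 2 * g z := by
  have hn : ball (0:ℂ) ρ ∈ nhds (0:ℂ) := ball_mem_nhds _ hρ
  refine ⟨dslope (dslope G 0) 0, ?_, ?_⟩
  · rw [Complex.differentiableOn_dslope hn, Complex.differentiableOn_dslope hn]
    exact hG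
  · intro z
    have h1 := sub_smul_dslope G 0 z
    have h2 := sub_smul_dslope (dslope G 0) 0 z
    rw [dslope_same, hd] at h2
    simp only [sub_zero, smul_eq_mul, h0] at h1 h2
    rw [← h1, ← h2]
    ring

theorem deriv_even {G : ℂ → ℂ} (h : ∀ z, G (-z) = G z) : deriv G 0 = 0 := by
  have h1 : deriv (fun z => G (-z)) 0 = -deriv G (-0) := deriv_comp_neg G 0
  have h2 : (fun z => G (-z)) = G := funext h
  rw [h2, neg_zero] at h1
  have h3 : (2 : ℂ) * deriv G 0 = 0 := by linear_combination h1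
  simpa using h3

/-- Schwarz lemma of order two for even functions with bounded real part -/
theorem even_quadratic {F : ℂ → ℂ} {w : ℂ → ℝ} {ρ M : ℝ} (hρ : 0 < ρ) (hM : 0 ≤ M)
    (hF : AnalyticOnNhd ℂ F (ball (0:ℂ) ρ)) (hw : ∀ z ∈ ball (0:ℂ) ρ, (F z).re = w z)
    (hbd : ∀ z ∈ ball (0:ℂ) ρ, |w z| ≤ M) (heven : ∀ z ∈ ball (0:ℂ) ρ, w (-z) = w z) :
    ∀ z ∈ closedBall (0:ℂ) (ρ / 2), |w z - w 0| ≤ 100 * M / ρ ^ 2 * ‖z‖ ^ 2 := by
  intro z hz
  have hz' : ‖z‖ ≤ ρ / 2 := by simpa using hz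
  have hzb : z ∈ ball (0:ℂ) ρ := by
    rw [mem_ball_zero_iff]; linarith
  have h0b : (0:ℂ) ∈ ball (0:ℂ) ρ := mem_ball_self hρ
  rcases hM.eq_or_lt with hM0 | hMpos
  · have a1 := hbd z hzb
    have a2 := hbd 0 h0b
    rw [← hM0] at a1 a2
    have b1 : w z = 0 := abs_eq_zero.1 (le_antisymm a1 (abs_nonneg _))
    have b2 : w 0 = 0 := abs_eq_zero.1 (le_antisymm a2 (abs_nonneg _))
    rw [b1, b2, ← hM0]
    simp
  · set F1 : ℂ → ℂ := fun z => (F z + F (-z)) / 2 with hF1
    have hFd : DifferentiableOn ℂ F (ball (0:ℂ) ρ) := hF.differentiableOn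
    have hF1d : DifferentiableOn ℂ F1 (ball (0:ℂ) ρ) := by
      have h2 : DifferentiableOn ℂ (fun z => F (-z)) (ball (0:ℂ) ρ) :=
        hFd.comp (by fun_prop) (fun x hx => by simpa using hx)
      exact (hFd.add h2).div_const 2
    have hF1re : ∀ x ∈ ball (0:ℂ) ρ, (F1 x).re = w x := by
      intro x hx
      have hnx : -x ∈ ball (0:ℂ) ρ := by simpa using hx
      have e1 : (F1 x).re = ((F x).re + (F (-x)).re) / 2 := by
        rw [hF1]
        simp only
        rw [show (F x + F (-x)) / 2 = (F x + F (-x)) / ((2:ℝ):ℂ) by push_cast; rfl,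
          Complex.div_ofReal_re, Complex.add_re]
      rw [e1, hw x hx, hw _ hnx, heven x hx]
      ring
    have hF1e : ∀ x, F1 (-x) = F1 x := by
      intro x
      simp only [hF1, neg_neg]
      ring
    set G : ℂ → ℂ := fun x => F1 x - F1 0 with hG
    have hGd : DifferentiableOn ℂ G (ball (0:ℂ) ρ) := hF1d.sub_const _
    have hG0 : G 0 = 0 := by simp [hG]
    have hGe : ∀ x, G (-x) = G x := fun x => by simp only [hG, hF1e]
    obtain ⟨g, hgd, hg⟩ := core_dslope hρ hGd hG0 (deriv_even hGe)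
    have hGre : ∀ x ∈ ball (0:ℂ) ρ, (G x).re = w x - w 0 := by
      intro x hx
      simp only [hG, Complex.sub_re]
      rw [hF1re x hx, hF1re 0 h0b]
    have hmaps : Set.MapsTo G (ball (0:ℂ) ρ) {z | z.re ≤ 3 * M} := by
      intro x hx
      show (G x).re ≤ 3 * M
      rw [hGre x hx]
      have a1 := abs_le.1 (hbd x hx)
      have a2 := abs_le.1 (hbd 0 h0b)
      linarith
    set r : ℝ := 3 * ρ / 4 with hr
    have hrpos : 0 < r := by positivity
    have hrlt : r < ρ := by rw [hr]; linarith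
    have hsph : ∀ x ∈ sphere (0:ℂ) r, ‖g x‖ ≤ 18 * M / r ^ 2 := by
      intro x hx
      have hxn : ‖x‖ = r := by simpa using hx
      have hxb : x ∈ ball (0:ℂ) ρ := by rw [mem_ball_zero_iff, hxn]; exact hrlt
      have h1 := borelCaratheodory_zero (by positivity : (0:ℝ) < 3 * M) hGd hmaps hρ hxb hG0
      rw [hxn, hg x, norm_mul, norm_pow, hxn] at h1
      have h2 : 2 * (3 * M) * r / (ρ - r) = 18 * M := by
        rw [hr]
        field_simp
        ring
      rw [h2] at h1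
      rw [le_div_iff₀ (by positivity)]
      linarith
    have hcl : ∀ x ∈ closedBall (0:ℂ) r, ‖g x‖ ≤ 18 * M / r ^ 2 := by
      intro x hx
      have hcont : DiffContOnCl ℂ g (ball (0:ℂ) r) := by
        apply DifferentiableOn.diffContOnCl
        rw [closure_ball _ hrpos.ne']
        exact hgd.mono (closedBall_subset_ball hrlt)
      refine Complex.norm_le_of_forall_mem_frontier_norm_le isBounded_ball hcont ?_ ?_
      · intro y hy
        rw [frontier_ball _ hrpos.ne'] at hy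
        exact hsph y hy
      · rw [closure_ball _ hrpos.ne']
        exact hx
    have hzr : z ∈ closedBall (0:ℂ) r := by
      rw [mem_closedBall_zero_iff, hr]; linarith
    have h3 : |w z - w 0| ≤ ‖G z‖ := by
      rw [← hGre z hzb]
      exact Complex.abs_re_le_norm _
    rw [hg z, norm_mul, norm_pow] at h3
    have h4 := hcl z hzr
    calc |w z - w 0| ≤ ‖z‖ ^ 2 * ‖g z‖ := h3
      _ ≤ ‖z‖ ^ 2 * (18 * M / r ^ 2) := by gcongr
      _ = 32 * M / ρ ^ 2 * ‖z‖ ^ 2 := by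
          rw [hr]; field_simp; ring
      _ ≤ 100 * M / ρ ^ 2 * ‖z‖ ^ 2 := by
          gcongr
          norm_num

/-- with fourfold symmetry the quadratic term vanishes -/
theorem fourfold_little {F : ℂ → ℂ} {w : ℂ → ℝ} {ρ : ℝ} (hρ : 0 < ρ)
    (hF : AnalyticOnNhd ℂ F (ball (0:ℂ) ρ)) (hw : ∀ z ∈ ball (0:ℂ) ρ, (F z).re = w z)
    (h4 : ∀ z ∈ ball (0:ℂ) ρ, w (I * z) = w z) {ε : ℝ} (hε : 0 < ε) :
    ∃ r > 0, ∀ z ∈ closedBall (0:ℂ) r, |w z - w 0| ≤ ε * ‖z‖ ^ 2 := by
  have h0b : (0:ℂ) ∈ ball (0:ℂ) ρ := mem_ball_self hρ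
  have hI : ∀ x ∈ ball (0:ℂ) ρ, I * x ∈ ball (0:ℂ) ρ := by
    intro x hx
    rw [mem_ball_zero_iff] at hx ⊢
    rwa [norm_mul, Complex.norm_I, one_mul]
  set F1 : ℂ → ℂ := fun z => (F z + F (I * z) + F (I * (I * z)) + F (I * (I * (I * z)))) / 4 with hF1
  have hFd : DifferentiableOn ℂ F (ball (0:ℂ) ρ) := hF.differentiableOn
  have hF1d : DifferentiableOn ℂ F1 (ball (0:ℂ) ρ) := by
    have d1 : DifferentiableOn ℂ (fun z => F (I * z)) (ball (0:ℂ) ρ) :=
      hFd.comp (by fun_prop) (fun x hx => hI x hx)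
    have d2 : DifferentiableOn ℂ (fun z => F (I * (I * z))) (ball (0:ℂ) ρ) :=
      hFd.comp (by fun_prop) (fun x hx => hI _ (hI x hx))
    have d3 : DifferentiableOn ℂ (fun z => F (I * (I * (I * z)))) (ball (0:ℂ) ρ) :=
      hFd.comp (by fun_prop) (fun x hx => hI _ (hI _ (hI x hx)))
    exact (((hFd.add d1).add d2).add d3).div_const 4
  have hF1re : ∀ x ∈ ball (0:ℂ) ρ, (F1 x).re = w x := by
    intro x hx
    have e1 : (F1 x).re = ((F x).re + (F (I * x)).re + (F (I * (I * x))).re +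
        (F (I * (I * (I * x)))).re) / 4 := by
      rw [hF1]
      simp only
      rw [show ((4:ℂ)) = ((4:ℝ):ℂ) by push_cast; rfl,
        Complex.div_ofReal_re, Complex.add_re, Complex.add_re, Complex.add_re]
    rw [e1, hw x hx, hw _ (hI x hx), hw _ (hI _ (hI x hx)), hw _ (hI _ (hI _ (hI x hx))),
      h4 _ (hI _ (hI x hx)), h4 _ (hI x hx), h4 x hx]
    ring
  have hII : ∀ x : ℂ, I * (I * (I * (I * x))) = x := by
    intro x
    have : I * (I * (I * (I * x))) = (I * I) * (I * I) * x := by ring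
    rw [this, Complex.I_mul_I]
    ring
  have hF1i : ∀ x, F1 (I * x) = F1 x := by
    intro x
    simp only [hF1]
    rw [hII]
    ring
  set G : ℂ → ℂ := fun x => F1 x - F1 0 with hG
  have hGd : DifferentiableOn ℂ G (ball (0:ℂ) ρ) := hF1d.sub_const _
  have hG0 : G 0 = 0 := by simp [hG]
  have hGi : ∀ x, G (I * x) = G x := fun x => by simp only [hG, hF1i]
  have hGe : ∀ x, G (-x) = G x := by
    intro x
    have : -x = I * (I * x) := by
      rw [← mul_assoc, Complex.I_mul_I]; ring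
    rw [this, hGi, hGi]
  obtain ⟨g, hgd, hg⟩ := core_dslope hρ hGd hG0 (deriv_even hGe)
  have hGre : ∀ x ∈ ball (0:ℂ) ρ, (G x).re = w x - w 0 := by
    intro x hx
    simp only [hG, Complex.sub_re]
    rw [hF1re x hx, hF1re 0 h0b]
  have hgc : ContinuousAt g 0 :=
    (hgd.differentiableAt (ball_mem_nhds _ hρ)).continuousAt
  have hgI : ∀ x, x ≠ 0 → g (I * x) + g x = 0 := by
    intro x hx
    have h1 := hGi x
    rw [hg, hg] at h1
    have h2 : (I * x) ^ 2 = - x ^ 2 := by rw [mul_pow, Complex.I_sq]; ring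
    rw [h2] at h1
    have h3 : x ^ 2 * (g (I * x) + g x) = 0 := by linear_combination -h1
    rcases mul_eq_zero.1 h3 with h | h
    · exact absurd (pow_eq_zero_iff (two_ne_zero) |>.1 h) hx
    · exact h
  have hg0 : g 0 = 0 := by
    have t1 : Filter.Tendsto (fun x => g (I * x) + g x) (nhdsWithin 0 {0}ᶜ) (nhds (g 0 + g 0)) := by
      have c1 : ContinuousAt (fun x => g (I * x)) 0 := by
        apply ContinuousAt.comp' _ (by fun_prop)
        simpa using hgc
      have c2 : ContinuousAt (fun x => g (I * x) + g x) 0 := c1.add hgc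
      have := c2.tendsto
      simp only [mul_zero] at this
      exact this.mono_left nhdsWithin_le_nhds
    have t2 : Filter.Tendsto (fun x => g (I * x) + g x) (nhdsWithin 0 {0}ᶜ) (nhds 0) := by
      apply tendsto_const_nhds.congr'
      filter_upwards [self_mem_nhdsWithin] with x hx
      exact (hgI x hx).symm
    have h := tendsto_nhds_unique t1 t2
    have h2 : (2:ℂ) * g 0 = 0 := by linear_combination h
    simpa using h2
  have hsmall : ∀ᶠ x in nhds (0:ℂ), ‖g x‖ < ε := by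
    have : Filter.Tendsto (fun x => ‖g x‖) (nhds 0) (nhds ‖g 0‖) := hgc.norm
    rw [hg0, norm_zero] at this
    exact this.eventually (gt_mem_nhds hε)
  obtain ⟨δ, hδ, hδ'⟩ := Metric.eventually_nhds_iff_ball.1 hsmall
  refine ⟨min (δ / 2) (ρ / 2), by positivity, fun z hz => ?_⟩
  have hzn : ‖z‖ ≤ min (δ / 2) (ρ / 2) := by simpa using hz
  have hz1 : ‖z‖ < δ := lt_of_le_of_lt (hzn.trans (min_le_left _ _)) (by linarith)
  have hz2 : ‖z‖ < ρ := lt_of_le_of_lt (hzn.trans (min_le_right _ _)) (by linarith)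
  have h3 : |w z - w 0| ≤ ‖G z‖ := by
    rw [← hGre z (mem_ball_zero_iff.2 hz2)]
    exact Complex.abs_re_le_norm _
  rw [hg z, norm_mul, norm_pow] at h3
  have h5 := (hδ' z (mem_ball_zero_iff.2 hz1)).le
  calc |w z - w 0| ≤ ‖z‖ ^ 2 * ‖g z‖ := h3
    _ ≤ ‖z‖ ^ 2 * ε := by gcongr
    _ = ε * ‖z‖ ^ 2 := mul_comm _ _

end WG
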