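import Pool.Agent.Helper853.WG.Har
import Pool.Agent.Helper853.WG.LimAn
import Pool.Agent.Helper853.WG.Quad
import Pool.Agent.Helper853.WG.Flat

set_option autoImplicit false

open Complex Metric Set Real MeasureTheory

namespace WG

/-- the shifted Legendre transform -/
noncomputable def not_strictlyPositive_G (u : ℂ → ℝ → ℝ) (l : ℝ) (z : ℂ) : ℝ := psi u l z + l / 2

theorem not_strictlyPositive_le {u : ℂ → ℝ → ℝ} (hu : Geo u) (l : ℝ) (z : ℂ) :
    not_strictlyPositive_G u l z ≤ u z (1 / 2) := by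
  have := psi_le hu l z (t := 1 / 2) ⟨by norm_num, by norm_num⟩
  unfold not_strictlyPositive_G
  linarith

theorem not_strictlyPositive_att {u : ℂ → ℝ → ℝ} (hu : Geo u) (z : ℂ) :
    ∃ l, not_strictlyPositive_G u l z = u z (1 / 2) := by
  obtain ⟨l, hl⟩ := exists_support (hu.convex z)
  obtain ⟨t, ht, he⟩ := exists_psi hu l z
  refine ⟨l, le_antisymm (not_strictlyPositive_le hu l z) ?_⟩
  have := hl t ht
  unfold not_strictlyPositive_G
  rw [he]
  linarith

theorem not_strictlyPositive_conc {u : ℂ → ℝ → ℝ} (hu : Geo u) (z : ℂ) :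
    ConcaveOn ℝ univ (fun l => not_strictlyPositive_G u l z) := by
  refine ⟨convex_univ, ?_⟩
  intro x _ y _ a b ha hb hab
  obtain ⟨t, ht, he⟩ := exists_psi hu (a • x + b • y) z
  have h1 := psi_le hu x z ht
  have h2 := psi_le hu y z ht
  unfold not_strictlyPositive_G
  simp only [smul_eq_mul] at he ⊢
  rw [he]
  have h3 := mul_le_mul_of_nonneg_left h1 ha
  have h4 := mul_le_mul_of_nonneg_left h2 hb
  have h5 : u z t = a * u z t + b * u z t := by rw [← add_mul, hab, one_mul]
  rw [h5]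
  linarith

theorem not_strictlyPositive_lip1 {u : ℂ → ℝ → ℝ} (hu : Geo u) (l m : ℝ) (z : ℂ) :
    psi u l z - psi u m z ≤ |l - m| := by
  obtain ⟨t, ht, he⟩ := exists_psi hu m z
  have h1 := psi_le hu l z ht
  rw [he]
  have h2 : (m - l) * t ≤ |l - m| * 1 := by
    have h3 : (m - l) ≤ |l - m| := by rw [abs_sub_comm]; exact le_abs_self _
    have h4 : (m - l) * t ≤ |l - m| * t := mul_le_mul_of_nonneg_right h3 ht.1
    have h5 : |l - m| * t ≤ |l - m| * 1 := mul_le_mul_of_nonneg_left ht.2 (abs_nonneg _)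
    linarith
  linarith

theorem not_strictlyPositive_lip {u : ℂ → ℝ → ℝ} (hu : Geo u) (l m : ℝ) (z : ℂ) :
    |psi u l z - psi u m z| ≤ |l - m| := by
  rw [abs_le]
  constructor
  · have := not_strictlyPositive_lip1 hu m l z
    rw [abs_sub_comm] at this
    linarith
  · exact not_strictlyPositive_lip1 hu l m z

theorem not_strictlyPositive_symm {u : ℂ → ℝ → ℝ} {h : ℂ → ℝ} (hd : GData u h) (l : ℝ) (z : ℂ) :
    not_strictlyPositive_G u (-l) (I * z) = not_strictlyPositive_G u l z := by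
  have hu := hd.toGeo
  unfold not_strictlyPositive_G
  apply le_antisymm
  · obtain ⟨t, ht, he⟩ := exists_psi hu l z
    have ht' : 1 - t ∈ Icc (0:ℝ) 1 := ⟨by linarith [ht.2], by linarith [ht.1]⟩
    have h1 := psi_le hu (-l) (I * z) ht'
    rw [hd.symm z t ht] at h1
    rw [he]
    linarith
  · obtain ⟨t, ht, he⟩ := exists_psi hu (-l) (I * z)
    have ht' : 1 - t ∈ Icc (0:ℝ) 1 := ⟨by linarith [ht.2], by linarith [ht.1]⟩
    have h1 := psi_le hu l z ht'
    have h2 := hd.symm z (1 - t) ht'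
    rw [sub_sub_cancel] at h2
    rw [← h2] at h1
    rw [he]
    linarith

theorem not_strictlyPositive_even {u : ℂ → ℝ → ℝ} {h : ℂ → ℝ} (hd : GData u h) (l : ℝ) (z : ℂ) :
    not_strictlyPositive_G u l (-z) = not_strictlyPositive_G u l z := by
  have h1 := not_strictlyPositive_symm hd (-l) (I * z)
  rw [neg_neg, ← mul_assoc, I_mul_I, neg_one_mul] at h1
  rw [h1, not_strictlyPositive_symm hd l z]

theorem not_strictlyPositive_c1 {g : ℝ → ℝ} (hg : ConcaveOn ℝ univ g) {d : ℝ} (hd : 0 < d)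
    (h : g 0 ≤ g (-d)) {l : ℝ} (hl : 0 ≤ l) : g l ≤ g 0 := by
  have hld : 0 < l + d := by linarith
  have h1 := hg.2 (mem_univ l) (mem_univ (-d)) (show (0:ℝ) ≤ d / (l + d) by positivity)
    (show (0:ℝ) ≤ l / (l + d) by positivity)
    (by rw [← add_div, add_comm d l, div_self hld.ne'])
  have e : (d / (l + d)) • l + (l / (l + d)) • (-d) = 0 := by
    simp only [smul_eq_mul]
    field_simp
    ring
  rw [e] at h1
  simp only [smul_eq_mul] at h1
  have h2 : l / (l + d) * g 0 ≤ l / (l + d) * g (-d) := mul_le_mul_of_nonneg_left h (by positivity)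
  have h3 : g 0 = d / (l + d) * g 0 + l / (l + d) * g 0 := by
    rw [← add_mul, ← add_div, add_comm d l, div_self hld.ne', one_mul]
  have h4 : d / (l + d) * g l ≤ d / (l + d) * g 0 := by linarith
  exact le_of_mul_le_mul_left h4 (by positivity)

theorem not_strictlyPositive_neg {g : ℝ → ℝ} (hg : ConcaveOn ℝ univ g) :
    ConcaveOn ℝ univ (fun l => g (-l)) := by
  refine ⟨convex_univ, ?_⟩
  intro x _ y _ a b ha hb hab
  have h1 := hg.2 (mem_univ (-x)) (mem_univ (-y)) ha hb hab
  have e : a • (-x) + b • (-y) = -(a • x + b • y) := by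
    simp only [smul_eq_mul]; ring
  rw [e] at h1
  exact h1

theorem not_strictlyPositive_c {g : ℝ → ℝ} (hg : ConcaveOn ℝ univ g) {d : ℝ} (hd : 0 < d)
    (h : g 0 ≤ g (-d)) (h' : g 0 ≤ g d) (l : ℝ) : g l ≤ g 0 := by
  rcases le_total 0 l with hl | hl
  · exact not_strictlyPositive_c1 hg hd h hl
  · have := not_strictlyPositive_c1 (not_strictlyPositive_neg hg) hd (l := -l)
      (by simpa using h') (by linarith)
    simpa using this

theorem not_strictlyPositive_c2 {g : ℝ → ℝ} (hg : ConcaveOn ℝ univ g) {d : ℝ} (hd : 0 < d)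
    (h : g d < g 0) {l : ℝ} (hl : g 0 ≤ g l) : l ≤ d := by
  by_contra hc
  push Not at hc
  have hl0 : 0 < l := by linarith
  have h1 := hg.2 (mem_univ l) (mem_univ 0) (show (0:ℝ) ≤ d / l by positivity)
    (show (0:ℝ) ≤ 1 - d / l by
      have : d / l ≤ 1 := by rw [div_le_one hl0]; linarith
      linarith) (by ring)
  have e : (d / l) • l + (1 - d / l) • (0:ℝ) = d := by
    simp only [smul_eq_mul]
    field_simp
    ring
  rw [e] at h1
  simp only [smul_eq_mul] at h1
  have h2 : d / l * g 0 ≤ d / l * g l := mul_le_mul_of_nonneg_left hl (by positivity)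
  linarith

theorem not_strictlyPositive_avg {u : ℂ → ℝ → ℝ} {h : ℂ → ℝ} (hd : GData u h) {ε r : ℝ} (hε : 0 < ε)
    (hr : 0 < r)
    (hp : u 0 (1 / 2) - ε * ‖(0:ℂ)‖ ^ 2 ≤ circleAverage (fun w => u w (1 / 2) - ε * ‖w‖ ^ 2) 0 r)
    (hU : circleAverage (fun w => u w (1 / 2)) 0 r ≤ u 0 (1 / 2) + ε / 2 * r ^ 2) : False := by
  have hc : Continuous (fun w => u w (1 / 2)) := hd.cont.comp (continuous_id.prodMk continuous_const)
  have hc2 : Continuous (fun w : ℂ => ε * ‖w‖ ^ 2) := by fun_prop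
  rw [circleAverage_sub' hr.le hc.continuousOn hc2.continuousOn] at hp
  have h1 : ε * r ^ 2 ≤ circleAverage (fun w : ℂ => ε * ‖w‖ ^ 2) 0 r := by
    rw [← circleAverage_const' (ε * r ^ 2) 0 r]
    apply circleAverage_mono' hr.le continuousOn_const hc2.continuousOn
    intro z hz
    have : ‖z‖ = r := by simpa using hz
    rw [this]
  have h2 : 0 < ε * r ^ 2 := by positivity
  simp at hp
  linarith

/-- second differences of an analytic function -/
theorem not_strictlyPositive_taylor {F : ℂ → ℂ} {z₀ : ℂ} (hF : AnalyticAt ℂ F z₀) :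
    ∃ C > 0, ∃ r > 0, ∀ v : ℂ, ‖v‖ ≤ r → ‖F (z₀ + v) + F (z₀ - v) - 2 * F z₀‖ ≤ C * ‖v‖ ^ 2 := by
  obtain ⟨p, hp⟩ := hF
  obtain ⟨C, hC⟩ := (hp.isBigO_sub_partialSum_pow 2).bound
  obtain ⟨r, hr, hball⟩ := Metric.eventually_nhds_iff_ball.1 hC
  refine ⟨2 * |C| + 1, by positivity, r / 2, by positivity, ?_⟩
  intro v hv
  have hv1 : v ∈ ball (0:ℂ) r := by simp; linarith
  have hv2 : -v ∈ ball (0:ℂ) r := by simp; linarith
  have h1 := hball v hv1
  have h2 := hball (-v) hv2
  have e : ∀ y : ℂ, p.partialSum 2 y = F z₀ + p 1 (fun _ => y) := by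
    intro y
    unfold FormalMultilinearSeries.partialSum
    rw [Finset.sum_range_succ, Finset.sum_range_one, hp.coeff_zero]
  have e1 : p 1 (fun _ => -v) = - p 1 (fun _ => v) := by
    simp
  rw [e] at h1 h2
  rw [e1] at h2
  have e2 : F (z₀ + v) + F (z₀ - v) - 2 * F z₀ = (F (z₀ + v) - (F z₀ + p 1 (fun _ => v))) +
      (F (z₀ + -v) - (F z₀ + -p 1 (fun _ => v))) := by
    rw [← sub_eq_add_neg]; ring
  rw [e2]
  refine le_trans (norm_add_le _ _) ?_
  have h3 : C * ‖‖v‖ ^ 2‖ ≤ |C| * ‖v‖ ^ 2 := by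
    rw [Real.norm_of_nonneg (by positivity)]
    exact mul_le_mul_of_nonneg_right (le_abs_self C) (by positivity)
  rw [norm_neg] at h2
  have h4 : 0 ≤ ‖v‖ ^ 2 := by positivity
  linarith

theorem not_strictlyPositive_harm {F : ℂ → ℂ} {w : ℂ → ℝ} {ρ r : ℝ}
    (hF : AnalyticOnNhd ℂ F (ball (0:ℂ) ρ)) (hw : ∀ z ∈ ball (0:ℂ) ρ, (F z).re = w z) (hr : 0 < r)
    (hrρ : r < ρ) : circleAverage w 0 r = w 0 := by
  have hsub : closedBall (0:ℂ) r ⊆ ball 0 ρ := closedBall_subset_ball hrρ
  have h1 := re_circleAverage hr.le (hF.mono hsub)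
  rw [hw 0 (by simp; linarith)] at h1
  rw [← h1]
  apply circleAverage_congr_sphere
  intro z hz
  rw [abs_of_pos hr] at hz
  exact (hw z (hsub (sphere_subset_closedBall hz))).symm

theorem not_strictlyPositive_cont {u : ℂ → ℝ → ℝ} (hu : Geo u) (l : ℝ) :
    Continuous (fun z => not_strictlyPositive_G u l z) := by
  unfold not_strictlyPositive_G
  exact (psi_discSub hu l).1.add continuous_const

theorem not_strictlyPositive_mid {u : ℂ → ℝ → ℝ} (hu : Geo u) (d : ℝ) (z : ℂ) :
    (not_strictlyPositive_G u d z + not_strictlyPositive_G u (-d) z) / 2 ≤ not_strictlyPositive_G u 0 z := by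
  have h1 := (not_strictlyPositive_conc hu z).2 (mem_univ d) (mem_univ (-d))
    (show (0:ℝ) ≤ 1 / 2 by norm_num) (show (0:ℝ) ≤ 1 / 2 by norm_num) (by norm_num)
  have e : (1 / 2 : ℝ) • d + (1 / 2 : ℝ) • (-d) = 0 := by simp
  rw [e] at h1
  simp only [smul_eq_mul] at h1
  linarith

theorem not_strictlyPositive_max {u : ℂ → ℝ → ℝ} (hu : Geo u) {d : ℝ} (hd : 0 < d) (z : ℂ)
    (h : not_strictlyPositive_G u 0 z ≤ not_strictlyPositive_G u (-d) z) (h' : not_strictlyPositive_G u 0 z ≤ not_strictlyPositive_G u d z) : u z (1 / 2) = not_strictlyPositive_G u 0 z := by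
  obtain ⟨l, hl⟩ := not_strictlyPositive_att hu z
  apply le_antisymm
  · rw [← hl]
    exact not_strictlyPositive_c (not_strictlyPositive_conc hu z) hd h h' l
  · exact not_strictlyPositive_le hu 0 z

theorem not_strictlyPositive_B {u : ℂ → ℝ → ℝ} {h : ℂ → ℝ} (hd : GData u h) {ρ d : ℝ} (hρ : 0 < ρ)
    (hd0 : 0 < d) {F0 Fp Fm : ℂ → ℂ} (hF0 : AnalyticOnNhd ℂ F0 (ball 0 ρ))
    (hw0 : ∀ z ∈ ball (0:ℂ) ρ, (F0 z).re = psi u 0 z) (hFp : AnalyticOnNhd ℂ Fp (ball 0 ρ))
    (hwp : ∀ z ∈ ball (0:ℂ) ρ, (Fp z).re = psi u d z) (hFm : AnalyticOnNhd ℂ Fm (ball 0 ρ))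
    (hwm : ∀ z ∈ ball (0:ℂ) ρ, (Fm z).re = psi u (-d) z) (heq : not_strictlyPositive_G u d 0 = not_strictlyPositive_G u 0 0) :
    ∃ r > 0, ∀ z ∈ ball (0:ℂ) r, u z (1 / 2) = not_strictlyPositive_G u 0 z := by
  have hu := hd.toGeo
  have hm : not_strictlyPositive_G u (-d) 0 = not_strictlyPositive_G u 0 0 := by
    have := not_strictlyPositive_symm hd d 0
    rw [mul_zero] at this
    rw [this, heq]
  have hP : ∀ z ∈ ball (0:ℂ) ρ, (not_strictlyPositive_G u d z + not_strictlyPositive_G u (-d) z) / 2 = not_strictlyPositive_G u 0 z := by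
    intro z hz
    rcases eq_or_ne z 0 with rfl | hz0
    · rw [heq, hm]; ring
    · have hr : 0 < ‖z‖ := norm_pos_iff.2 hz0
      have hrρ : ‖z‖ < ρ := by simpa using hz
      have hcont : Continuous (fun z => (not_strictlyPositive_G u d z + not_strictlyPositive_G u (-d) z) / 2 - not_strictlyPositive_G u 0 z) :=
        (((not_strictlyPositive_cont hu d).add (not_strictlyPositive_cont hu (-d))).div_const 2).sub
          (not_strictlyPositive_cont hu 0)
      have havg := not_strictlyPositive_harm (F := fun z => (Fp z + Fm z) / 2 - F0 z)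
        (w := fun z => (not_strictlyPositive_G u d z + not_strictlyPositive_G u (-d) z) / 2 - not_strictlyPositive_G u 0 z) (ρ := ρ) (r := ‖z‖)
        (fun z hz => ((hFp z hz).add (hFm z hz)).div_const.sub (hF0 z hz))
        (by
          intro z hz
          have e1 : ((Fp z + Fm z) / 2 - F0 z).re = ((Fp z).re + (Fm z).re) / 2 - (F0 z).re := by
            rw [sub_re, div_ofNat_re, add_re]
          rw [e1, hwp z hz, hwm z hz, hw0 z hz]
          unfold not_strictlyPositive_G
          ring) hr hrρ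
      have := eq_of_le_circleAverage (M := 0) hr hcont.continuousOn
        (fun w _ => by linarith [not_strictlyPositive_mid hu d w])
        (by rw [havg, heq, hm]; linarith) z (by simp)
      beta_reduce at this
      linarith
  obtain ⟨r, hr, hk⟩ := zero_of_flat_zeros (F := fun z => Fp z - F0 z + ((d / 2 : ℝ) : ℂ))
    (w := fun z => not_strictlyPositive_G u d z - not_strictlyPositive_G u 0 z) hρ
    (fun z hz => ((hFp z hz).sub (hF0 z hz)).add analyticAt_const)
    (by
      intro z hz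
      rw [add_re, sub_re, hwp z hz, hw0 z hz, ofReal_re]
      unfold not_strictlyPositive_G
      ring)
    (by rw [heq, sub_self])
    (by
      intro z₀ hz₀ hk0
      have hk0' : not_strictlyPositive_G u d z₀ = not_strictlyPositive_G u 0 z₀ := by linarith
      have hkm : not_strictlyPositive_G u (-d) z₀ = not_strictlyPositive_G u 0 z₀ := by linarith [hP z₀ hz₀]
      have hU0 := not_strictlyPositive_max hu hd0 z₀ hkm.ge hk0'.ge
      obtain ⟨C, hC, hsemi⟩ := hd.semi
      obtain ⟨C', hC', r', hr', htay⟩ := not_strictlyPositive_taylor (hF0 z₀ hz₀)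
      have hz₀' : ‖z₀‖ < ρ := by simpa using hz₀
      refine ⟨C + C', by positivity, min r' ((ρ - ‖z₀‖) / 2), lt_min hr' (by linarith), ?_⟩
      intro v hv
      have hv1 : ‖v‖ ≤ r' := le_trans hv (min_le_left _ _)
      have hv2 : ‖v‖ ≤ (ρ - ‖z₀‖) / 2 := le_trans hv (min_le_right _ _)
      have m1 : z₀ + v ∈ ball (0:ℂ) ρ := by
        rw [mem_ball_zero_iff]
        have := norm_add_le z₀ v
        linarith
      have m2 : z₀ - v ∈ ball (0:ℂ) ρ := by
        rw [mem_ball_zero_iff]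
        have := norm_sub_le z₀ v
        linarith
      have s1 := hsemi z₀ v (1 / 2) ⟨by norm_num, by norm_num⟩
      have s2 := htay v hv1
      have s3 := abs_re_le_norm (F0 (z₀ + v) + F0 (z₀ - v) - 2 * F0 z₀)
      have s4 : (F0 (z₀ + v) + F0 (z₀ - v) - 2 * F0 z₀).re =
          not_strictlyPositive_G u 0 (z₀ + v) + not_strictlyPositive_G u 0 (z₀ - v) - 2 * not_strictlyPositive_G u 0 z₀ := by
        have e1 : (F0 (z₀ + v) + F0 (z₀ - v) - 2 * F0 z₀).re =
          (F0 (z₀ + v)).re + (F0 (z₀ - v)).re - 2 * (F0 z₀).re := by simp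
        rw [e1, hw0 _ m1, hw0 _ m2, hw0 _ hz₀]
        unfold not_strictlyPositive_G
        ring
      rw [s4] at s3
      have s5 := (abs_le.1 (le_trans s3 s2)).1
      have t1 := not_strictlyPositive_le hu d (z₀ + v)
      have t2 := not_strictlyPositive_le hu (-d) (z₀ + v)
      have t3 := not_strictlyPositive_le hu 0 (z₀ - v)
      have t4 := hP _ m1
      rw [abs_le]
      constructor <;> linarith)
  refine ⟨min r ρ, lt_min hr hρ, ?_⟩
  intro z hz
  have hz1 : z ∈ ball (0:ℂ) r := ball_subset_ball (min_le_left _ _) hz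
  have hz2 : z ∈ ball (0:ℂ) ρ := ball_subset_ball (min_le_right _ _) hz
  have h1 := hk z hz1
  have h2 := hP z hz2
  beta_reduce at h1
  exact not_strictlyPositive_max hu hd0 z (by linarith) (by linarith)

theorem not_strictlyPositive_A {u : ℂ → ℝ → ℝ} {h : ℂ → ℝ} (hd : GData u h) {ρ d ε : ℝ} (hρ : 0 < ρ)
    (hd0 : 0 < d) (hε : 0 < ε) (hdε : 100 * d / ρ ^ 2 ≤ ε / 4)
    (hF : ∀ l : ℝ, |l| ≤ d → ∃ F : ℂ → ℂ, AnalyticOnNhd ℂ F (ball 0 ρ) ∧
      ∀ z ∈ ball (0:ℂ) ρ, (F z).re = psi u l z) (hlt : not_strictlyPositive_G u d 0 < not_strictlyPositive_G u 0 0) :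
    ∃ r > 0, ∀ z ∈ ball (0:ℂ) r, u z (1 / 2) ≤ u 0 (1 / 2) + ε / 2 * ‖z‖ ^ 2 := by
  have hu := hd.toGeo
  have hm : not_strictlyPositive_G u (-d) 0 < not_strictlyPositive_G u 0 0 := by
    have := not_strictlyPositive_symm hd d 0
    rw [mul_zero] at this
    rw [this]
    exact hlt
  have c1 : ∀ᶠ z in nhds (0:ℂ), not_strictlyPositive_G u d z < not_strictlyPositive_G u 0 z :=
    (not_strictlyPositive_cont hu d).continuousAt.eventually_lt
      (not_strictlyPositive_cont hu 0).continuousAt hlt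
  have c2 : ∀ᶠ z in nhds (0:ℂ), not_strictlyPositive_G u (-d) z < not_strictlyPositive_G u 0 z :=
    (not_strictlyPositive_cont hu (-d)).continuousAt.eventually_lt
      (not_strictlyPositive_cont hu 0).continuousAt hm
  obtain ⟨r1, hr1, hball⟩ := Metric.eventually_nhds_iff_ball.1 (c1.and c2)
  obtain ⟨F0, hF0, hw0⟩ := hF 0 (by simpa using hd0.le)
  obtain ⟨r2, hr2, hff⟩ := fourfold_little hρ hF0 hw0 (by
    intro z _
    have := not_strictlyPositive_symm hd 0 z
    unfold not_strictlyPositive_G at this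
    rw [neg_zero] at this
    linarith) (show 0 < ε / 4 by positivity)
  refine ⟨min r1 (min r2 (ρ / 2)), lt_min hr1 (lt_min hr2 (by positivity)), ?_⟩
  intro z hz
  rw [mem_ball_zero_iff] at hz
  have hz1 : z ∈ ball (0:ℂ) r1 := by
    rw [mem_ball_zero_iff]; exact lt_of_lt_of_le hz (min_le_left _ _)
  have hz2 : z ∈ closedBall (0:ℂ) r2 := by
    rw [mem_closedBall_zero_iff]
    exact (lt_of_lt_of_le hz (le_trans (min_le_right _ _) (min_le_left _ _))).le
  have hz3 : z ∈ closedBall (0:ℂ) (ρ / 2) := by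
    rw [mem_closedBall_zero_iff]
    exact (lt_of_lt_of_le hz (le_trans (min_le_right _ _) (min_le_right _ _))).le
  obtain ⟨g1, g2⟩ := hball z hz1
  obtain ⟨l, hl⟩ := not_strictlyPositive_att hu z
  have hl0 : not_strictlyPositive_G u 0 z ≤ not_strictlyPositive_G u l z := by rw [hl]; exact not_strictlyPositive_le hu 0 z
  have hld : l ≤ d := not_strictlyPositive_c2 (not_strictlyPositive_conc hu z) hd0 g1 hl0
  have hld' : -l ≤ d := not_strictlyPositive_c2
    (not_strictlyPositive_neg (not_strictlyPositive_conc hu z)) hd0 (by simpa using g2)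
    (by simpa using hl0)
  have habs : |l| ≤ d := abs_le.2 ⟨by linarith, hld⟩
  obtain ⟨Fl, hFl, hwl⟩ := hF l habs
  have hq := even_quadratic (F := fun z => Fl z - F0 z) (w := fun z => psi u l z - psi u 0 z)
    hρ (abs_nonneg l) (fun z hz => (hFl z hz).sub (hF0 z hz))
    (by intro z hz; rw [sub_re, hwl z hz, hw0 z hz])
    (by
      intro z _
      have := not_strictlyPositive_lip hu l 0 z
      simpa using this)
    (by
      intro z _
      have e1 := not_strictlyPositive_even hd l z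
      have e2 := not_strictlyPositive_even hd 0 z
      unfold not_strictlyPositive_G at e1 e2
      beta_reduce
      linarith) z hz3
  have hq2 : 100 * |l| / ρ ^ 2 * ‖z‖ ^ 2 ≤ ε / 4 * ‖z‖ ^ 2 := by
    apply mul_le_mul_of_nonneg_right _ (by positivity)
    refine le_trans ?_ hdε
    gcongr
  have hf := hff z hz2
  have a1 := (abs_le.1 (le_trans hq hq2)).2
  have a2 := (abs_le.1 hf).2
  have a3 : not_strictlyPositive_G u l 0 ≤ not_strictlyPositive_G u 0 0 := by
    have b1 := not_strictlyPositive_mid hu l 0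
    have b2 := not_strictlyPositive_symm hd l 0
    rw [mul_zero] at b2
    linarith
  have a4 := not_strictlyPositive_le hu 0 0
  rw [← hl]
  unfold not_strictlyPositive_G at a3 a4 ⊢
  beta_reduce at a1
  linarith

/-- TARGET -/
theorem not_strictlyPositive {u : ℂ → ℝ → ℝ} {h : ℂ → ℝ} (hd : GData u h) :
    ¬ StrictlyPositive (fun z => u z (1 / 2)) := by
  rintro ⟨ε, hε, hSP⟩
  have hu := hd.toGeo
  obtain ⟨ρ, hρ, l0, hl0, hharm⟩ := psi_harmonic hd
  have hF : ∀ l : ℝ, |l| ≤ l0 → ∃ F : ℂ → ℂ, AnalyticOnNhd ℂ F (ball 0 ρ) ∧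
      ∀ z ∈ ball (0:ℂ) ρ, (F z).re = psi u l z :=
    fun l hl => exists_analytic_of_limit hρ (hharm l hl)
  have hc : Continuous (fun w => u w (1 / 2)) := hd.cont.comp (continuous_id.prodMk continuous_const)
  by_cases hB : ∃ d : ℝ, 0 < d ∧ d ≤ l0 ∧ not_strictlyPositive_G u d 0 = not_strictlyPositive_G u 0 0
  · obtain ⟨d, hd0, hdl, heq⟩ := hB
    obtain ⟨F0, hF0, hw0⟩ := hF 0 (by simpa using hl0.le)
    obtain ⟨Fp, hFp, hwp⟩ := hF d (by rw [abs_of_pos hd0]; exact hdl)
    obtain ⟨Fm, hFm, hwm⟩ := hF (-d) (by rw [abs_neg, abs_of_pos hd0]; exact hdl)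
    obtain ⟨r, hr, hU⟩ := not_strictlyPositive_B hd hρ hd0 hF0 hw0 hFp hwp hFm hwm heq
    have hr' : 0 < min r ρ / 2 := by
      have := lt_min hr hρ
      linarith
    have hr1 : min r ρ / 2 < r := by
      have := min_le_left r ρ
      linarith
    have hr2 : min r ρ / 2 < ρ := by
      have := min_le_right r ρ
      linarith
    apply not_strictlyPositive_avg hd hε hr' (hSP 0 _ hr')
    have e1 : circleAverage (fun w => u w (1 / 2)) 0 (min r ρ / 2) =
        circleAverage (psi u 0) 0 (min r ρ / 2) := by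
      apply circleAverage_congr_sphere
      intro z hz
      rw [abs_of_pos hr'] at hz
      have h1 := hU z (by
        rw [mem_ball_zero_iff]
        have : ‖z‖ = min r ρ / 2 := by simpa using hz
        linarith)
      unfold not_strictlyPositive_G at h1
      linarith
    rw [e1, not_strictlyPositive_harm hF0 hw0 hr' hr2]
    have h2 := hU 0 (by simpa using hr)
    unfold not_strictlyPositive_G at h2
    have h3 : 0 ≤ ε / 2 * (min r ρ / 2) ^ 2 := by positivity
    linarith
  · push Not at hB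
    obtain ⟨d, hd0, hdl, hdε⟩ : ∃ d : ℝ, 0 < d ∧ d ≤ l0 ∧ 100 * d / ρ ^ 2 ≤ ε / 4 := by
      refine ⟨min l0 (ε * ρ ^ 2 / 400), lt_min hl0 (by positivity), min_le_left _ _, ?_⟩
      have h1 := min_le_right l0 (ε * ρ ^ 2 / 400)
      rw [div_le_iff₀ (by positivity)]
      linarith
    have hlt : not_strictlyPositive_G u d 0 < not_strictlyPositive_G u 0 0 := by
      apply lt_of_le_of_ne _ (hB d hd0 hdl)
      have b1 := not_strictlyPositive_mid hu d 0
      have b2 := not_strictlyPositive_symm hd d 0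
      rw [mul_zero] at b2
      linarith
    obtain ⟨r, hr, hU⟩ := not_strictlyPositive_A hd hρ hd0 hε hdε
      (fun l hl => hF l (le_trans hl hdl)) hlt
    have hr' : 0 < r / 2 := by linarith
    apply not_strictlyPositive_avg hd hε hr' (hSP 0 _ hr')
    rw [← circleAverage_const' (u 0 (1 / 2) + ε / 2 * (r / 2) ^ 2) 0 (r / 2)]
    apply circleAverage_mono' hr'.le hc.continuousOn continuousOn_const
    intro z hz
    have hz' : ‖z‖ = r / 2 := by simpa using hz
    have := hU z (by rw [mem_ball_zero_iff]; linarith)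
    rw [hz'] at this
    exact this


end WG
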