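import Pool.Agent.Helper853.WG.Kis
import Pool.Agent.Helper853.WG.Det

set_option autoImplicit false

open Complex Metric Set Real MeasureTheory

namespace WG

theorem pm_circleAverage_comp (G : ℂ → ℝ) (z : ℂ) (r : ℝ) :
    circleAverage (fun ζ => G (z + r * ζ)) 0 1 = circleAverage G z r := by
  simp only [circleAverage_def]
  congr 2
  funext θ
  simp [circleMap]

theorem pm_sub {ψ : ℂ → ℝ} (hψ : DiscSub ψ) (f : ℂ → ℂ)
    (hf : AnalyticOnNhd ℂ f (closedBall 0 1)) (ζ : ℂ) (r : ℝ) (hr : 0 ≤ r)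
    (hsub : closedBall ζ r ⊆ closedBall 0 1) :
    ψ (f ζ) ≤ circleAverage (fun w => ψ (f w)) ζ r := by
  have h1 := hψ.2 (fun w => f (ζ + r * w)) (by
    intro w hw
    have hw' : ‖w‖ ≤ 1 := by simpa using hw
    have h2 : ζ + r * w ∈ closedBall (0:ℂ) 1 := hsub (by
      rw [mem_closedBall, dist_eq_norm, add_sub_cancel_left, norm_mul, Complex.norm_real,
        Real.norm_of_nonneg hr]
      nlinarith)
    have h3 : AnalyticAt ℂ (fun w : ℂ => ζ + r * w) w := by fun_prop
    exact AnalyticAt.fun_comp (hf _ h2) h3)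
  rw [← pm_circleAverage_comp (fun w => ψ (f w))]
  simpa using h1

theorem pm_sub_id {ψ : ℂ → ℝ} (hψ : DiscSub ψ) (z : ℂ) (r : ℝ) :
    ψ z ≤ circleAverage ψ z r := by
  have h1 := hψ.2 (fun w => z + r * w) (by
    intro w hw
    fun_prop)
  rw [pm_circleAverage_comp] at h1
  simpa using h1

/-- gluing a polynomial into a disc-subharmonic function -/
theorem pm_glue {ψ : ℂ → ℝ} (hψ : DiscSub ψ) (T : Polynomial ℂ) (ε ρ : ℝ)
    (hT : ∀ z, ‖z‖ = ρ → (T.eval z).re - ε < ψ z) :
    DiscSub (fun z => if ‖z‖ ≤ ρ then max (ψ z) ((T.eval z).re - ε) else ψ z) := by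
  have hTc : Continuous (fun z : ℂ => (T.eval z).re - ε) :=
    (continuous_re.comp T.differentiable.continuous).sub continuous_const
  have hcont : Continuous (fun z => if ‖z‖ ≤ ρ then max (ψ z) ((T.eval z).re - ε) else ψ z) := by
    refine Continuous.if_le (hψ.1.max hTc) hψ.1 continuous_norm continuous_const ?_
    intro z hz
    exact max_eq_left (hT z hz).le
  refine ⟨hcont, fun f hf => ?_⟩
  obtain ⟨ψ1, hψ1⟩ : ∃ ψ1 : ℂ → ℝ, ψ1 = fun z => if ‖z‖ ≤ ρ then max (ψ z) ((T.eval z).re - ε) else ψ z :=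
    ⟨_, rfl⟩
  rw [← hψ1] at hcont
  have hge : ∀ z, ψ z ≤ ψ1 z := by
    intro z
    rw [hψ1]
    simp only
    split_ifs
    · exact le_max_left _ _
    · exact le_rfl
  have hge2 : ∀ z, ‖z‖ ≤ ρ → (T.eval z).re - ε ≤ ψ1 z := by
    intro z hz
    rw [hψ1]
    simp only
    rw [if_pos hz]
    exact le_max_right _ _
  have hfc : ContinuousOn f (closedBall 0 1) := hf.continuousOn
  have hloc := submean_of_local (F := fun ζ => ψ1 (f ζ)) (hcont.comp_continuousOn hfc) (by
    intro ζ hζ
    have hζ' : ‖ζ‖ < 1 := by simpa using hζ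
    by_cases hlt : ‖f ζ‖ < ρ
    · -- a small ball mapped into the open ball
      have hat : ContinuousAt f ζ := (hf ζ (ball_subset_closedBall hζ)).continuousAt
      have hev : ∀ᶠ w in nhds ζ, ‖f w‖ < ρ := (hat.norm).eventually (gt_mem_nhds hlt)
      obtain ⟨r0, hr0, hr0b⟩ := Metric.eventually_nhds_iff.1 hev
      obtain ⟨r, hr⟩ : ∃ r, r = min (r0 / 2) (1 - ‖ζ‖) := ⟨_, rfl⟩
      have hrpos : 0 < r := by rw [hr]; exact lt_min (by linarith) (by linarith)
      have hr1 : r ≤ r0 / 2 := by rw [hr]; exact min_le_left _ _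
      have hr2 : r ≤ 1 - ‖ζ‖ := by rw [hr]; exact min_le_right _ _
      have hsub : closedBall ζ r ⊆ closedBall 0 1 := by
        intro w hw
        rw [mem_closedBall] at hw ⊢
        have := dist_triangle w ζ 0
        rw [dist_zero_right ζ] at this
        linarith
      have hin : ∀ w ∈ closedBall ζ r, ‖f w‖ < ρ := by
        intro w hw
        refine hr0b ?_
        rw [mem_closedBall] at hw
        linarith
      refine ⟨r, hrpos, hsub, ?_⟩
      have hcs : ContinuousOn (fun w => ψ1 (f w)) (sphere ζ r) :=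
        hcont.comp_continuousOn (hfc.mono (sphere_subset_closedBall.trans hsub))
      have h1 : ψ (f ζ) ≤ circleAverage (fun w => ψ1 (f w)) ζ r := by
        refine (pm_sub hψ f hf ζ r hrpos.le hsub).trans ?_
        refine circleAverage_mono' hrpos.le
          (hψ.1.comp_continuousOn (hfc.mono (sphere_subset_closedBall.trans hsub))) hcs ?_
        intro w _
        exact hge _
      have h2 : (T.eval (f ζ)).re - ε ≤ circleAverage (fun w => ψ1 (f w)) ζ r := by
        have han : AnalyticOnNhd ℂ (fun w => T.eval (f w)) (closedBall ζ r) := by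
          intro w hw
          exact AnalyticAt.fun_comp (T.differentiable.analyticAt _) (hf w (hsub hw))
        have hc1 : ContinuousOn (fun w => (T.eval (f w)).re) (sphere ζ r) :=
          continuous_re.comp_continuousOn (han.continuousOn.mono sphere_subset_closedBall)
        have h3 : circleAverage (fun w => (T.eval (f w)).re - ε) ζ r = (T.eval (f ζ)).re - ε := by
          rw [circleAverage_sub' hrpos.le hc1 continuousOn_const, re_circleAverage hrpos.le han,
            circleAverage_const']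
        rw [← h3]
        refine circleAverage_mono' hrpos.le (hc1.sub continuousOn_const) hcs ?_
        intro w hw
        exact hge2 _ (hin w (sphere_subset_closedBall hw)).le
      have h4 : ψ1 (f ζ) = max (ψ (f ζ)) ((T.eval (f ζ)).re - ε) := by
        rw [hψ1]
        simp only
        rw [if_pos hlt.le]
      rw [h4]
      exact max_le h1 h2
    · have hsub : closedBall ζ (1 - ‖ζ‖) ⊆ closedBall 0 1 := by
        intro w hw
        rw [mem_closedBall] at hw ⊢
        have := dist_triangle w ζ 0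
        rw [dist_zero_right ζ] at this
        linarith
      refine ⟨1 - ‖ζ‖, by linarith, hsub, ?_⟩
      have h4 : ψ1 (f ζ) = ψ (f ζ) := by
        rw [hψ1]
        simp only
        split_ifs with hle
        · exact max_eq_left (hT _ (le_antisymm hle (not_lt.1 hlt))).le
        · rfl
      rw [h4]
      refine (pm_sub hψ f hf ζ _ (by linarith) hsub).trans ?_
      refine circleAverage_mono' (by linarith)
        (hψ.1.comp_continuousOn (hfc.mono (sphere_subset_closedBall.trans hsub)))
        (hcont.comp_continuousOn (hfc.mono (sphere_subset_closedBall.trans hsub))) ?_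
      intro w _
      exact hge _)
  rw [hψ1] at hloc
  exact hloc

/-- TARGET -/
theorem psi_harmonic {u : ℂ → ℝ → ℝ} {h : ℂ → ℝ} (hd : GData u h) :
    ∃ ρ > 0, ∃ l₀ > 0, ∀ l : ℝ, |l| ≤ l₀ → ∀ ε > 0, ∃ T : Polynomial ℂ,
      ∀ z ∈ closedBall (0:ℂ) ρ, |(T.eval z).re - psi u l z| ≤ ε := by
  obtain ⟨d, hdd⟩ : ∃ d, d = (h 0 - u 0 (1 / 2)) / 4 := ⟨_, rfl⟩
  have hd0 : 0 < d := by rw [hdd]; linarith [detach hd]
  -- radius
  have hcu : Continuous (fun z : ℂ => u z (1 / 2)) :=
    hd.toGeo.cont.comp (continuous_id.prodMk continuous_const)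
  have hev : ∀ᶠ z in nhds (0:ℂ), u z (1 / 2) < h 0 - 3 * d :=
    hcu.continuousAt.eventually (gt_mem_nhds (by rw [hdd]; linarith [detach hd]))
  obtain ⟨r0, hr0, hr0b⟩ := Metric.eventually_nhds_iff.1 hev
  obtain ⟨ρ, hρd⟩ : ∃ ρ, ρ = min (r0 / 2) (min 1 (2 * d)) := ⟨_, rfl⟩
  have hρ : 0 < ρ := by
    rw [hρd]; exact lt_min (by linarith) (lt_min one_pos (by linarith))
  have hρ1 : ρ ≤ 1 := by rw [hρd]; exact (min_le_right _ _).trans (min_le_left _ _)
  have hρ2 : ρ ≤ 2 * d := by rw [hρd]; exact (min_le_right _ _).trans (min_le_right _ _)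
  have hρ3 : ρ ≤ r0 / 2 := by rw [hρd]; exact min_le_left _ _
  have hρsq : ρ ^ 2 ≤ 2 * d := by nlinarith
  refine ⟨ρ, hρ, d, hd0, fun l hl ε hε => ?_⟩
  obtain ⟨hl1, hl2⟩ := abs_le.1 hl
  have hψ := psi_discSub hd.toGeo l
  obtain ⟨ψ, hψe⟩ : ∃ ψ, ψ = psi u l := ⟨_, rfl⟩
  rw [← hψe] at hψ ⊢
  -- upper bound of psi on the ball
  have hup : ∀ z : ℂ, ‖z‖ ≤ ρ → ψ z ≤ h 0 - 5 / 2 * d := by
    intro z hz
    have h1 : ψ z ≤ u z (1 / 2) - l * (1 / 2) := by
      rw [hψe]; exact psi_le hd.toGeo l z ⟨by norm_num, by norm_num⟩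
    have h2 : u z (1 / 2) < h 0 - 3 * d := hr0b (by rw [dist_zero_right]; linarith)
    linarith
  obtain ⟨T, hT⟩ := exists_poly_re_radius hρ (g := ψ) hψ.1.continuousOn (ε := ε / 3) (by linarith)
  refine ⟨T, ?_⟩
  have hTd : Differentiable ℂ (fun z => T.eval z) := T.differentiable
  have hTc : Continuous (fun z : ℂ => (T.eval z).re) := continuous_re.comp hTd.continuous
  have hTs : ∀ z : ℂ, ‖z‖ = ρ → |(T.eval z).re - ψ z| ≤ ε / 3 := fun z hz =>
    hT z (by rw [mem_sphere, dist_zero_right]; exact hz)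
  -- upper bound by the maximum principle
  have hA : ∀ z ∈ closedBall (0:ℂ) ρ, ψ z - (T.eval z).re - ε / 3 ≤ 0 := by
    refine max_principle (isCompact_closedBall 0 ρ)
      ((hψ.1.sub hTc).sub continuous_const).continuousOn ?_ ?_
    · intro z hz
      rw [interior_closedBall _ hρ.ne', mem_ball, dist_zero_right] at hz
      have hr : 0 ≤ ρ - ‖z‖ := by linarith
      refine ⟨ρ - ‖z‖, by linarith, ?_, ?_⟩
      · intro w hw
        rw [mem_closedBall] at hw ⊢
        have := dist_triangle w z 0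
        rw [dist_zero_right z] at this
        linarith
      · have hcc : Continuous (fun z : ℂ => ψ z - (T.eval z).re) := hψ.1.sub hTc
        rw [circleAverage_sub' hr hcc.continuousOn continuousOn_const,
          circleAverage_sub' hr hψ.1.continuousOn hTc.continuousOn, re_circleAverage' hr hTd,
          circleAverage_const']
        have := pm_sub_id hψ z (ρ - ‖z‖)
        linarith
    · intro z hz hzi
      rw [interior_closedBall _ hρ.ne', mem_ball, dist_zero_right] at hzi
      rw [mem_closedBall, dist_zero_right] at hz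
      have h1 := hTs z (le_antisymm hz (not_lt.1 hzi))
      have h2 := (abs_le.1 h1).1
      linarith
  -- bound for the polynomial
  have hB : ∀ z : ℂ, ‖z‖ ≤ ρ → (T.eval z).re ≤ h 0 - 5 / 2 * d + ε / 3 := by
    intro z hz
    refine poly_re_le (T := T) hρ (c := 0) ?_ z (by rw [mem_closedBall, dist_zero_right]; exact hz)
    intro w hw
    rw [mem_sphere, dist_zero_right] at hw
    have h1 := (abs_le.1 (hTs w hw)).2
    have h2 := hup w hw.le
    linarith
  -- the competitor
  have hG := pm_glue hψ T ε ρ (by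
    intro z hz
    have h1 := (abs_le.1 (hTs z hz)).2
    linarith)
  obtain ⟨ψ1, hψ1⟩ : ∃ ψ1 : ℂ → ℝ, ψ1 = fun z => if ‖z‖ ≤ ρ then max (ψ z) ((T.eval z).re - ε) else ψ z :=
    ⟨_, rfl⟩
  rw [← hψ1] at hG
  have hcase : ∀ z (B : ℝ), ψ z ≤ B → (‖z‖ ≤ ρ → (T.eval z).re - ε ≤ B) → ψ1 z ≤ B := by
    intro z B h1 h2
    rw [hψ1]
    simp only
    split_ifs with hz
    · exact max_le h1 (h2 hz)
    · exact h1
  obtain ⟨M, hM⟩ := hd.grow
  have hψh : ∀ z, ψ z ≤ h z := by
    intro z
    have h1 : ψ z ≤ u z 0 - l * 0 := by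
      rw [hψe]; exact psi_le hd.toGeo l z ⟨le_rfl, zero_le_one⟩
    rw [hd.left] at h1
    linarith
  have hψh1 : ∀ z, ψ z ≤ h (I * z) - l := by
    intro z
    have h1 : ψ z ≤ u z 1 - l * 1 := by
      rw [hψe]; exact psi_le hd.toGeo l z ⟨zero_le_one, le_rfl⟩
    rw [hd.right] at h1
    linarith
  have hcomp := hd.comp ψ1 hG ⟨M + |h 0|, fun z => by
      refine hcase z _ ?_ ?_
      · have h1 := hψh z
        have h2 := (abs_le.1 (hM z 0 ⟨le_rfl, zero_le_one⟩)).2
        rw [hd.left] at h2
        have h3 := abs_nonneg (h 0)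
        linarith
      · intro hz
        have h1 := hB z hz
        have h2 := le_abs_self (h 0)
        have h3 : 0 ≤ M := (abs_nonneg _).trans (hM z 0 ⟨le_rfl, zero_le_one⟩)
        have h4 := sq_nonneg ‖z‖
        linarith⟩ l
    (fun z => by
      refine hcase z _ (hψh z) ?_
      intro hz
      have h1 := hB z hz
      have h2 := hd.lower z
      have h3 : ‖z‖ ^ 2 ≤ ρ ^ 2 := by
        have := norm_nonneg z
        nlinarith
      linarith)
    (fun z => by
      have : ψ1 z ≤ h (I * z) - l := by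
        refine hcase z _ (hψh1 z) ?_
        intro hz
        have h1 := hB z hz
        have h2 := hd.lower (I * z)
        rw [norm_mul, Complex.norm_I, one_mul] at h2
        have h3 : ‖z‖ ^ 2 ≤ ρ ^ 2 := by
          have := norm_nonneg z
          nlinarith
        linarith
      linarith)
  have hψ1ψ : ∀ z, ψ1 z ≤ ψ z := by
    intro z
    obtain ⟨t, ht, hte⟩ := exists_psi hd.toGeo l z
    have h1 := hcomp z t ht
    rw [hψe, hte]
    linarith
  intro z hz
  have hA' := hA z hz
  rw [mem_closedBall, dist_zero_right] at hz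
  have h1 := hψ1ψ z
  have h2 : (T.eval z).re - ε ≤ ψ1 z := by
    rw [hψ1]
    simp only
    rw [if_pos hz]
    exact le_max_right _ _
  rw [abs_le]
  constructor <;> linarith

end WG
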