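import Mathlib
open Complex Metric Set Real

namespace WG

theorem aux_span {h : C(AddCircle (1:ℝ), ℂ)}
    (hh : h ∈ Submodule.span ℂ (Set.range (@fourier (1:ℝ)))) :
    ∀ c : ℂ, ∃ T : Polynomial ℂ, ∀ x : AddCircle (1:ℝ),
      (T.eval ((AddCircle.toCircle x : Circle) : ℂ)).re = (c * h x).re := by
  induction hh using Submodule.span_induction with
  | mem h hh =>
    obtain ⟨n, rfl⟩ := hh
    intro c
    rcases Int.le_total 0 n with hn | hn
    · obtain ⟨k, rfl⟩ := Int.eq_ofNat_of_zero_le hn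
      refine ⟨Polynomial.C c * Polynomial.X ^ k, fun x => ?_⟩
      simp only [Polynomial.eval_mul, Polynomial.eval_C, Polynomial.eval_pow, Polynomial.eval_X]
      rw [fourier_apply]
      congr 2
      rw [AddCircle.toCircle_zsmul]
      simp
    · obtain ⟨k, hk⟩ := Int.eq_ofNat_of_zero_le (Int.neg_nonneg_of_nonpos hn)
      have hn' : n = -(k : ℤ) := by omega
      subst hn'
      refine ⟨Polynomial.C (starRingEnd ℂ c) * Polynomial.X ^ k, fun x => ?_⟩
      simp only [Polynomial.eval_mul, Polynomial.eval_C, Polynomial.eval_pow, Polynomial.eval_X]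
      rw [fourier_neg, fourier_apply, AddCircle.toCircle_zsmul]
      have : (c * (starRingEnd ℂ) (((AddCircle.toCircle x ^ (k : ℤ) : Circle)) : ℂ)) =
        (starRingEnd ℂ) ((starRingEnd ℂ) c * ((AddCircle.toCircle x : Circle) : ℂ) ^ k) := by
        rw [map_mul, Complex.conj_conj]
        simp
      rw [this, Complex.conj_re]
  | zero => 
    intro c
    exact ⟨0, fun x => by simp⟩
  | add h1 h2 _ _ ih1 ih2 =>
    intro c
    obtain ⟨T1, hT1⟩ := ih1 c
    obtain ⟨T2, hT2⟩ := ih2 c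
    refine ⟨T1 + T2, fun x => ?_⟩
    rw [Polynomial.eval_add, Complex.add_re, hT1, hT2, ContinuousMap.add_apply, mul_add,
      Complex.add_re]
  | smul a h _ ih =>
    intro c
    obtain ⟨T, hT⟩ := ih (c * a)
    refine ⟨T, fun x => ?_⟩
    rw [hT, ContinuousMap.smul_apply, smul_eq_mul, mul_assoc]

/-- trigonometric approximation on the unit circle by real parts of polynomials -/
theorem exists_poly_re {g : ℂ → ℝ} (hg : ContinuousOn g (sphere (0:ℂ) 1)) {ε : ℝ} (hε : 0 < ε) :
    ∃ T : Polynomial ℂ, ∀ ζ ∈ sphere (0:ℂ) 1, |(T.eval ζ).re - g ζ| ≤ ε := by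
  have : Fact ((0:ℝ) < 1) := ⟨one_pos⟩
  have hc : Continuous (fun x : AddCircle (1:ℝ) =>
      ((g ((AddCircle.toCircle x : Circle) : ℂ) : ℝ) : ℂ)) := by
    refine Complex.continuous_ofReal.comp ?_
    refine hg.comp_continuous (continuous_subtype_val.comp AddCircle.continuous_toCircle) ?_
    intro x
    exact (AddCircle.toCircle x : Circle).2
  set G : C(AddCircle (1:ℝ), ℂ) := ⟨_, hc⟩ with hG
  have hmem : G ∈ (Submodule.span ℂ (Set.range (@fourier (1:ℝ)))).topologicalClosure := by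
    rw [span_fourier_closure_eq_top]
    trivial
  have hmem' : G ∈ closure ((Submodule.span ℂ (Set.range (@fourier (1:ℝ))) : Submodule ℂ _) :
    Set C(AddCircle (1:ℝ), ℂ)) := hmem
  obtain ⟨h, hh, hdist⟩ := Metric.mem_closure_iff.1 hmem' ε hε
  obtain ⟨T, hT⟩ := aux_span hh 1
  refine ⟨T, fun ζ hζ => ?_⟩
  obtain ⟨x, hx⟩ := (AddCircle.homeomorphCircle (T := (1:ℝ)) one_ne_zero).surjective
    ⟨ζ, hζ⟩
  rw [AddCircle.homeomorphCircle_apply] at hx
  have hx' : ((AddCircle.toCircle x : Circle) : ℂ) = ζ := by rw [hx]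
  rw [← hx', hT x, one_mul]
  have h1 : g ((AddCircle.toCircle x : Circle) : ℂ) = (G x).re := by
    simp [hG]
  rw [h1, ← Complex.sub_re]
  calc |(h x - G x).re| ≤ ‖h x - G x‖ := Complex.abs_re_le_norm _
    _ = dist (G x) (h x) := by rw [dist_comm, dist_eq_norm]
    _ ≤ dist G h := ContinuousMap.dist_apply_le_dist x
    _ ≤ ε := hdist.le

end WG
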