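import Pool.Agent.Helper853.WG.Basic
import Pool.Agent.Helper853.WG.Trig
import Pool.Agent.Helper853.WG.Conv
import Pool.Agent.Helper853.WG.Defs

set_option autoImplicit false

open Complex Metric Set Real MeasureTheory

namespace WG

theorem exists_poly_re_radius {g : ℂ → ℝ} {ρ : ℝ} (hρ : 0 < ρ)
    (hg : ContinuousOn g (sphere (0:ℂ) ρ)) {ε : ℝ} (hε : 0 < ε) :
    ∃ T : Polynomial ℂ, ∀ ζ ∈ sphere (0:ℂ) ρ, |(T.eval ζ).re - g ζ| ≤ ε := by
  have h1 : ContinuousOn (fun ζ : ℂ => g (ρ * ζ)) (sphere 0 1) := by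
    apply hg.comp (by fun_prop)
    intro ζ hζ
    simp only [mem_sphere_iff_norm, sub_zero] at hζ ⊢
    rw [norm_mul, hζ]; simp [abs_of_pos hρ]
  obtain ⟨T, hT⟩ := exists_poly_re h1 hε
  refine ⟨T.comp (Polynomial.C ((ρ⁻¹ : ℝ):ℂ) * Polynomial.X), fun ζ hζ => ?_⟩
  have hρ' : (ρ:ℂ) ≠ 0 := by exact_mod_cast hρ.ne'
  have h2 := hT (((ρ⁻¹ : ℝ):ℂ) * ζ) (by
    simp only [mem_sphere_iff_norm, sub_zero] at hζ ⊢
    rw [norm_mul, hζ]; simp [abs_of_pos hρ, hρ.ne'])
  have h3 : (ρ:ℂ) * (((ρ⁻¹ : ℝ):ℂ) * ζ) = ζ := by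
    push_cast; field_simp
  simp only [h3] at h2
  simpa using h2

theorem submean_of_local {F : ℂ → ℝ} (hF : ContinuousOn F (closedBall 0 1))
    (hloc : ∀ ζ ∈ ball (0:ℂ) 1, ∃ r > 0, closedBall ζ r ⊆ closedBall 0 1 ∧
      F ζ ≤ circleAverage F ζ r) :
    F 0 ≤ circleAverage F 0 1 := by
  refine le_of_forall_pos_le_add fun ε hε => ?_
  obtain ⟨T, hT⟩ := exists_poly_re (hF.mono sphere_subset_closedBall) (half_pos hε)
  have hTd : Differentiable ℂ (fun z => T.eval z) := T.differentiable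
  have hTc : Continuous (fun z => (T.eval z).re) := continuous_re.comp hTd.continuous
  have hTc' : Continuous (fun z => (T.eval z).re + ε / 2) := hTc.add continuous_const
  have key := max_principle (isCompact_closedBall 0 1)
    (F := fun z => F z - ((T.eval z).re + ε / 2)) (hF.sub hTc'.continuousOn)
    (by
      intro z hz
      rw [interior_closedBall _ one_ne_zero] at hz
      obtain ⟨r, hr, hrs, hav⟩ := hloc z hz
      refine ⟨r, hr, hrs, ?_⟩
      have hs : sphere z r ⊆ closedBall 0 1 := sphere_subset_closedBall.trans hrs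
      rw [circleAverage_sub' hr.le (hF.mono hs) hTc'.continuousOn,
        circleAverage_add' hr.le hTc.continuousOn continuousOn_const,
        re_circleAverage' hr.le hTd, circleAverage_const']
      linarith)
    (by
      intro z hz hzi
      rw [interior_closedBall _ one_ne_zero] at hzi
      have h3 : z ∈ sphere (0:ℂ) 1 := by
        have h1 : dist z 0 ≤ 1 := hz
        have h2 : ¬ dist z 0 < 1 := hzi
        show dist z 0 = 1
        linarith
      have := abs_le.1 (hT z h3)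
      linarith [this.1])
  have h0 := key 0 (by simp)
  have h1 : circleAverage (fun z => (T.eval z).re) 0 1 = (T.eval 0).re :=
    re_circleAverage' zero_le_one hTd
  have hFs : ContinuousOn F (sphere 0 1) := hF.mono sphere_subset_closedBall
  have h2 : circleAverage (fun z => (T.eval z).re) 0 1 ≤
      circleAverage (fun z => F z + ε / 2) 0 1 := by
    have hsum : ContinuousOn (fun z => F z + ε / 2) (sphere 0 1) := hFs.add continuousOn_const
    apply circleAverage_mono' zero_le_one hTc.continuousOn hsum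
    intro z hz
    have := abs_le.1 (hT z hz)
    show (T.eval z).re ≤ F z + ε / 2
    linarith [this.2]
  rw [circleAverage_add' zero_le_one hFs continuousOn_const, circleAverage_const', h1] at h2
  linarith

variable {u : ℂ → ℝ → ℝ}

theorem Geo.cont_t (hu : Geo u) (z : ℂ) : Continuous (u z) :=
  hu.cont.comp (by fun_prop : Continuous fun t : ℝ => (z, t))

theorem Geo.cont_z (hu : Geo u) (t : ℝ) : Continuous (fun z => u z t) :=
  hu.cont.comp (by fun_prop : Continuous fun z : ℂ => (z, t))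

theorem psi_le (hu : Geo u) (l : ℝ) (z : ℂ) {t : ℝ} (ht : t ∈ Icc (0:ℝ) 1) :
    psi u l z ≤ u z t - l * t := by
  have hc : Continuous (fun t => u z t - l * t) := (hu.cont_t z).sub (by fun_prop)
  exact csInf_le (isCompact_Icc.bddBelow_image hc.continuousOn) (mem_image_of_mem _ ht)

theorem exists_psi (hu : Geo u) (l : ℝ) (z : ℂ) :
    ∃ t ∈ Icc (0:ℝ) 1, psi u l z = u z t - l * t := by
  have hc : Continuous (fun t => u z t - l * t) := (hu.cont_t z).sub (by fun_prop)
  obtain ⟨t, ht, h⟩ := isCompact_Icc.exists_sInf_image_eq (nonempty_Icc.2 zero_le_one) hc.continuousOn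
  exact ⟨t, ht, h⟩

theorem psi_continuous (hu : Geo u) (l : ℝ) : Continuous (psi u l) := by
  apply isCompact_Icc.continuous_sInf
  have h := hu.cont
  exact h.sub (by fun_prop)

theorem Geo.convex (hu : Geo u) (z : ℂ) : ConvexOn ℝ (Icc (0:ℝ) 1) (u z) := by
  apply convexOn_of_cos_mean (hu.cont_t z)
  intro t r hr h0 h1
  have := hu.disc (fun _ => z) (fun ζ => t + r * ζ) (fun _ _ => analyticAt_const)
    (fun ζ _ => by fun_prop) (by
      intro ζ hζ
      have h2 : |ζ.re| ≤ 1 := (abs_re_le_norm ζ).trans (by simpa using hζ)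
      have h3 := abs_le.1 h2
      simp only [add_re, ofReal_re, mul_re, ofReal_im, zero_mul, sub_zero]
      constructor <;> nlinarith)
  rw [circleAverage_def] at this
  simp only [mul_zero, add_zero, ofReal_re, smul_eq_mul] at this
  refine this.trans (le_of_eq ?_)
  congr 2
  ext θ
  congr 1
  simp [circleMap, Complex.exp_re]

theorem Geo.convex' (hu : Geo u) (l : ℝ) (z : ℂ) :
    ConvexOn ℝ (Icc (0:ℝ) 1) (fun t => u z t - l * t) := by
  apply (hu.convex z).sub
  refine ⟨convex_Icc _ _, fun x _ y _ a b _ _ _ => ?_⟩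
  simp only [smul_eq_mul]
  linarith

theorem kiselman (hu : Geo u) (l : ℝ) {f : ℂ → ℂ} (hf : AnalyticOnNhd ℂ f (closedBall 0 1)) :
    psi u l (f 0) ≤ circleAverage (fun ζ => psi u l (f ζ)) 0 1 := by
  refine le_of_forall_pos_le_add fun ε hε => ?_
  set S := sphere (0:ℂ) 1 with hS
  have hfc : ContinuousOn f S := hf.continuousOn.mono sphere_subset_closedBall
  have hfS : Continuous (fun x : S => f x) := continuousOn_iff_continuous_domRestrict.1 hfc
  have hpc := psi_continuous hu l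
  -- selection
  have hsel : ∃ g : C(S, ℝ), ∀ x : S, g x ∈
      {t | t ∈ Icc (0:ℝ) 1 ∧ u (f x) t - l * t < psi u l (f x) + ε / 4} := by
    apply exists_continuous_forall_mem_convex_of_local_const
    · intro x
      exact (hu.convex' l (f x)).convex_lt _
    · intro x
      obtain ⟨t, ht, hpt⟩ := exists_psi hu l (f x)
      refine ⟨t, ?_⟩
      have hcont : Continuous (fun y : S => psi u l (f y) + ε / 4 - (u (f y) t - l * t)) :=
        ((hpc.comp hfS).add continuous_const).sub (((hu.cont_z t).comp hfS).sub continuous_const)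
      have hpos : 0 < psi u l (f x) + ε / 4 - (u (f x) t - l * t) := by rw [hpt]; linarith
      filter_upwards [hcont.continuousAt.eventually (lt_mem_nhds hpos)] with y hy
      exact ⟨ht, by linarith⟩
  obtain ⟨g, hg⟩ := hsel
  -- bound
  have hScomp : IsCompact S := isCompact_sphere 0 1
  have hcb : ContinuousOn (fun ζ : ℂ => u (f ζ) (1/2) - l * (1/2) - psi u l (f ζ)) S :=
    (((hu.cont_z (1/2)).comp_continuousOn hfc).sub continuousOn_const).sub
      (hpc.comp_continuousOn hfc)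
  obtain ⟨C, hC⟩ := (hScomp.bddAbove_image hcb)
  have hC' : ∀ ζ ∈ S, u (f ζ) (1/2) - l * (1/2) ≤ psi u l (f ζ) + max C 0 := by
    intro ζ hζ
    have := hC (mem_image_of_mem _ hζ)
    have h2 := le_max_left C 0
    linarith
  set C0 := max C 0 with hC0
  have hC0' : 0 ≤ C0 := le_max_right _ _
  obtain ⟨η, hη0, hη1, hηC⟩ : ∃ η : ℝ, 0 < η ∧ η < 1/2 ∧ η * C0 ≤ ε / 4 := by
    refine ⟨min (1/4) (ε / (4 * (C0 + 1))), by positivity, ?_, ?_⟩
    · exact lt_of_le_of_lt (min_le_left _ _) (by norm_num)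
    · calc min (1/4) (ε / (4 * (C0 + 1))) * C0 ≤ ε / (4 * (C0 + 1)) * C0 :=
            mul_le_mul_of_nonneg_right (min_le_right _ _) hC0'
        _ ≤ ε / (4 * (C0 + 1)) * (C0 + 1) := by
            apply mul_le_mul_of_nonneg_left (by linarith) (by positivity)
        _ = ε / 4 := by field_simp
  -- uniform continuity
  have hK : IsCompact (S ×ˢ Icc (0:ℝ) 1) := hScomp.prod isCompact_Icc
  have hFc : ContinuousOn (fun p : ℂ × ℝ => u (f p.1) p.2 - l * p.2) (S ×ˢ Icc (0:ℝ) 1) := by
    apply ContinuousOn.sub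
    · have : ContinuousOn (fun p : ℂ × ℝ => (f p.1, p.2)) (S ×ˢ Icc (0:ℝ) 1) :=
        (hfc.comp continuousOn_fst (fun p hp => hp.1)).prodMk continuousOn_snd
      exact hu.cont.comp_continuousOn this
    · fun_prop
  have huc := hK.uniformContinuousOn_of_continuous hFc
  rw [Metric.uniformContinuousOn_iff] at huc
  obtain ⟨δ, hδ, hδ'⟩ := huc (ε / 4) (by positivity)
  -- polynomial
  classical
  set G : ℂ → ℝ := fun ζ => if h : ζ ∈ S then (1 - η) * g ⟨ζ, h⟩ + η / 2 else 0 with hGdef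
  have hGS : ∀ x : S, G x = (1 - η) * g x + η / 2 := by
    intro x; simp only [hGdef]; rw [dif_pos x.2]
  have hGc : ContinuousOn G S := by
    rw [continuousOn_iff_continuous_domRestrict]
    have : S.domRestrict G = fun x : S => (1 - η) * g x + η / 2 := by
      ext x; exact hGS x
    rw [this]
    fun_prop
  obtain ⟨T, hT⟩ := exists_poly_re hGc (ε := min (δ / 2) (η / 4)) (by positivity)
  have hTd : Differentiable ℂ (fun z => T.eval z) := T.differentiable
  have hTc : Continuous (fun z => (T.eval z).re) := continuous_re.comp hTd.continuous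
  have hTS : ∀ ζ ∈ S, η / 4 ≤ (T.eval ζ).re ∧ (T.eval ζ).re ≤ 1 - η / 4 := by
    intro ζ hζ
    have h1 := abs_le.1 ((hT ζ hζ).trans (min_le_right _ _))
    have h2 := hGS ⟨ζ, hζ⟩
    have h3 := (hg ⟨ζ, hζ⟩).1
    simp only at h2
    have h4 : 0 ≤ (1 - η) * g ⟨ζ, hζ⟩ := mul_nonneg (by linarith) h3.1
    have h5 : (1 - η) * g ⟨ζ, hζ⟩ ≤ (1 - η) * 1 := mul_le_mul_of_nonneg_left h3.2 (by linarith)
    constructor <;> linarith [h1.1, h1.2]
  have hTball : ∀ ζ ∈ closedBall (0:ℂ) 1, 0 < (T.eval ζ).re ∧ (T.eval ζ).re < 1 := by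
    intro ζ hζ
    have h1 := poly_re_le one_pos (fun w hw => (hTS w hw).2) ζ hζ
    have h2 := poly_le_re one_pos (fun w hw => (hTS w hw).1) ζ hζ
    constructor <;> linarith
  have hdisc := hu.disc f (fun ζ => T.eval ζ) hf (fun z _ => hTd.analyticAt z) hTball
  have h0 := psi_le hu l (f 0) (t := (T.eval 0).re) (by
    have := hTball 0 (by simp)
    exact ⟨this.1.le, this.2.le⟩)
  have hmeanT : circleAverage (fun z => (T.eval z).re) 0 1 = (T.eval 0).re :=
    re_circleAverage' zero_le_one hTd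
  have hcu : ContinuousOn (fun ζ => u (f ζ) (T.eval ζ).re) S := by
    have : ContinuousOn (fun ζ => (f ζ, (T.eval ζ).re)) S := hfc.prodMk hTc.continuousOn
    exact hu.cont.comp_continuousOn this
  have hclT : ContinuousOn (fun ζ => l * (T.eval ζ).re) S := (continuous_const.mul hTc).continuousOn
  have hmeanlT : circleAverage (fun ζ => l * (T.eval ζ).re) 0 1 = l * (T.eval 0).re := by
    rw [← hmeanT]
    exact circleAverage_fun_smul (𝕜 := ℝ) (a := l) (f := fun ζ => (T.eval ζ).re)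
  have hstep : psi u l (f 0) ≤ circleAverage (fun ζ => u (f ζ) (T.eval ζ).re - l * (T.eval ζ).re) 0 1 := by
    rw [circleAverage_sub' zero_le_one hcu hclT, hmeanlT]
    linarith
  have hpcS : ContinuousOn (fun ζ => psi u l (f ζ)) S := hpc.comp_continuousOn hfc
  have hfin : circleAverage (fun ζ => u (f ζ) (T.eval ζ).re - l * (T.eval ζ).re) 0 1 ≤
      circleAverage (fun ζ => psi u l (f ζ) + ε) 0 1 := by
    have hd1 : ContinuousOn (fun ζ => u (f ζ) (T.eval ζ).re - l * (T.eval ζ).re) (sphere 0 1) :=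
      hcu.sub hclT
    have hd2 : ContinuousOn (fun ζ => psi u l (f ζ) + ε) (sphere 0 1) :=
      hpcS.add continuousOn_const
    apply circleAverage_mono' zero_le_one hd1 hd2
    intro ζ hζ
    show u (f ζ) (T.eval ζ).re - l * (T.eval ζ).re ≤ psi u l (f ζ) + ε
    have h3 := hg ⟨ζ, hζ⟩
    have h2 := hGS ⟨ζ, hζ⟩
    simp only at h2
    have h4 : G ζ ∈ Icc (0:ℝ) 1 := by
      rw [h2]
      have h4 : 0 ≤ (1 - η) * g ⟨ζ, hζ⟩ := mul_nonneg (by linarith) h3.1.1
      have h5 : (1 - η) * g ⟨ζ, hζ⟩ ≤ (1 - η) * 1 :=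
        mul_le_mul_of_nonneg_left h3.1.2 (by linarith)
      constructor <;> linarith
    have h5 : u (f ζ) (G ζ) - l * (G ζ) ≤
        (1 - η) * (u (f ζ) (g ⟨ζ, hζ⟩) - l * g ⟨ζ, hζ⟩) + η * (u (f ζ) (1/2) - l * (1/2)) := by
      have := (hu.convex' l (f ζ)).2 h3.1 (show (1/2:ℝ) ∈ Icc (0:ℝ) 1 by norm_num)
        (show 0 ≤ 1 - η by linarith) hη0.le (by ring)
      simp only [smul_eq_mul] at this
      have h6 : (1 - η) * g ⟨ζ, hζ⟩ + η * (1 / 2) = G ζ := by rw [h2]; ring
      rw [h6] at this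
      exact this
    have h7 : dist (T.eval ζ).re (G ζ) < δ := by
      rw [Real.dist_eq]
      exact lt_of_le_of_lt ((hT ζ hζ).trans (min_le_left _ _)) (by linarith)
    have h8 := hδ' (ζ, (T.eval ζ).re) ⟨hζ, ⟨(hTball ζ (sphere_subset_closedBall hζ)).1.le,
      (hTball ζ (sphere_subset_closedBall hζ)).2.le⟩⟩ (ζ, G ζ) ⟨hζ, h4⟩ (by
        rw [Prod.dist_eq]; simp only [dist_self]
        exact max_lt hδ h7)
    rw [Real.dist_eq] at h8
    have h9 := (abs_lt.1 h8).2
    simp only at h9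
    have h10 := hC' ζ hζ
    have h11 : u (f ζ) (g ⟨ζ, hζ⟩) - l * g ⟨ζ, hζ⟩ < psi u l (f ζ) + ε / 4 := h3.2
    have h12 : (1 - η) * (u (f ζ) (g ⟨ζ, hζ⟩) - l * g ⟨ζ, hζ⟩) ≤
        (1 - η) * (psi u l (f ζ) + ε / 4) :=
      mul_le_mul_of_nonneg_left h11.le (by linarith)
    have h13 : η * (u (f ζ) (1/2) - l * (1/2)) ≤ η * (psi u l (f ζ) + C0) :=
      mul_le_mul_of_nonneg_left h10 hη0.le
    nlinarith
  rw [circleAverage_add' zero_le_one hpcS continuousOn_const, circleAverage_const'] at hfin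
  linarith

theorem psi_discSub (hu : Geo u) (l : ℝ) : DiscSub (psi u l) :=
  ⟨psi_continuous hu l, fun _ hf => kiselman hu l hf⟩

end WG
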