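import Pool.Agent.Helper853.WG.Basic
import Pool.Agent.Helper853.WG.Defs
import Pool.Agent.Helper853.WG.Data

set_option autoImplicit false

open Complex Metric Set Real MeasureTheory

namespace WG

theorem j18337_sin_lip (a b : ℝ) : |Real.sin a - Real.sin b| ≤ |a - b| := by
  have h1 : Real.sin a - Real.sin b = 2 * Real.sin ((a - b) / 2) * Real.cos ((a + b) / 2) :=
    Real.sin_sub_sin a b
  rw [h1, abs_mul, abs_mul]
  have h2 : |Real.sin ((a - b) / 2)| ≤ |(a - b) / 2| := Real.abs_sin_le_abs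
  have h3 := Real.abs_cos_le_one ((a + b) / 2)
  rw [abs_div] at h2
  rw [abs_of_pos (by norm_num : (0:ℝ) < 2)] at *
  nlinarith [abs_nonneg (Real.sin ((a - b) / 2)), abs_nonneg (a - b)]

theorem j18337_cos_ge (s d : ℝ) :
    Real.cos s - d * Real.sin s - d ^ 2 / 2 ≤ Real.cos (s + d) := by
  have hd : ∀ x : ℝ, HasDerivAt (fun d : ℝ => Real.cos (s + d) + d * Real.sin s + d ^ 2 / 2)
      (-Real.sin (s + x) + Real.sin s + x) x := by
    intro x
    have h1 : HasDerivAt (fun d : ℝ => s + d) 1 x := (hasDerivAt_id x).const_add s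
    have h2 := h1.cos
    have h3 : HasDerivAt (fun d : ℝ => d * Real.sin s) (Real.sin s) x := by
      simpa using (hasDerivAt_id x).mul_const (Real.sin s)
    have h4 : HasDerivAt (fun d : ℝ => d ^ 2 / 2) x x := by
      have := ((hasDerivAt_id x).pow 2).div_const 2
      simpa using this
    exact ((h2.add h3).add h4).congr_deriv (by ring)
  have hc : Continuous (fun d : ℝ => Real.cos (s + d) + d * Real.sin s + d ^ 2 / 2) := by
    fun_prop
  rcases le_total 0 d with h | h
  · have hm : MonotoneOn (fun d : ℝ => Real.cos (s + d) + d * Real.sin s + d ^ 2 / 2) (Ici 0) := by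
      apply monotoneOn_of_deriv_nonneg (convex_Ici 0) hc.continuousOn
      · intro x _
        exact (hd x).differentiableAt.differentiableWithinAt
      · intro x hx
        rw [interior_Ici] at hx
        rw [(hd x).deriv]
        have h1 := j18337_sin_lip (s + x) s
        have hx' : (0:ℝ) < x := hx
        rw [add_sub_cancel_left, abs_of_pos hx'] at h1
        have h2 := abs_le.1 h1
        linarith [h2.2]
    have := hm (mem_Ici.2 le_rfl) (mem_Ici.2 h) h
    simp at this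
    linarith
  · have hm : AntitoneOn (fun d : ℝ => Real.cos (s + d) + d * Real.sin s + d ^ 2 / 2) (Iic 0) := by
      apply antitoneOn_of_deriv_nonpos (convex_Iic 0) hc.continuousOn
      · intro x _
        exact (hd x).differentiableAt.differentiableWithinAt
      · intro x hx
        rw [interior_Iic] at hx
        rw [(hd x).deriv]
        have h1 := j18337_sin_lip (s + x) s
        have hx' : x < (0:ℝ) := hx
        rw [add_sub_cancel_left, abs_of_neg hx'] at h1
        have h2 := abs_le.1 h1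
        linarith [h2.1]
    have := hm (mem_Iic.2 h) (mem_Iic.2 le_rfl) h
    simp at this
    linarith

theorem j18337_cos_le (s d : ℝ) :
    Real.cos (s + d) ≤ Real.cos s - d * Real.sin s + d ^ 2 / 2 := by
  have h := j18337_cos_ge (s + π) d
  rw [show s + π + d = (s + d) + π by ring, Real.cos_add_pi, Real.cos_add_pi, Real.sin_add_pi] at h
  linarith

theorem j18337_k1 (x x0 : ℝ) :
    13 / 8 * x0 ^ 2 + 3 / (4 * π ^ 2) * Real.cos (2 * π * x0) +
      (13 / 4 * x0 - 3 / (2 * π) * Real.sin (2 * π * x0)) * (x - x0) ≤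
    13 / 8 * x ^ 2 + 3 / (4 * π ^ 2) * Real.cos (2 * π * x) := by
  have h := j18337_cos_ge (2 * π * x0) (2 * π * (x - x0))
  rw [show 2 * π * x0 + 2 * π * (x - x0) = 2 * π * x by ring] at h
  have hpi : (0:ℝ) < π := Real.pi_pos
  have h2 : 0 ≤ 3 / (4 * π ^ 2) := by positivity
  have h3 := mul_le_mul_of_nonneg_left h h2
  have h4 : 3 / (4 * π ^ 2) * (Real.cos (2 * π * x0) - 2 * π * (x - x0) * Real.sin (2 * π * x0) -
      (2 * π * (x - x0)) ^ 2 / 2) = 3 / (4 * π ^ 2) * Real.cos (2 * π * x0) -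
      3 / (2 * π) * Real.sin (2 * π * x0) * (x - x0) - 3 / 2 * (x - x0) ^ 2 := by
    field_simp
    ring
  rw [h4] at h3
  nlinarith [sq_nonneg (x - x0)]

theorem j18337_k2 (y y0 : ℝ) :
    3 / 8 * y0 ^ 2 - 1 / (8 * π ^ 2) * Real.cos (2 * π * y0) +
      (3 / 4 * y0 + 1 / (4 * π) * Real.sin (2 * π * y0)) * (y - y0) ≤
    3 / 8 * y ^ 2 - 1 / (8 * π ^ 2) * Real.cos (2 * π * y) := by
  have h := j18337_cos_le (2 * π * y0) (2 * π * (y - y0))
  rw [show 2 * π * y0 + 2 * π * (y - y0) = 2 * π * y by ring] at h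
  have hpi : (0:ℝ) < π := Real.pi_pos
  have h2 : 0 ≤ 1 / (8 * π ^ 2) := by positivity
  have h3 := mul_le_mul_of_nonneg_left h h2
  have h4 : 1 / (8 * π ^ 2) * (Real.cos (2 * π * y0) - 2 * π * (y - y0) * Real.sin (2 * π * y0) +
      (2 * π * (y - y0)) ^ 2 / 2) = 1 / (8 * π ^ 2) * Real.cos (2 * π * y0) -
      1 / (4 * π) * Real.sin (2 * π * y0) * (y - y0) + 1 / 4 * (y - y0) ^ 2 := by
    field_simp
    ring
  rw [h4] at h3
  nlinarith [sq_nonneg (y - y0)]

theorem j18337_cont : Continuous (fun z : ℂ => ‖z‖ ^ 2 + phi1 z) := by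
  unfold phi1
  fun_prop

/-- TARGET -/
theorem phi1_discSub : DiscSub (fun z => ‖z‖ ^ 2 + phi1 z) := by
  refine ⟨j18337_cont, ?_⟩
  intro f hf
  set z0 := f 0 with hz0
  set m1 : ℝ := 13 / 4 * z0.re - 3 / (2 * π) * Real.sin (2 * π * z0.re) with hm1
  set m2 : ℝ := 3 / 4 * z0.im + 1 / (4 * π) * Real.sin (2 * π * z0.im) with hm2
  set C : ℝ := 13 / 8 * z0.re ^ 2 + 3 / (4 * π ^ 2) * Real.cos (2 * π * z0.re) +
    (3 / 8 * z0.im ^ 2 - 1 / (8 * π ^ 2) * Real.cos (2 * π * z0.im)) with hC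
  set Q : ℂ → ℂ := fun z => (C : ℂ) + m1 * (z - z0) - I * m2 * (z - z0) - 5 / 8 * z ^ 2 with hQ
  have hre : ∀ z : ℂ, (Q z).re = C + m1 * (z.re - z0.re) + m2 * (z.im - z0.im) -
      5 / 8 * (z.re ^ 2 - z.im ^ 2) := by
    intro z
    simp only [hQ, sub_re, add_re, mul_re, mul_im, I_re, I_im, ofReal_re, ofReal_im, sub_im,
      sq, div_ofNat_re, div_ofNat_im, re_ofNat, im_ofNat]
    ring
  have hn : ∀ z : ℂ, ‖z‖ ^ 2 = z.re ^ 2 + z.im ^ 2 := by
    intro z
    rw [← Complex.normSq_eq_norm_sq, Complex.normSq_apply]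
    ring
  have hle : ∀ z : ℂ, (Q z).re ≤ ‖z‖ ^ 2 + phi1 z := by
    intro z
    rw [hre, hn]
    unfold phi1
    have h1 := j18337_k1 z.re z0.re
    have h2 := j18337_k2 z.im z0.im
    rw [← hm1] at h1
    rw [← hm2] at h2
    rw [hC]
    linarith
  have heq : (Q z0).re = ‖z0‖ ^ 2 + phi1 z0 := by
    rw [hre, hn, hC]
    unfold phi1
    ring
  have hQd : Differentiable ℂ Q := by
    rw [hQ]
    fun_prop
  have hQf : AnalyticOnNhd ℂ (fun ζ => Q (f ζ)) (closedBall 0 1) := by
    intro ζ hζ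
    exact (hQd.analyticAt (f ζ)).comp (hf ζ hζ)
  have hfc : ContinuousOn f (sphere 0 1) := hf.continuousOn.mono sphere_subset_closedBall
  have hQc : ContinuousOn (fun ζ => (Q (f ζ)).re) (sphere 0 1) :=
    continuous_re.comp_continuousOn (hQf.continuousOn.mono sphere_subset_closedBall)
  have h1 : circleAverage (fun ζ => (Q (f ζ)).re) 0 1 = (Q (f 0)).re :=
    re_circleAverage zero_le_one hQf
  have h2 : circleAverage (fun ζ => (Q (f ζ)).re) 0 1 ≤
      circleAverage (fun ζ => ‖f ζ‖ ^ 2 + phi1 (f ζ)) 0 1 :=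
    circleAverage_mono' zero_le_one hQc (j18337_cont.comp_continuousOn hfc)
      (fun z _ => hle (f z))
  rw [h1, ← hz0, heq] at h2
  exact h2

end WG
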