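import Pool.Agent.Helper853.WG.Comp

set_option autoImplicit false

open Complex Metric Set Real MeasureTheory

namespace WG

theorem geo_cann_compact (a b : ℝ) : IsCompact (cann a b) := by
  have h1 : IsClosed (cann a b) := by
    have : cann a b = {σ : ℂ | a ≤ ‖σ‖} ∩ {σ : ℂ | ‖σ‖ ≤ b} := rfl
    rw [this]
    exact (isClosed_le continuous_const continuous_norm).inter
      (isClosed_le continuous_norm continuous_const)
  refine (isCompact_closedBall (0:ℂ) b).of_isClosed_subset h1 ?_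
  intro σ hσ
  simpa using hσ.2

/-- helper: boundedness by periodicity -/
theorem geo_bdd {a b : ℝ} (ha : 0 < a) (hab : a < b) {φ₁ φ₂ : ℂ → ℝ} {φ : ℂ → ℂ → ℝ}
    (hφ : IsWeakGeodesic a b φ₁ φ₂ φ) :
    ∃ M, ∀ z : ℂ, ∀ σ ∈ cann a b, |φ z σ| ≤ M := by
  have hK : IsCompact ((closedBall (0:ℂ) 2) ×ˢ cann a b) :=
    (isCompact_closedBall (0:ℂ) 2).prod (geo_cann_compact a b)
  have hc : ContinuousOn (fun p : ℂ × ℂ => φ p.1 p.2) ((closedBall (0:ℂ) 2) ×ˢ cann a b) :=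
    hφ.cont.mono (Set.prod_mono (subset_univ _) subset_rfl)
  obtain ⟨M, hM⟩ := hK.exists_bound_of_continuousOn hc
  refine ⟨M, fun z σ hσ => ?_⟩
  have h1 := hφ.periodic (z - ((⌊z.re⌋ : ℤ) + (⌊z.im⌋ : ℤ) * I)) σ hσ ⌊z.re⌋ ⌊z.im⌋
  rw [sub_add_cancel] at h1
  rw [h1]
  have h2 : (z - ((⌊z.re⌋ : ℤ) + (⌊z.im⌋ : ℤ) * I)) ∈ closedBall (0:ℂ) 2 := by
    rw [mem_closedBall, dist_zero_right]
    refine (Complex.norm_le_abs_re_add_abs_im _).trans ?_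
    have e1 : (z - ((⌊z.re⌋ : ℤ) + (⌊z.im⌋ : ℤ) * I)).re = Int.fract z.re := by
      simp
    have e2 : (z - ((⌊z.re⌋ : ℤ) + (⌊z.im⌋ : ℤ) * I)).im = Int.fract z.im := by
      simp
    rw [e1, e2, abs_of_nonneg (Int.fract_nonneg _), abs_of_nonneg (Int.fract_nonneg _)]
    have := (Int.fract_lt_one z.re).le
    have := (Int.fract_lt_one z.im).le
    linarith
  have := hM (_, σ) (Set.mk_mem_prod h2 hσ)
  simpa [Real.norm_eq_abs] using this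

theorem geo_cont_u {a b : ℝ} {φ₁ φ₂ : ℂ → ℝ} {φ : ℂ → ℂ → ℝ}
    (hφ : IsWeakGeodesic a b φ₁ φ₂ φ) :
    ContinuousOn (fun p : ℂ × ℂ => ‖p.1‖ ^ 2 + φ p.1 p.2) (univ ×ˢ cann a b) := by
  refine ContinuousOn.add ?_ hφ.cont
  exact (by fun_prop : Continuous (fun p : ℂ × ℂ => ‖p.1‖ ^ 2)).continuousOn

theorem geo_rot_le {a b : ℝ} (ha : 0 < a) (hab : a < b) {φ₁ φ₂ : ℂ → ℝ} {φ : ℂ → ℂ → ℝ}
    (hφ : IsWeakGeodesic a b φ₁ φ₂ φ) {c : ℂ} (hc : ‖c‖ = 1) :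
    ∀ z : ℂ, ∀ σ ∈ cann a b, φ z (c * σ) ≤ φ z σ := by
  obtain ⟨M, hM⟩ := geo_bdd ha hab hφ
  have hmaps : MapsTo (fun p : ℂ × ℂ => (p.1, c * p.2)) (univ ×ˢ cann a b) (univ ×ˢ cann a b) := by
    intro p hp
    refine ⟨mem_univ _, ?_⟩
    have := hp.2
    simpa [cann, norm_mul, hc] using this
  have hmaps' : MapsTo (fun p : ℂ × ℂ => (p.1, c * p.2)) (univ ×ˢ ann a b) (univ ×ˢ ann a b) := by
    intro p hp
    refine ⟨mem_univ _, ?_⟩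
    have := hp.2
    simpa [ann, norm_mul, hc] using this
  have hcont : Continuous (fun p : ℂ × ℂ => (p.1, c * p.2)) := by fun_prop
  have hv : ContinuousOn (fun p : ℂ × ℂ => ‖p.1‖ ^ 2 + φ p.1 (c * p.2)) (univ ×ˢ cann a b) :=
    (geo_cont_u hφ).comp hcont.continuousOn hmaps
  have hvp : PSHOn (univ ×ˢ ann a b) (fun p : ℂ × ℂ => ‖p.1‖ ^ 2 + φ p.1 (c * p.2)) := by
    refine ⟨hφ.psh.1.comp hcont.continuousOn hmaps', ?_⟩
    intro f g hf hg hfg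
    have := hφ.psh.2 f (fun ζ => c * g ζ) hf (fun ζ hζ => analyticAt_const.mul (hg ζ hζ))
      (fun ζ hζ => hmaps' (hfg ζ hζ))
    exact this
  have key := comparison ha hab (u := fun p : ℂ × ℂ => ‖p.1‖ ^ 2 + φ p.1 p.2)
    (v := fun p : ℂ × ℂ => ‖p.1‖ ^ 2 + φ p.1 (c * p.2)) (geo_cont_u hφ) hv hvp hφ.maximal
    (M := M) (N := M)
    (fun p hp => by
      have := (abs_le.1 (hM p.1 p.2 hp.2)).1
      show ‖p.1‖ ^ 2 - M ≤ ‖p.1‖ ^ 2 + φ p.1 p.2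
      linarith)
    (fun p hp => by
      have := (abs_le.1 (hM p.1 (c * p.2) (hmaps hp).2)).2
      show ‖p.1‖ ^ 2 + φ p.1 (c * p.2) ≤ ‖p.1‖ ^ 2 + M
      linarith)
    (fun z σ h => by
      show ‖z‖ ^ 2 + φ z (c * σ) ≤ ‖z‖ ^ 2 + φ z σ
      have hn : ‖c * σ‖ = ‖σ‖ := by rw [norm_mul, hc, one_mul]
      rcases h with h | h
      · rw [hφ.left z (c * σ) (hn.trans h), hφ.left z σ h]
      · rw [hφ.right z (c * σ) (hn.trans h), hφ.right z σ h])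
  intro z σ hσ
  have := key (z, σ) ⟨mem_univ _, hσ⟩
  simpa using this

theorem geo_rot {a b : ℝ} (ha : 0 < a) (hab : a < b) {φ₁ φ₂ : ℂ → ℝ} {φ : ℂ → ℂ → ℝ}
    (hφ : IsWeakGeodesic a b φ₁ φ₂ φ) {c : ℂ} (hc : ‖c‖ = 1) :
    ∀ z : ℂ, ∀ σ ∈ cann a b, φ z (c * σ) = φ z σ := by
  intro z σ hσ
  refine le_antisymm (geo_rot_le ha hab hφ hc z σ hσ) ?_
  have hc0 : c ≠ 0 := by
    intro h
    rw [h] at hc
    simp at hc
  have hσ' : c * σ ∈ cann a b := by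
    simpa [cann, norm_mul, hc] using hσ
  have hci : ‖c⁻¹‖ = 1 := by rw [norm_inv, hc, inv_one]
  have := geo_rot_le ha hab hφ hci z (c * σ) hσ'
  rwa [inv_mul_cancel_left₀ hc0] at this

theorem geo_even_le {a b : ℝ} (ha : 0 < a) (hab : a < b) {φ₁ : ℂ → ℝ} {φ : ℂ → ℂ → ℝ}
    (h1 : Pot φ₁) (hφ : IsWeakGeodesic a b φ₁ (fun z => φ₁ (I * z)) φ) :
    ∀ z : ℂ, ∀ σ ∈ cann a b, φ (-z) σ ≤ φ z σ := by
  obtain ⟨M, hM⟩ := geo_bdd ha hab hφ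
  have hmaps : MapsTo (fun p : ℂ × ℂ => (-p.1, p.2)) (univ ×ˢ cann a b) (univ ×ˢ cann a b) := by
    intro p hp
    exact ⟨mem_univ _, hp.2⟩
  have hmaps' : MapsTo (fun p : ℂ × ℂ => (-p.1, p.2)) (univ ×ˢ ann a b) (univ ×ˢ ann a b) := by
    intro p hp
    exact ⟨mem_univ _, hp.2⟩
  have hcont : Continuous (fun p : ℂ × ℂ => (-p.1, p.2)) := by fun_prop
  have hv : ContinuousOn (fun p : ℂ × ℂ => ‖-p.1‖ ^ 2 + φ (-p.1) p.2) (univ ×ˢ cann a b) :=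
    (geo_cont_u hφ).comp hcont.continuousOn hmaps
  have hvp : PSHOn (univ ×ˢ ann a b) (fun p : ℂ × ℂ => ‖-p.1‖ ^ 2 + φ (-p.1) p.2) := by
    refine ⟨hφ.psh.1.comp hcont.continuousOn hmaps', ?_⟩
    intro f g hf hg hfg
    have := hφ.psh.2 (fun ζ => - f ζ) g (fun ζ hζ => (hf ζ hζ).neg) hg
      (fun ζ hζ => hmaps' (hfg ζ hζ))
    exact this
  have key := comparison ha hab (u := fun p : ℂ × ℂ => ‖p.1‖ ^ 2 + φ p.1 p.2)
    (v := fun p : ℂ × ℂ => ‖-p.1‖ ^ 2 + φ (-p.1) p.2) (geo_cont_u hφ) hv hvp hφ.maximal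
    (M := M) (N := M)
    (fun p hp => by
      have := (abs_le.1 (hM p.1 p.2 hp.2)).1
      show ‖p.1‖ ^ 2 - M ≤ ‖p.1‖ ^ 2 + φ p.1 p.2
      linarith)
    (fun p hp => by
      have := (abs_le.1 (hM (-p.1) p.2 hp.2)).2
      show ‖-p.1‖ ^ 2 + φ (-p.1) p.2 ≤ ‖p.1‖ ^ 2 + M
      rw [norm_neg]
      linarith)
    (fun z σ h => by
      show ‖-z‖ ^ 2 + φ (-z) σ ≤ ‖z‖ ^ 2 + φ z σ
      rw [norm_neg]
      rcases h with h | h
      · rw [hφ.left (-z) σ h, hφ.left z σ h, h1.even]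
      · rw [hφ.right (-z) σ h, hφ.right z σ h]
        have : I * -z = -(I * z) := by ring
        simp only [this, h1.even]
        exact le_rfl)
  intro z σ hσ
  have := key (z, σ) ⟨mem_univ _, hσ⟩
  simpa using this

theorem geo_even {a b : ℝ} (ha : 0 < a) (hab : a < b) {φ₁ : ℂ → ℝ} {φ : ℂ → ℂ → ℝ}
    (h1 : Pot φ₁) (hφ : IsWeakGeodesic a b φ₁ (fun z => φ₁ (I * z)) φ) :
    ∀ z : ℂ, ∀ σ ∈ cann a b, φ (-z) σ = φ z σ := by
  intro z σ hσ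
  refine le_antisymm (geo_even_le ha hab h1 hφ z σ hσ) ?_
  have := geo_even_le ha hab h1 hφ (-z) σ hσ
  rwa [neg_neg] at this


end WG
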