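import Pool.Agent.Helper853.WG.SymA

set_option autoImplicit false

open Complex Metric Set Real MeasureTheory

namespace WG

theorem ann_sub_cann {a b : ℝ} : ann a b ⊆ cann a b := fun _ h => ⟨h.1.le, h.2.le⟩

theorem inv_norm {a b : ℝ} (ha : 0 < a) (hab : a < b) {σ : ℂ} (_hσ : 0 < ‖σ‖) :
    ‖(a * b / σ : ℂ)‖ = a * b / ‖σ‖ := by
  rw [norm_div, norm_mul, Complex.norm_real, Complex.norm_real, Real.norm_of_nonneg ha.le,
    Real.norm_of_nonneg (ha.trans hab).le]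

theorem inv_cann {a b : ℝ} (ha : 0 < a) (hab : a < b) {σ : ℂ} (h : σ ∈ cann a b) :
    (a * b / σ : ℂ) ∈ cann a b := by
  have h0 : 0 < ‖σ‖ := ha.trans_le h.1
  have hb : 0 < b := ha.trans hab
  constructor
  · rw [inv_norm ha hab h0, le_div_iff₀ h0]
    exact mul_le_mul_of_nonneg_left h.2 ha.le
  · rw [inv_norm ha hab h0, div_le_iff₀ h0, mul_comm]
    exact mul_le_mul_of_nonneg_left h.1 hb.le

theorem inv_ann {a b : ℝ} (ha : 0 < a) (hab : a < b) {σ : ℂ} (h : σ ∈ ann a b) :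
    (a * b / σ : ℂ) ∈ ann a b := by
  have h0 : 0 < ‖σ‖ := ha.trans h.1
  have hb : 0 < b := ha.trans hab
  constructor
  · rw [inv_norm ha hab h0, lt_div_iff₀ h0]
    exact mul_lt_mul_of_pos_left h.2 ha
  · rw [inv_norm ha hab h0, div_lt_iff₀ h0, mul_comm]
    exact mul_lt_mul_of_pos_left h.1 hb

theorem ne_of_cann {a b : ℝ} (ha : 0 < a) {σ : ℂ} (h : σ ∈ cann a b) : σ ≠ 0 := by
  intro h0
  have := h.1
  rw [h0, norm_zero] at this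
  linarith

theorem norm_I_mul (z : ℂ) : ‖I * z‖ = ‖z‖ := by rw [norm_mul, Complex.norm_I, one_mul]

theorem geo_ineq {a b : ℝ} (ha : 0 < a) (hab : a < b) {φ₁ : ℂ → ℝ} {φ : ℂ → ℂ → ℝ}
    (h1 : Pot φ₁) (hφ : IsWeakGeodesic a b φ₁ (fun z => φ₁ (I * z)) φ) :
    ∀ z : ℂ, ∀ σ ∈ cann a b, φ (I * z) (a * b / σ) ≤ φ z σ := by
  obtain ⟨M, hM⟩ := geo_bdd ha hab hφ
  have hmap : ContinuousOn (fun p : ℂ × ℂ => ((I * p.1, (a * b / p.2 : ℂ)) : ℂ × ℂ))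
      ((univ : Set ℂ) ×ˢ cann a b) := by
    refine ContinuousOn.prodMk (by fun_prop) ?_
    refine ContinuousOn.div (by fun_prop) (by fun_prop) ?_
    intro p hp
    exact ne_of_cann ha hp.2
  have hv : ContinuousOn (fun p : ℂ × ℂ => ‖p.1‖ ^ 2 + φ (I * p.1) (a * b / p.2))
      ((univ : Set ℂ) ×ˢ cann a b) := by
    refine ContinuousOn.add (by fun_prop) ?_
    exact hφ.cont.comp hmap fun p hp => ⟨mem_univ _, inv_cann ha hab hp.2⟩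
  have hu : ContinuousOn (fun p : ℂ × ℂ => ‖p.1‖ ^ 2 + φ p.1 p.2)
      ((univ : Set ℂ) ×ˢ cann a b) :=
    ContinuousOn.add (by fun_prop) hφ.cont
  have hpsh : PSHOn (univ ×ˢ ann a b) (fun p : ℂ × ℂ => ‖p.1‖ ^ 2 + φ (I * p.1) (a * b / p.2)) := by
    refine ⟨hv.mono (prod_mono subset_rfl ann_sub_cann), ?_⟩
    intro f g hf hg hfg
    have hg' : AnalyticOnNhd ℂ (fun ζ => (a * b / g ζ : ℂ)) (closedBall 0 1) := by
      refine AnalyticOnNhd.div analyticOnNhd_const hg fun ζ hζ => ?_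
      exact ne_of_cann ha (ann_sub_cann (hfg ζ hζ).2)
    have hf' : AnalyticOnNhd ℂ (fun ζ => I * f ζ) (closedBall 0 1) :=
      analyticOnNhd_const.mul hf
    have := hφ.psh.2 (fun ζ => I * f ζ) (fun ζ => (a * b / g ζ : ℂ)) hf' hg'
      (fun ζ hζ => ⟨mem_univ _, inv_ann ha hab (hfg ζ hζ).2⟩)
    simp only [norm_I_mul] at this
    exact this
  have key := comparison ha hab (u := fun p => ‖p.1‖ ^ 2 + φ p.1 p.2)
    (v := fun p => ‖p.1‖ ^ 2 + φ (I * p.1) (a * b / p.2)) hu hv hpsh hφ.maximal (M := M)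
    (fun p hp => by
      have := abs_le.1 (hM p.1 p.2 hp.2)
      show ‖p.1‖ ^ 2 - M ≤ ‖p.1‖ ^ 2 + φ p.1 p.2
      linarith [this.1]) (N := M)
    (fun p hp => by
      have := abs_le.1 (hM (I * p.1) (a * b / p.2) (inv_cann ha hab hp.2))
      show ‖p.1‖ ^ 2 + φ (I * p.1) (a * b / p.2) ≤ ‖p.1‖ ^ 2 + M
      linarith [this.2])
    (by
      intro z σ hσ
      show ‖z‖ ^ 2 + φ (I * z) (a * b / σ) ≤ ‖z‖ ^ 2 + φ z σ
      have hb : 0 < b := ha.trans hab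
      rcases hσ with hσ | hσ
      · have h2 : ‖(a * b / σ : ℂ)‖ = b := by
          rw [inv_norm ha hab (by rw [hσ]; exact ha), hσ]; field_simp
        rw [hφ.right _ _ h2, hφ.left _ _ hσ]
        have h3 : I * (I * z) = -z := by rw [← mul_assoc, Complex.I_mul_I]; ring
        rw [h3, h1.even]
      · have h2 : ‖(a * b / σ : ℂ)‖ = a := by
          rw [inv_norm ha hab (by rw [hσ]; exact hb), hσ]; field_simp
        rw [hφ.left _ _ h2, hφ.right _ _ hσ])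
  intro z σ hσ
  have := key (z, σ) ⟨mem_univ _, hσ⟩
  have h5 : ‖z‖ ^ 2 + φ (I * z) (a * b / σ) ≤ ‖z‖ ^ 2 + φ z σ := this
  linarith

theorem geo_symm {a b : ℝ} (ha : 0 < a) (hab : a < b) {φ₁ : ℂ → ℝ} {φ : ℂ → ℂ → ℝ}
    (h1 : Pot φ₁) (hφ : IsWeakGeodesic a b φ₁ (fun z => φ₁ (I * z)) φ) :
    ∀ z : ℂ, ∀ σ ∈ cann a b, φ (I * z) (a * b / σ) = φ z σ := by
  have key := geo_ineq ha hab h1 hφ
  have hinv : ∀ σ ∈ cann a b, (a * b / (a * b / σ) : ℂ) = σ := by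
    intro σ hσ
    have hab0 : ((a : ℂ) * b) ≠ 0 := by
      have hb : 0 < b := ha.trans hab
      have h1 : (a : ℂ) ≠ 0 := by exact_mod_cast ha.ne'
      have h2 : (b : ℂ) ≠ 0 := by exact_mod_cast hb.ne'
      exact mul_ne_zero h1 h2
    exact div_div_cancel₀ hab0
  have h3 : ∀ z : ℂ, I * (I * z) = -z := fun z => by rw [← mul_assoc, Complex.I_mul_I]; ring
  have step : ∀ z : ℂ, ∀ σ ∈ cann a b, φ (-z) σ ≤ φ (I * z) (a * b / σ) := by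
    intro z σ hσ
    have := key (I * z) (a * b / σ) (inv_cann ha hab hσ)
    rwa [hinv σ hσ, h3] at this
  intro z σ hσ
  have e1 := key z σ hσ
  have e2 := step z σ hσ
  have e3 := key (-z) σ hσ
  have e4 := step (-z) σ hσ
  rw [neg_neg] at e4
  linarith

theorem geo_semi {a b : ℝ} (ha : 0 < a) (hab : a < b) {φ₁ : ℂ → ℝ} {φ : ℂ → ℂ → ℝ}
    (h1 : Pot φ₁) (hφ : IsWeakGeodesic a b φ₁ (fun z => φ₁ (I * z)) φ) :
    ∀ z w : ℂ, ∀ σ ∈ cann a b, φ (z + w) σ + φ (z - w) σ - 2 * φ z σ ≤ 4 * ‖w‖ ^ 2 := by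
  obtain ⟨M, hM⟩ := geo_bdd ha hab hφ
  intro z₀ w σ₀ hσ₀
  have hpar : ∀ z : ℂ, ‖z + w‖ ^ 2 + ‖z - w‖ ^ 2 = 2 * (‖z‖ ^ 2 + ‖w‖ ^ 2) := by
    intro z
    have := parallelogram_law_with_norm ℝ z w
    nlinarith [this]
  have hc1 : ContinuousOn (fun p : ℂ × ℂ => φ (p.1 + w) p.2) ((univ : Set ℂ) ×ˢ cann a b) := by
    have hm : ContinuousOn (fun p : ℂ × ℂ => ((p.1 + w, p.2) : ℂ × ℂ))
      ((univ : Set ℂ) ×ˢ cann a b) := by fun_prop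
    exact hφ.cont.comp hm fun p hp => ⟨mem_univ _, hp.2⟩
  have hc2 : ContinuousOn (fun p : ℂ × ℂ => φ (p.1 - w) p.2) ((univ : Set ℂ) ×ˢ cann a b) := by
    have hm : ContinuousOn (fun p : ℂ × ℂ => ((p.1 - w, p.2) : ℂ × ℂ))
      ((univ : Set ℂ) ×ˢ cann a b) := by fun_prop
    exact hφ.cont.comp hm fun p hp => ⟨mem_univ _, hp.2⟩
  have hv : ContinuousOn (fun p : ℂ × ℂ => ‖p.1‖ ^ 2 +
      (φ (p.1 + w) p.2 + φ (p.1 - w) p.2) / 2 - 2 * ‖w‖ ^ 2) ((univ : Set ℂ) ×ˢ cann a b) := by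
    refine ContinuousOn.sub (ContinuousOn.add (by fun_prop) ?_) continuousOn_const
    exact (hc1.add hc2).div_const 2
  have hu : ContinuousOn (fun p : ℂ × ℂ => ‖p.1‖ ^ 2 + φ p.1 p.2)
      ((univ : Set ℂ) ×ˢ cann a b) :=
    ContinuousOn.add (by fun_prop) hφ.cont
  have hpsh : PSHOn (univ ×ˢ ann a b) (fun p : ℂ × ℂ => ‖p.1‖ ^ 2 +
      (φ (p.1 + w) p.2 + φ (p.1 - w) p.2) / 2 - 2 * ‖w‖ ^ 2) := by
    refine ⟨hv.mono (prod_mono subset_rfl ann_sub_cann), ?_⟩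
    intro f g hf hg hfg
    have hfp : AnalyticOnNhd ℂ (fun ζ => f ζ + w) (closedBall 0 1) := hf.add analyticOnNhd_const
    have hfm : AnalyticOnNhd ℂ (fun ζ => f ζ - w) (closedBall 0 1) := hf.sub analyticOnNhd_const
    have i1 := hφ.psh.2 (fun ζ => f ζ + w) g hfp hg (fun ζ hζ => ⟨mem_univ _, (hfg ζ hζ).2⟩)
    have i2 := hφ.psh.2 (fun ζ => f ζ - w) g hfm hg (fun ζ hζ => ⟨mem_univ _, (hfg ζ hζ).2⟩)
    have hcont : ∀ F : ℂ → ℂ, AnalyticOnNhd ℂ F (closedBall 0 1) →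
        CircleIntegrable (fun ζ => ‖F ζ‖ ^ 2 + φ (F ζ) (g ζ)) 0 1 := by
      intro F hF
      apply ContinuousOn.circleIntegrable zero_le_one
      have hsub : sphere (0 : ℂ) 1 ⊆ closedBall 0 1 := sphere_subset_closedBall
      have hFc : ContinuousOn F (sphere 0 1) := hF.continuousOn.mono hsub
      have hgc : ContinuousOn g (sphere 0 1) := hg.continuousOn.mono hsub
      refine ContinuousOn.add (hFc.norm.pow 2) ?_
      exact hφ.cont.comp (hFc.prodMk hgc) fun ζ hζ =>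
        ⟨mem_univ _, ann_sub_cann (hfg ζ (hsub hζ)).2⟩
    have I1 := hcont _ hfp
    have I2 := hcont _ hfm
    have hfun : (fun ζ => ‖f ζ‖ ^ 2 + (φ (f ζ + w) (g ζ) + φ (f ζ - w) (g ζ)) / 2 - 2 * ‖w‖ ^ 2) =
        (1 / 2 : ℝ) • ((fun ζ => ‖f ζ + w‖ ^ 2 + φ (f ζ + w) (g ζ)) +
          (fun ζ => ‖f ζ - w‖ ^ 2 + φ (f ζ - w) (g ζ))) + (fun _ : ℂ => (-3 * ‖w‖ ^ 2 : ℝ)) := by
      funext ζ
      have := hpar (f ζ)
      simp only [Pi.add_apply, Pi.smul_apply, smul_eq_mul]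
      linarith
    have havg : circleAverage (fun ζ => ‖f ζ‖ ^ 2 +
        (φ (f ζ + w) (g ζ) + φ (f ζ - w) (g ζ)) / 2 - 2 * ‖w‖ ^ 2) 0 1 =
        (circleAverage (fun ζ => ‖f ζ + w‖ ^ 2 + φ (f ζ + w) (g ζ)) 0 1 +
          circleAverage (fun ζ => ‖f ζ - w‖ ^ 2 + φ (f ζ - w) (g ζ)) 0 1) / 2 - 3 * ‖w‖ ^ 2 := by
      rw [hfun]
      have hi : CircleIntegrable ((1 / 2 : ℝ) • ((fun ζ => ‖f ζ + w‖ ^ 2 + φ (f ζ + w) (g ζ)) +
          (fun ζ => ‖f ζ - w‖ ^ 2 + φ (f ζ - w) (g ζ)))) 0 1 := (I1.add I2).const_smul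
      have hic : CircleIntegrable (fun _ : ℂ => (-3 * ‖w‖ ^ 2 : ℝ)) 0 1 :=
        circleIntegrable_const _ _ _
      have h1 := circleAverage_add hi hic
      have h2 : circleAverage ((1 / 2 : ℝ) • ((fun ζ => ‖f ζ + w‖ ^ 2 + φ (f ζ + w) (g ζ)) +
          (fun ζ => ‖f ζ - w‖ ^ 2 + φ (f ζ - w) (g ζ)))) 0 1 = _ := circleAverage_smul
      have h3 := circleAverage_add I1 I2
      rw [h3] at h2
      rw [h2, circleAverage_const] at h1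
      refine h1.trans ?_
      rw [smul_eq_mul]
      ring
    have hp0 := hpar (f 0)
    show ‖f 0‖ ^ 2 + (φ (f 0 + w) (g 0) + φ (f 0 - w) (g 0)) / 2 - 2 * ‖w‖ ^ 2 ≤
      circleAverage (fun ζ => ‖f ζ‖ ^ 2 +
        (φ (f ζ + w) (g ζ) + φ (f ζ - w) (g ζ)) / 2 - 2 * ‖w‖ ^ 2) 0 1
    rw [havg]
    have i1' : ‖f 0 + w‖ ^ 2 + φ (f 0 + w) (g 0) ≤
      circleAverage (fun ζ => ‖f ζ + w‖ ^ 2 + φ (f ζ + w) (g ζ)) 0 1 := i1
    have i2' : ‖f 0 - w‖ ^ 2 + φ (f 0 - w) (g 0) ≤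
      circleAverage (fun ζ => ‖f ζ - w‖ ^ 2 + φ (f ζ - w) (g ζ)) 0 1 := i2
    linarith
  have key := comparison ha hab (u := fun p => ‖p.1‖ ^ 2 + φ p.1 p.2)
    (v := fun p => ‖p.1‖ ^ 2 + (φ (p.1 + w) p.2 + φ (p.1 - w) p.2) / 2 - 2 * ‖w‖ ^ 2)
    hu hv hpsh hφ.maximal (M := M)
    (fun p hp => by
      have := abs_le.1 (hM p.1 p.2 hp.2)
      show ‖p.1‖ ^ 2 - M ≤ ‖p.1‖ ^ 2 + φ p.1 p.2
      linarith [this.1]) (N := M)
    (fun p hp => by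
      have e1 := (abs_le.1 (hM (p.1 + w) p.2 hp.2)).2
      have e2 := (abs_le.1 (hM (p.1 - w) p.2 hp.2)).2
      show ‖p.1‖ ^ 2 + (φ (p.1 + w) p.2 + φ (p.1 - w) p.2) / 2 - 2 * ‖w‖ ^ 2 ≤ ‖p.1‖ ^ 2 + M
      nlinarith [sq_nonneg ‖w‖])
    (by
      intro z σ hσ
      show ‖z‖ ^ 2 + (φ (z + w) σ + φ (z - w) σ) / 2 - 2 * ‖w‖ ^ 2 ≤ ‖z‖ ^ 2 + φ z σ
      rcases hσ with hσ | hσ
      · rw [hφ.left _ _ hσ, hφ.left _ _ hσ, hφ.left _ _ hσ]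
        have := h1.semi z w
        linarith
      · rw [hφ.right _ _ hσ, hφ.right _ _ hσ, hφ.right _ _ hσ]
        have := h1.semi (I * z) (I * w)
        rw [norm_I_mul] at this
        simp only [mul_add, mul_sub]
        linarith)
  have h5 : ‖z₀‖ ^ 2 + (φ (z₀ + w) σ₀ + φ (z₀ - w) σ₀) / 2 - 2 * ‖w‖ ^ 2 ≤ ‖z₀‖ ^ 2 + φ z₀ σ₀ :=
    key (z₀, σ₀) ⟨mem_univ _, hσ₀⟩
  linarith

end WG
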