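import Pool.Agent.Helper853.WG.EnvDefs

set_option autoImplicit false

open Complex Metric Set Real MeasureTheory

namespace WG

/-- `tt` near a point differs from its value by the real part of a holomorphic function -/
theorem slice_tt {a b : ℝ} (ha : 0 < a) {σ w : ℂ} (hσ : σ ≠ 0) (hw : w ≠ 0) :
    tt a b w = tt a b σ + (Complex.log (w / σ)).re / Real.log (b / a) := by
  have h1 : 0 < ‖σ‖ := norm_pos_iff.2 hσ
  have h2 : 0 < ‖w‖ := norm_pos_iff.2 hw
  rw [Complex.log_re, norm_div, Real.log_div h2.ne' h1.ne']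
  unfold tt
  rw [Real.log_div h2.ne' ha.ne', Real.log_div h1.ne' ha.ne']
  ring

/-- mean value property of `Wup` in the second variable -/
theorem slice_mean {a b : ℝ} (ha : 0 < a) (h₁ h₂ : ℂ → ℝ) (z σ : ℂ) {r : ℝ} (hr : 0 < r)
    (hrs : r < ‖σ‖) :
    circleAverage (fun w => Wup a b h₁ h₂ (z, w)) σ r = Wup a b h₁ h₂ (z, σ) := by
  have hσ : σ ≠ 0 := by
    intro h; rw [h, norm_zero] at hrs; linarith
  have hslit : ∀ w ∈ closedBall σ r, w / σ ∈ Complex.slitPlane := by
    intro w hw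
    rw [mem_closedBall, dist_eq_norm] at hw
    have h1 : w / σ = 1 + (w - σ) / σ := by field_simp; ring
    rw [h1]
    apply Complex.mem_slitPlane_of_norm_lt_one
    rw [norm_div, div_lt_one (norm_pos_iff.2 hσ)]
    linarith
  set f : ℂ → ℂ := fun w => ((Wup a b h₁ h₂ (z, σ) : ℝ) : ℂ) +
    (((h₂ z - h₁ z) / Real.log (b / a) : ℝ) : ℂ) * Complex.log (w / σ) with hf
  have hfan : AnalyticOnNhd ℂ f (closedBall σ r) := by
    intro w hw
    rw [hf]
    refine analyticAt_const.add (analyticAt_const.mul ?_)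
    exact (analyticAt_id.div analyticAt_const hσ).clog (hslit w hw)
  have h2 := re_circleAverage hr.le hfan
  have h3 : (f σ).re = Wup a b h₁ h₂ (z, σ) := by
    rw [hf]
    simp only [div_self hσ, Complex.log_one, mul_zero, add_zero, Complex.ofReal_re]
  rw [h3] at h2
  rw [← h2]
  apply circleAverage_congr_sphere
  intro w hw
  rw [abs_of_pos hr] at hw
  have hw' : w ∈ closedBall σ r := sphere_subset_closedBall hw
  have hw0 : w ≠ 0 := by
    intro h
    have := Complex.slitPlane_ne_zero (hslit w hw')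
    rw [h, zero_div] at this
    exact this rfl
  have e1 : (f w).re = Wup a b h₁ h₂ (z, σ) +
      (h₂ z - h₁ z) / Real.log (b / a) * (Complex.log (w / σ)).re := by
    rw [hf]
    simp only [Complex.add_re, Complex.ofReal_re, Complex.re_ofReal_mul]
  simp only
  rw [e1]
  unfold Wup
  simp only
  rw [slice_tt ha hσ hw0]
  ring

theorem slice_Wcont {a b : ℝ} (ha : 0 < a) (h₁ h₂ : ℂ → ℝ) (z : ℂ) {C : Set ℂ}
    (hC : ∀ σ ∈ C, σ ≠ 0) : ContinuousOn (fun w => Wup a b h₁ h₂ (z, w)) C := by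
  have h1 : ContinuousOn (fun w => tt a b w) C := by
    unfold tt
    refine ContinuousOn.div_const ?_ _
    refine ContinuousOn.log (continuous_norm.continuousOn.div_const a) ?_
    intro w hw
    exact (div_pos (norm_pos_iff.2 (hC w hw)) ha).ne'
  have h2 : ContinuousOn (fun w => (1 - tt a b w) * h₁ z + tt a b w * h₂ z) C := by fun_prop
  exact h2

theorem slice_le {a b : ℝ} (ha : 0 < a) (hab : a < b) {h₁ h₂ : ℂ → ℝ} {v : ℂ × ℂ → ℝ}
    (hv : PSHOn (univ ×ˢ ann a b) v) {K : Set (ℂ × ℂ)} (hK : IsCompact K)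
    (hKs : K ⊆ univ ×ˢ ann a b)
    (hle : ∀ p ∈ ((univ : Set ℂ) ×ˢ ann a b) \ K, v p ≤ Wup a b h₁ h₂ p) :
    ∀ p ∈ (univ : Set ℂ) ×ˢ ann a b, v p ≤ Wup a b h₁ h₂ p := by
  rintro ⟨z, s0⟩ ⟨-, hs0⟩
  have hs0' : s0 ∈ ann a b := hs0
  -- the compact set of radii
  set S : Set ℝ := (fun σ : ℂ => ‖σ‖) '' (insert s0 (Prod.snd '' K)) with hS
  have hSc : IsCompact S := ((hK.image continuous_snd).insert s0).image continuous_norm
  have hSne : S.Nonempty := ⟨_, s0, mem_insert _ _, rfl⟩
  have hSab : S ⊆ Ioo a b := by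
    rintro _ ⟨σ, hσ, rfl⟩
    rcases hσ with rfl | ⟨p, hp, rfl⟩
    · exact hs0'
    · exact (hKs hp).2
  have hm1 : sInf S ∈ S := hSc.sInf_mem hSne
  have hm2 : sSup S ∈ S := hSc.sSup_mem hSne
  set a1 : ℝ := (a + sInf S) / 2 with ha1
  set b1 : ℝ := (sSup S + b) / 2 with hb1
  have k1 : a < sInf S := (hSab hm1).1
  have k2 : sSup S < b := (hSab hm2).2
  have k3 : ∀ x ∈ S, a1 < x ∧ x < b1 := by
    intro x hx
    have e1 := csInf_le hSc.bddBelow hx
    have e2 := le_csSup hSc.bddAbove hx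
    rw [ha1, hb1]
    constructor <;> linarith
  have ha1' : 0 < a1 := by rw [ha1]; linarith
  have haa1 : a < a1 := by rw [ha1]; linarith
  have hbb1 : b1 < b := by rw [hb1]; linarith
  have hCsub : cann a1 b1 ⊆ ann a b := fun σ hσ => ⟨lt_of_lt_of_le haa1 hσ.1,
    lt_of_le_of_lt hσ.2 hbb1⟩
  have hCne : ∀ σ ∈ cann a1 b1, σ ≠ 0 := by
    intro σ hσ h
    have := hσ.1
    rw [h, norm_zero] at this
    linarith
  have hCc : IsCompact (cann a1 b1) := by
    refine (isCompact_closedBall (0 : ℂ) b1).of_isClosed_subset ?_ ?_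
    · exact (isClosed_le continuous_const continuous_norm).inter
        (isClosed_le continuous_norm continuous_const)
    · intro σ hσ
      rw [mem_closedBall_zero_iff]
      exact hσ.2
  have hannint : ann a1 b1 ⊆ interior (cann a1 b1) := by
    apply interior_maximal
    · exact fun σ hσ => ⟨hσ.1.le, hσ.2.le⟩
    · exact (isOpen_lt continuous_const continuous_norm).inter
        (isOpen_lt continuous_norm continuous_const)
  have hvc : ContinuousOn (fun σ => v (z, σ)) (cann a1 b1) :=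
    hv.1.comp (Continuous.prodMk_right z).continuousOn fun σ hσ => ⟨mem_univ _, hCsub hσ⟩
  have hWc := slice_Wcont (b := b) ha h₁ h₂ z hCne
  have key := max_principle hCc (F := fun σ => v (z, σ) - Wup a b h₁ h₂ (z, σ))
    (hvc.sub hWc) ?_ ?_ s0 ?_
  · linarith
  · intro σ hσ
    obtain ⟨r, hr, hrs⟩ := Metric.mem_nhds_iff.1 (mem_interior_iff_mem_nhds.1 hσ)
    have hr2 : 0 < r / 2 := by positivity
    have hsub : closedBall σ (r / 2) ⊆ cann a1 b1 :=
      (closedBall_subset_ball (by linarith)).trans hrs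
    refine ⟨r / 2, hr2, hsub, ?_⟩
    have hrσ : r / 2 < ‖σ‖ := by
      by_contra h
      push Not at h
      have h0 : (0 : ℂ) ∈ closedBall σ (r / 2) := by
        rw [mem_closedBall, dist_comm, dist_zero_right]; exact h
      exact hCne 0 (hsub h0) rfl
    have hsph : sphere σ (r / 2) ⊆ cann a1 b1 := sphere_subset_closedBall.trans hsub
    rw [circleAverage_sub' hr2.le (hvc.mono hsph) (hWc.mono hsph),
      slice_mean ha h₁ h₂ z σ hr2 hrσ]
    have hsm := hv.2 (fun _ => z) (fun ζ => ((r / 2 : ℝ) : ℂ) * ζ + σ)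
      analyticOnNhd_const (fun ζ _ => by fun_prop) (by
        intro ζ hζ
        refine ⟨mem_univ _, hCsub (hsub ?_)⟩
        rw [mem_closedBall_zero_iff] at hζ
        rw [mem_closedBall, dist_eq_norm, add_sub_cancel_right, norm_mul, Complex.norm_real,
          Real.norm_eq_abs, abs_of_pos hr2]
        nlinarith)
    rw [circleAverage_eq_circleAverage_zero_one (f := fun σ => v (z, σ))]
    simp only [mul_zero, zero_add] at hsm
    linarith
  · intro σ hσ hσi
    have hnot : σ ∉ ann a1 b1 := fun h => hσi (hannint h)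
    have hK' : (z, σ) ∉ K := by
      intro h
      exact hnot (k3 ‖σ‖ ⟨σ, mem_insert_of_mem _ ⟨(z, σ), h, rfl⟩, rfl⟩)
    have := hle (z, σ) ⟨⟨mem_univ _, hCsub hσ⟩, hK'⟩
    linarith
  · have := k3 ‖s0‖ ⟨s0, mem_insert _ _, rfl⟩
    exact ⟨this.1.le, this.2.le⟩

end WG
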