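import Pool.Agent.Helper853.WG.EnvDefs

set_option autoImplicit false

open Complex Metric Set Real MeasureTheory

namespace WG


theorem tt_eq {a b : ℝ} (ha : 0 < a) {σ : ℂ} (hσ : σ ≠ 0) :
    tt a b σ = (Real.log ‖σ‖ - Real.log a) * (Real.log (b / a))⁻¹ := by
  unfold tt
  rw [Real.log_div (norm_ne_zero_iff.2 hσ) ha.ne', div_eq_mul_inv]

theorem tt_cont {a b : ℝ} (ha : 0 < a) : ContinuousOn (tt a b) {σ : ℂ | σ ≠ 0} := by
  unfold tt
  apply ContinuousOn.div_const
  apply ContinuousOn.log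
  · exact (continuous_norm.div_const a).continuousOn
  · intro σ hσ
    have : ‖σ‖ ≠ 0 := norm_ne_zero_iff.2 hσ
    positivity

theorem tt_bd {a b : ℝ} (ha : 0 < a) (hab : a < b) {σ : ℂ} (hσ : σ ∈ ann a b) :
    0 < tt a b σ ∧ tt a b σ < 1 := by
  obtain ⟨h1, h2⟩ := hσ
  have hn : 0 < ‖σ‖ := ha.trans h1
  have hl : 0 < Real.log (b / a) := Real.log_pos ((one_lt_div ha).2 hab)
  unfold tt
  constructor
  · apply div_pos _ hl
    exact Real.log_pos ((one_lt_div ha).2 h1)
  · rw [div_lt_one hl]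
    apply Real.log_lt_log (by positivity)
    exact div_lt_div_of_pos_right h2 ha

theorem ann_ne {a b : ℝ} (ha : 0 < a) {σ : ℂ} (hσ : σ ∈ ann a b) : σ ≠ 0 := by
  rintro rfl
  have := hσ.1
  rw [norm_zero] at this
  linarith

theorem tt_avg {a b : ℝ} (ha : 0 < a) {g : ℂ → ℂ} (hg : AnalyticOnNhd ℂ g (closedBall 0 1))
    (hne : ∀ ζ ∈ closedBall (0:ℂ) 1, g ζ ≠ 0) :
    circleAverage (fun ζ => tt a b (g ζ)) 0 1 = tt a b (g 0) := by
  have h1 : circleAverage (fun ζ => Real.log ‖g ζ‖) 0 1 = Real.log ‖g 0‖ := by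
    apply AnalyticOnNhd.circleAverage_log_norm_of_ne_zero
    · rwa [abs_one]
    · intro u hu
      rw [abs_one] at hu
      exact hne u hu
  have hc : ContinuousOn (fun ζ => Real.log ‖g ζ‖) (sphere (0:ℂ) 1) := by
    apply ContinuousOn.log
    · exact (hg.continuousOn.mono sphere_subset_closedBall).norm
    · intro ζ hζ
      exact norm_ne_zero_iff.2 (hne ζ (sphere_subset_closedBall hζ))
  have h2 : circleAverage (fun ζ => tt a b (g ζ)) 0 1 =
      circleAverage (fun ζ => (Real.log (b / a))⁻¹ • (Real.log ‖g ζ‖ - Real.log a)) 0 1 := by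
    apply circleAverage_congr_sphere
    intro ζ hζ
    rw [abs_one] at hζ
    show tt a b (g ζ) = (Real.log (b / a))⁻¹ • (Real.log ‖g ζ‖ - Real.log a)
    rw [tt_eq ha (hne ζ (sphere_subset_closedBall hζ)), smul_eq_mul, mul_comm]
  rw [h2, circleAverage_fun_smul, circleAverage_sub' zero_le_one hc continuousOn_const,
    circleAverage_const', h1, tt_eq ha (hne 0 (by simp)), smul_eq_mul, mul_comm]

theorem barrier_mem {a b : ℝ} (ha : 0 < a) (hab : a < b) {h₁ h₂ : ℂ → ℝ} {C : ℝ}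
    (hC : ∀ z, |h₁ z - h₂ z| ≤ C) (h1 : DiscSub h₁) (h2 : DiscSub h₂) :
    (fun p : ℂ × ℂ => max (h₁ p.1 - C * tt a b p.2) (h₂ p.1 - C * (1 - tt a b p.2))) ∈
      Fam a b h₁ h₂ := by
  have hsub : ann a b ⊆ {σ : ℂ | σ ≠ 0} := fun σ hσ => ann_ne ha hσ
  have htc : ContinuousOn (fun p : ℂ × ℂ => tt a b p.2) (univ ×ˢ ann a b) := by
    apply (tt_cont (b := b) ha).comp continuous_snd.continuousOn
    intro p hp
    exact hsub hp.2
  have hC1 : Continuous h₁ := h1.1
  have hC2 : Continuous h₂ := h2.1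
  refine ⟨⟨?_, ?_⟩, ?_⟩
  · apply ContinuousOn.sup
    · exact ((hC1.comp continuous_fst).continuousOn).sub (continuousOn_const.mul htc)
    · exact ((hC2.comp continuous_fst).continuousOn).sub
        (continuousOn_const.mul (continuousOn_const.sub htc))
  · intro f g hf hg hfg
    have hne : ∀ ζ ∈ closedBall (0:ℂ) 1, g ζ ≠ 0 := fun ζ hζ => ann_ne ha (hfg ζ hζ).2
    have hav := tt_avg (b := b) ha hg hne
    have hfc : ContinuousOn f (sphere 0 1) := hf.continuousOn.mono sphere_subset_closedBall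
    have hgc : ContinuousOn g (sphere 0 1) := hg.continuousOn.mono sphere_subset_closedBall
    have htg : ContinuousOn (fun ζ => tt a b (g ζ)) (sphere (0:ℂ) 1) := by
      apply (tt_cont (b := b) ha).comp hgc
      intro ζ hζ
      exact hne ζ (sphere_subset_closedBall hζ)
    have hh1 : ContinuousOn (fun ζ => h₁ (f ζ)) (sphere (0:ℂ) 1) := hC1.comp_continuousOn hfc
    have hh2 : ContinuousOn (fun ζ => h₂ (f ζ)) (sphere (0:ℂ) 1) := hC2.comp_continuousOn hfc
    have e1 : circleAverage (fun ζ => h₁ (f ζ) - C * tt a b (g ζ)) 0 1 =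
        circleAverage (fun ζ => h₁ (f ζ)) 0 1 - C * tt a b (g 0) := by
      have hct : ContinuousOn (fun ζ => C * tt a b (g ζ)) (sphere (0:ℂ) 1) :=
        continuousOn_const.mul htg
      rw [circleAverage_sub' zero_le_one hh1 hct]
      have : circleAverage (fun ζ => C * tt a b (g ζ)) 0 1 =
          C • circleAverage (fun ζ => tt a b (g ζ)) 0 1 :=
        circleAverage_fun_smul (a := C) (f := fun ζ => tt a b (g ζ)) (c := 0) (R := 1)
      rw [this, hav, smul_eq_mul]
    have e2 : circleAverage (fun ζ => h₂ (f ζ) - C * (1 - tt a b (g ζ))) 0 1 =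
        circleAverage (fun ζ => h₂ (f ζ)) 0 1 - C * (1 - tt a b (g 0)) := by
      have hct : ContinuousOn (fun ζ => C * (1 - tt a b (g ζ))) (sphere (0:ℂ) 1) :=
        continuousOn_const.mul (continuousOn_const.sub htg)
      rw [circleAverage_sub' zero_le_one hh2 hct]
      have : circleAverage (fun ζ => C * (1 - tt a b (g ζ))) 0 1 =
          C • circleAverage (fun ζ => 1 - tt a b (g ζ)) 0 1 :=
        circleAverage_fun_smul (a := C) (f := fun ζ => 1 - tt a b (g ζ)) (c := 0) (R := 1)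
      rw [this, circleAverage_sub' zero_le_one continuousOn_const htg, hav, smul_eq_mul,
        circleAverage_const']
    have c1 : ContinuousOn (fun ζ => h₁ (f ζ) - C * tt a b (g ζ)) (sphere (0:ℂ) 1) :=
      hh1.sub (continuousOn_const.mul htg)
    have c2 : ContinuousOn (fun ζ => h₂ (f ζ) - C * (1 - tt a b (g ζ))) (sphere (0:ℂ) 1) :=
      hh2.sub (continuousOn_const.mul (continuousOn_const.sub htg))
    have cm : ContinuousOn (fun ζ => max (h₁ (f ζ) - C * tt a b (g ζ))
        (h₂ (f ζ) - C * (1 - tt a b (g ζ)))) (sphere (0:ℂ) 1) := c1.sup c2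
    show max (h₁ (f 0) - C * tt a b (g 0)) (h₂ (f 0) - C * (1 - tt a b (g 0))) ≤
      circleAverage (fun ζ => max (h₁ (f ζ) - C * tt a b (g ζ))
        (h₂ (f ζ) - C * (1 - tt a b (g ζ)))) 0 1
    apply max_le
    · calc h₁ (f 0) - C * tt a b (g 0)
          ≤ circleAverage (fun ζ => h₁ (f ζ)) 0 1 - C * tt a b (g 0) := by
            linarith [h1.2 f hf]
        _ = circleAverage (fun ζ => h₁ (f ζ) - C * tt a b (g ζ)) 0 1 := e1.symm
        _ ≤ _ := circleAverage_mono' zero_le_one c1 cm (fun ζ _ => le_max_left _ _)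
    · calc h₂ (f 0) - C * (1 - tt a b (g 0))
          ≤ circleAverage (fun ζ => h₂ (f ζ)) 0 1 - C * (1 - tt a b (g 0)) := by
            linarith [h2.2 f hf]
        _ = circleAverage (fun ζ => h₂ (f ζ) - C * (1 - tt a b (g ζ))) 0 1 := e2.symm
        _ ≤ _ := circleAverage_mono' zero_le_one c2 cm (fun ζ _ => le_max_right _ _)
  · rintro ⟨z, σ⟩ hp
    obtain ⟨t0, t1⟩ := tt_bd ha hab hp.2
    have h3 := hC z
    rw [abs_le] at h3
    obtain ⟨h4, h5⟩ := h3
    show max (h₁ z - C * tt a b σ) (h₂ z - C * (1 - tt a b σ)) ≤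
      (1 - tt a b σ) * h₁ z + tt a b σ * h₂ z
    have t0' : 0 < tt a b σ := t0
    have t1' : tt a b σ < 1 := t1
    apply max_le
    · nlinarith
    · nlinarith

end WG
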