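import Pool.Agent.Helper853.WG.EnvDefs

set_option autoImplicit false

open Complex Metric Set Real MeasureTheory

namespace WG

theorem tt_mem' {a b : ℝ} (ha : 0 < a) (hab : a < b) {σ : ℂ} (hσ : σ ∈ ann a b) :
    0 ≤ tt a b σ ∧ tt a b σ ≤ 1 := by
  have hL : 0 < Real.log (b / a) := Real.log_pos (by rw [lt_div_iff₀ ha]; linarith)
  have h1 : 1 ≤ ‖σ‖ / a := by rw [le_div_iff₀ ha]; linarith [hσ.1]
  have h2 : ‖σ‖ / a ≤ b / a := div_le_div_of_nonneg_right hσ.2.le ha.le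
  unfold tt
  constructor
  · exact div_nonneg (Real.log_nonneg h1) hL.le
  · rw [div_le_one hL]
    exact Real.log_le_log (by linarith) h2

theorem norm_shift' (z w : ℂ) (Λ : ℝ) :
    -‖z + w‖ ^ 2 + ‖z‖ ^ 2 - Λ =
      (-2 * z * (starRingEnd ℂ) w - ((‖w‖ ^ 2 + Λ : ℝ) : ℂ)).re := by
  rw [Complex.sub_re, Complex.ofReal_re, ← Complex.normSq_eq_norm_sq, ← Complex.normSq_eq_norm_sq,
    ← Complex.normSq_eq_norm_sq, Complex.normSq_apply, Complex.normSq_apply, Complex.normSq_apply]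
  simp [Complex.mul_re]
  ring

theorem fam_translate {a b : ℝ} {h₁ h₂ : ℂ → ℝ} {v : ℂ × ℂ → ℝ} (ha : 0 < a) (hab : a < b)
    (hv : v ∈ Fam a b h₁ h₂) (w : ℂ) {Λ : ℝ}
    (h1 : ∀ z, |(h₁ (z + w) - ‖z + w‖ ^ 2) - (h₁ z - ‖z‖ ^ 2)| ≤ Λ)
    (h2 : ∀ z, |(h₂ (z + w) - ‖z + w‖ ^ 2) - (h₂ z - ‖z‖ ^ 2)| ≤ Λ) :
    (fun p : ℂ × ℂ => v (p.1 + w, p.2) - ‖p.1 + w‖ ^ 2 + ‖p.1‖ ^ 2 - Λ) ∈ Fam a b h₁ h₂ := by
  obtain ⟨⟨hvc, hvd⟩, hvu⟩ := hv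
  have hshift : ContinuousOn (fun p : ℂ × ℂ => v (p.1 + w, p.2)) (univ ×ˢ ann a b) := by
    have h3 : ContinuousOn (fun p : ℂ × ℂ => ((p.1 + w, p.2) : ℂ × ℂ)) (univ ×ˢ ann a b) := by
      fun_prop
    exact hvc.comp h3 (fun p hp => ⟨mem_univ _, hp.2⟩)
  refine ⟨⟨?_, ?_⟩, ?_⟩
  · apply ContinuousOn.sub _ continuousOn_const
    apply ContinuousOn.add
    · apply ContinuousOn.sub hshift
      fun_prop
    · fun_prop
  · intro f g hf hg hmem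
    have hfw : AnalyticOnNhd ℂ (fun ζ => f ζ + w) (closedBall 0 1) := by
      intro ζ hζ
      exact (hf ζ hζ).add analyticAt_const
    have h3 := hvd (fun ζ => f ζ + w) g hfw hg (fun ζ hζ => ⟨mem_univ _, (hmem ζ hζ).2⟩)
    have hk : AnalyticOnNhd ℂ (fun ζ => -2 * f ζ * (starRingEnd ℂ) w - ((‖w‖ ^ 2 + Λ : ℝ) : ℂ))
        (closedBall 0 1) := by
      intro ζ hζ
      exact ((analyticAt_const.mul (hf ζ hζ)).mul analyticAt_const).sub analyticAt_const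
    have h4 := re_circleAverage (c := 0) (r := 1) zero_le_one hk
    have hfun : ∀ ζ : ℂ, v (f ζ + w, g ζ) - ‖f ζ + w‖ ^ 2 + ‖f ζ‖ ^ 2 - Λ =
        v (f ζ + w, g ζ) + (-2 * f ζ * (starRingEnd ℂ) w - ((‖w‖ ^ 2 + Λ : ℝ) : ℂ)).re := by
      intro ζ
      rw [← norm_shift']
      ring
    have hc1 : ContinuousOn (fun ζ : ℂ => v (f ζ + w, g ζ)) (sphere 0 1) := by
      have h5 : ContinuousOn (fun ζ : ℂ => ((f ζ, g ζ) : ℂ × ℂ)) (sphere 0 1) :=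
        (hf.continuousOn.mono sphere_subset_closedBall).prodMk
          (hg.continuousOn.mono sphere_subset_closedBall)
      exact hshift.comp h5 (fun ζ hζ => hmem ζ (sphere_subset_closedBall hζ))
    have hc2 : ContinuousOn (fun ζ : ℂ =>
        (-2 * f ζ * (starRingEnd ℂ) w - ((‖w‖ ^ 2 + Λ : ℝ) : ℂ)).re) (sphere 0 1) :=
      continuous_re.comp_continuousOn (hk.continuousOn.mono sphere_subset_closedBall)
    show v (f 0 + w, g 0) - ‖f 0 + w‖ ^ 2 + ‖f 0‖ ^ 2 - Λ ≤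
      circleAverage (fun ζ : ℂ => v (f ζ + w, g ζ) - ‖f ζ + w‖ ^ 2 + ‖f ζ‖ ^ 2 - Λ) 0 1
    have hfunext : (fun ζ : ℂ => v (f ζ + w, g ζ) - ‖f ζ + w‖ ^ 2 + ‖f ζ‖ ^ 2 - Λ) =
        fun ζ : ℂ => v (f ζ + w, g ζ) +
          (-2 * f ζ * (starRingEnd ℂ) w - ((‖w‖ ^ 2 + Λ : ℝ) : ℂ)).re := funext hfun
    rw [hfunext, circleAverage_add' zero_le_one hc1 hc2, h4, hfun 0]
    have h6 : v (f 0 + w, g 0) ≤ circleAverage (fun ζ => v (f ζ + w, g ζ)) 0 1 := h3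
    linarith
  · rintro ⟨z, σ⟩ ⟨_, hσ⟩
    have h3 := hvu (z + w, σ) ⟨mem_univ _, hσ⟩
    obtain ⟨ht0, ht1⟩ := tt_mem' ha hab hσ
    have h4 := (abs_le.mp (h1 z)).2
    have h5 := (abs_le.mp (h2 z)).2
    unfold Wup at h3 ⊢
    simp only at h3 ⊢
    have h6 : (1 - tt a b σ) * (h₁ (z + w) - h₁ z) ≤
        (1 - tt a b σ) * (‖z + w‖ ^ 2 - ‖z‖ ^ 2 + Λ) :=
      mul_le_mul_of_nonneg_left (by linarith) (by linarith)
    have h7 : tt a b σ * (h₂ (z + w) - h₂ z) ≤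
        tt a b σ * (‖z + w‖ ^ 2 - ‖z‖ ^ 2 + Λ) :=
      mul_le_mul_of_nonneg_left (by linarith) ht0
    have h8 : (1 - tt a b σ) * (‖z + w‖ ^ 2 - ‖z‖ ^ 2 + Λ) +
        tt a b σ * (‖z + w‖ ^ 2 - ‖z‖ ^ 2 + Λ) = ‖z + w‖ ^ 2 - ‖z‖ ^ 2 + Λ := by ring
    linarith

end WG
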