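import Pool.Agent.Helper853.WG.EnvDefs

set_option autoImplicit false

open Complex Metric Set Real MeasureTheory

namespace WG

/-- supremum over rotations -/
noncomputable def rsup (v : ℂ × ℂ → ℝ) (p : ℂ × ℂ) : ℝ :=
  sSup ((fun c : Circle => v (p.1, (c : ℂ) * p.2)) '' univ)

theorem rot_mem {a b : ℝ} {σ : ℂ} (hσ : σ ∈ ann a b) (c : ℂ) (hc : ‖c‖ = 1) : c * σ ∈ ann a b := by
  unfold ann at *
  simp only [Set.mem_ofPred_eq, norm_mul, hc, one_mul] at *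
  exact hσ

theorem rot_cont {a b : ℝ} {v : ℂ × ℂ → ℝ} (hv : ContinuousOn v ((univ : Set ℂ) ×ˢ ann a b)) :
    Continuous (fun q : ((univ : Set ℂ) ×ˢ ann a b : Set (ℂ × ℂ)) × Circle =>
      v (q.1.1.1, (q.2 : ℂ) * q.1.1.2)) := by
  have h1 : Continuous (fun q : ((univ : Set ℂ) ×ˢ ann a b : Set (ℂ × ℂ)) × Circle =>
      (q.1.1.1, (q.2 : ℂ) * q.1.1.2)) := by
    have h2 : Continuous (fun z : Circle => (z : ℂ)) := continuous_subtype_val
    have h3 : Continuous (fun q : ((univ : Set ℂ) ×ˢ ann a b : Set (ℂ × ℂ)) × Circle => (q.2 : ℂ)) :=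
      h2.comp continuous_snd
    exact (continuous_fst.comp (continuous_subtype_val.comp continuous_fst)).prodMk
      (h3.mul (continuous_snd.comp (continuous_subtype_val.comp continuous_fst)))
  refine hv.comp_continuous h1 ?_
  intro q
  exact ⟨mem_univ _, rot_mem q.1.2.2 _ (Circle.norm_coe _)⟩

theorem rsup_cont {a b : ℝ} {v : ℂ × ℂ → ℝ} (hv : ContinuousOn v ((univ : Set ℂ) ×ˢ ann a b)) :
    ContinuousOn (rsup v) ((univ : Set ℂ) ×ˢ ann a b) := by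
  rw [continuousOn_iff_continuous_domRestrict]
  exact (isCompact_univ (X := Circle)).continuous_sSup (f := fun
    (p : ((univ : Set ℂ) ×ˢ ann a b : Set (ℂ × ℂ))) (c : Circle) => v (p.1.1, (c : ℂ) * p.1.2))
    (rot_cont hv)

theorem rsup_bdd {a b : ℝ} {v : ℂ × ℂ → ℝ} (hv : ContinuousOn v ((univ : Set ℂ) ×ˢ ann a b))
    {p : ℂ × ℂ} (hp : p ∈ (univ : Set ℂ) ×ˢ ann a b) :
    BddAbove ((fun c : Circle => v (p.1, (c : ℂ) * p.2)) '' univ) := by
  have h1 : Continuous (fun c : Circle => v (p.1, (c : ℂ) * p.2)) :=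
    (rot_cont hv).comp ((continuous_const (y := (⟨p, hp⟩ :
      ((univ : Set ℂ) ×ˢ ann a b : Set (ℂ × ℂ))))).prodMk continuous_id)
  exact ((isCompact_univ (X := Circle)).image h1).bddAbove

theorem le_rsup {a b : ℝ} {v : ℂ × ℂ → ℝ} (hv : ContinuousOn v ((univ : Set ℂ) ×ˢ ann a b))
    {p : ℂ × ℂ} (hp : p ∈ (univ : Set ℂ) ×ˢ ann a b) (c : Circle) :
    v (p.1, (c : ℂ) * p.2) ≤ rsup v p :=
  le_csSup (rsup_bdd hv hp) ⟨c, mem_univ _, rfl⟩

theorem rsup_le {v : ℂ × ℂ → ℝ} {p : ℂ × ℂ} {M : ℝ}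
    (h : ∀ c : Circle, v (p.1, (c : ℂ) * p.2) ≤ M) : rsup v p ≤ M := by
  apply csSup_le
  · exact ⟨_, 1, mem_univ _, rfl⟩
  · rintro _ ⟨c, _, rfl⟩
    exact h c

theorem fam_radial {a b : ℝ} {h₁ h₂ : ℂ → ℝ} {v : ℂ × ℂ → ℝ} (ha : 0 < a) (hab : a < b)
    (hv : v ∈ Fam a b h₁ h₂) :
    ∃ v' ∈ Fam a b h₁ h₂, (∀ p ∈ (univ : Set ℂ) ×ˢ ann a b, v p ≤ v' p) ∧
      ∀ c : ℂ, ‖c‖ = 1 → ∀ z : ℂ, ∀ σ ∈ ann a b, v' (z, c * σ) = v' (z, σ) := by
  obtain ⟨⟨hvc, hvd⟩, hvW⟩ := hv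
  have hrc := rsup_cont hvc
  refine ⟨rsup v, ⟨⟨hrc, ?_⟩, ?_⟩, ?_, ?_⟩
  · intro f g hf hg hfg
    apply rsup_le
    intro c
    have hcg : AnalyticOnNhd ℂ (fun ζ => (c : ℂ) * g ζ) (closedBall 0 1) :=
      fun z hz => analyticAt_const.mul (hg z hz)
    have hmem : ∀ ζ ∈ closedBall (0:ℂ) 1, (f ζ, (c : ℂ) * g ζ) ∈ (univ : Set ℂ) ×ˢ ann a b :=
      fun ζ hζ => ⟨mem_univ _, rot_mem (hfg ζ hζ).2 _ (Circle.norm_coe _)⟩
    have h1 := hvd f (fun ζ => (c : ℂ) * g ζ) hf hcg hmem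
    refine h1.trans ?_
    apply circleAverage_mono' zero_le_one
    · exact hvc.comp (((hf.continuousOn).prodMk hcg.continuousOn).mono sphere_subset_closedBall)
        (fun ζ hζ => hmem ζ (sphere_subset_closedBall hζ))
    · exact hrc.comp (((hf.continuousOn).prodMk hg.continuousOn).mono sphere_subset_closedBall)
        (fun ζ hζ => hfg ζ (sphere_subset_closedBall hζ))
    · intro ζ hζ
      exact le_rsup hvc (hfg ζ (sphere_subset_closedBall hζ)) c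
  · intro p hp
    apply rsup_le
    intro c
    have h1 := hvW (p.1, (c : ℂ) * p.2) ⟨mem_univ _, rot_mem hp.2 _ (Circle.norm_coe _)⟩
    have h2 : Wup a b h₁ h₂ (p.1, (c : ℂ) * p.2) = Wup a b h₁ h₂ p := by
      unfold Wup tt
      simp only [norm_mul, Circle.norm_coe, one_mul]
    rwa [h2] at h1
  · intro p hp
    have h1 := le_rsup hvc hp 1
    rw [Circle.coe_one, one_mul] at h1
    exact h1
  · intro c hc z σ hσ
    have hcm : c ∈ Submonoid.unitSphere ℂ := by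
      show c ∈ Metric.sphere (0 : ℂ) 1
      rw [mem_sphere_zero_iff_norm]; exact hc
    obtain ⟨c', hc'⟩ : ∃ c' : Circle, (c' : ℂ) = c := ⟨⟨c, hcm⟩, rfl⟩
    have hp : ((z, σ) : ℂ × ℂ) ∈ (univ : Set ℂ) ×ˢ ann a b := ⟨mem_univ _, hσ⟩
    have hp' : ((z, c * σ) : ℂ × ℂ) ∈ (univ : Set ℂ) ×ˢ ann a b := ⟨mem_univ _, rot_mem hσ c hc⟩
    apply le_antisymm
    · apply rsup_le
      intro d
      have h1 := le_rsup hvc hp (d * c')
      rw [Circle.coe_mul, hc', mul_assoc] at h1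
      exact h1
    · apply rsup_le
      intro d
      have h1 := le_rsup hvc hp' (d * c'⁻¹)
      rw [Circle.coe_mul] at h1
      have h2 : (d : ℂ) * ((c'⁻¹ : Circle) : ℂ) * (c * σ) = d * σ := by
        rw [← hc']
        have h3 : ((c'⁻¹ : Circle) : ℂ) * (c' : ℂ) = 1 := by
          rw [← Circle.coe_mul, inv_mul_cancel, Circle.coe_one]
        calc (d : ℂ) * ((c'⁻¹ : Circle) : ℂ) * ((c' : ℂ) * σ)
            = (d : ℂ) * (((c'⁻¹ : Circle) : ℂ) * (c' : ℂ)) * σ := by ring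
          _ = d * σ := by rw [h3, mul_one]
      simp only at h1
      rw [h2] at h1
      exact h1

end WG
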