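import Pool.Agent.Helper853.WG.Defs
import Pool.Agent.Helper853.WG.Conv
import Pool.Agent.Helper853.WG.Basic

set_option autoImplicit false

open Complex Metric Set Real MeasureTheory

namespace WG

theorem rc_mem {a b : ℝ} (ha : 0 < a) (hab : a < b) {t : ℝ} (h0 : 0 < t) (h1 : t < 1) :
    a < a * Real.exp (Real.log (b / a) * t) ∧ a * Real.exp (Real.log (b / a) * t) < b := by
  have hL : 0 < Real.log (b / a) := Real.log_pos ((one_lt_div ha).2 hab)
  constructor
  · have : 1 < Real.exp (Real.log (b / a) * t) := Real.one_lt_exp_iff.2 (by positivity)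
    nlinarith
  · have h2 : Real.exp (Real.log (b / a) * t) < Real.exp (Real.log (b / a)) :=
      Real.exp_lt_exp.2 (by nlinarith)
    rw [Real.exp_log (div_pos (ha.trans hab) ha)] at h2
    calc a * Real.exp (Real.log (b / a) * t) < a * (b / a) := mul_lt_mul_of_pos_left h2 ha
      _ = b := by field_simp

theorem rc_ann {a b : ℝ} (ha : 0 < a) (hab : a < b) {t : ℝ} (h0 : 0 < t) (h1 : t < 1) :
    ((a * Real.exp (Real.log (b / a) * t) : ℝ) : ℂ) ∈ ann a b := by
  have h := rc_mem ha hab h0 h1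
  have hn : ‖((a * Real.exp (Real.log (b / a) * t) : ℝ) : ℂ)‖ =
      a * Real.exp (Real.log (b / a) * t) := by
    rw [Complex.norm_real, Real.norm_of_nonneg (by positivity)]
  show a < ‖_‖ ∧ ‖_‖ < b
  rw [hn]
  exact h

theorem rc_mean {a b : ℝ} {v : ℂ × ℂ → ℝ} (ha : 0 < a) (hab : a < b)
    (hv : PSHOn (univ ×ˢ ann a b) v)
    (hrad : ∀ c : ℂ, ‖c‖ = 1 → ∀ z : ℂ, ∀ σ ∈ ann a b, v (z, c * σ) = v (z, σ)) (z : ℂ)
    {t r : ℝ} (hr : 0 < r) (h0 : 0 < t - r) (h1 : t + r < 1) :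
    v (z, ((a * Real.exp (Real.log (b / a) * t) : ℝ) : ℂ)) ≤
      (2 * π)⁻¹ * ∫ θ in (0:ℝ)..(2 * π),
        v (z, ((a * Real.exp (Real.log (b / a) * (t + r * Real.cos θ)) : ℝ) : ℂ)) := by
  set L := Real.log (b / a) with hLdef
  have hfac : ∀ w : ℂ, (a : ℂ) * Complex.exp (L * (t + r * w)) =
      Complex.exp (((L * r * w.im : ℝ) : ℂ) * I) * ((a * Real.exp (L * (t + r * w.re)) : ℝ) : ℂ) := by
    intro w
    have hw : ((L : ℂ) * (t + r * w)) =
        ((L * r * w.im : ℝ) : ℂ) * I + ((L * (t + r * w.re) : ℝ) : ℂ) := by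
      conv_lhs => rw [← Complex.re_add_im w]
      push_cast
      ring
    rw [hw, Complex.exp_add]
    push_cast
    ring
  have hre : ∀ w : ℂ, ‖w‖ ≤ 1 → 0 < t + r * w.re ∧ t + r * w.re < 1 := by
    intro w hw
    have h3 := (Complex.abs_re_le_norm w).trans hw
    rw [abs_le] at h3
    constructor <;> nlinarith
  have hmem : ∀ w ∈ closedBall (0:ℂ) 1, (z, (a : ℂ) * Complex.exp (L * (t + r * w))) ∈
      (univ : Set ℂ) ×ˢ ann a b := by
    intro w hw
    rw [mem_closedBall, dist_zero_right] at hw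
    refine ⟨mem_univ _, ?_⟩
    obtain ⟨h4, h5⟩ := hre w hw
    have h6 := rc_ann ha hab h4 h5
    simp only
    rw [hfac]
    show a < ‖_‖ ∧ ‖_‖ < b
    rw [norm_mul, Complex.norm_exp_ofReal_mul_I, one_mul]
    exact h6
  have hd : Differentiable ℂ (fun w : ℂ => (a : ℂ) * Complex.exp (L * (t + r * w))) := by
    fun_prop
  have key := hv.2 (fun _ => z) (fun w => (a : ℂ) * Complex.exp (L * (t + r * w)))
    (fun w _ => analyticAt_const) (fun w _ => hd.analyticAt w) hmem
  have e0 : (a : ℂ) * Complex.exp (L * (t + r * (0 : ℂ))) = ((a * Real.exp (L * t) : ℝ) : ℂ) := by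
    push_cast
    ring_nf
  rw [e0, circleAverage_def, smul_eq_mul] at key
  refine key.trans (le_of_eq ?_)
  congr 1
  refine intervalIntegral.integral_congr fun θ _ => ?_
  rw [hfac]
  have hc : circleMap 0 1 θ = ⟨Real.cos θ, Real.sin θ⟩ := by
    rw [circleMap]
    apply Complex.ext <;> simp [Complex.exp_ofReal_mul_I_re, Complex.exp_ofReal_mul_I_im]
  rw [hc]
  simp only
  have hcos := hre ⟨Real.cos θ, Real.sin θ⟩ (by
    rw [← hc]
    simp)
  exact hrad _ (Complex.norm_exp_ofReal_mul_I _) z _ (rc_ann ha hab hcos.1 hcos.2)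

theorem radial_convex {a b : ℝ} {v : ℂ × ℂ → ℝ} (ha : 0 < a) (hab : a < b)
    (hv : PSHOn (univ ×ˢ ann a b) v)
    (hrad : ∀ c : ℂ, ‖c‖ = 1 → ∀ z : ℂ, ∀ σ ∈ ann a b, v (z, c * σ) = v (z, σ)) (z : ℂ) :
    ConvexOn ℝ (Ioo (0:ℝ) 1)
      (fun t => v (z, ((a * Real.exp (Real.log (b / a) * t) : ℝ) : ℂ))) := by
  have hmean := fun (t r : ℝ) (hr : 0 < r) (h0 : 0 < t - r) (h1 : t + r < 1) =>
    rc_mean ha hab hv hrad z hr h0 h1
  have hcont : ContinuousOn (fun t : ℝ => v (z, ((a * Real.exp (Real.log (b / a) * t) : ℝ) : ℂ)))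
      (Ioo 0 1) := by
    have h1 : Continuous (fun t : ℝ => (z, ((a * Real.exp (Real.log (b / a) * t) : ℝ) : ℂ))) := by
      fun_prop
    have h2 := hv.1.comp (s := Ioo (0:ℝ) 1) h1.continuousOn (fun t ht =>
      ⟨mem_univ _, rc_ann ha hab ht.1 ht.2⟩)
    simp only [Function.comp_def] at h2
    exact h2
  obtain ⟨g, hg⟩ : ∃ g : ℝ → ℝ, g = (fun t : ℝ => v (z, ((a * Real.exp (Real.log (b / a) * t) : ℝ) : ℂ))) := ⟨_, rfl⟩
  have hmean' : ∀ t r : ℝ, 0 < r → 0 < t - r → t + r < 1 →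
      g t ≤ (2 * π)⁻¹ * ∫ θ in (0:ℝ)..(2 * π), g (t + r * Real.cos θ) := by
    rw [hg]; exact hmean
  rw [← hg] at hcont ⊢
  clear hg hmean
  refine LinearOrder.convexOn_of_lt (convex_Ioo 0 1) ?_
  intro x hx y hy hxy α β hα hβ hαβ
  have hcl : ∀ s : ℝ, x + (y - x) * max 0 (min 1 s) ∈ Ioo (0:ℝ) 1 := by
    intro s
    have h1 : 0 ≤ max 0 (min 1 s) := le_max_left _ _
    have h2 : max 0 (min 1 s) ≤ 1 := max_le zero_le_one (min_le_left _ _)
    have h3 : 0 ≤ (y - x) * max 0 (min 1 s) := mul_nonneg (by linarith) h1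
    have h4 : (y - x) * max 0 (min 1 s) ≤ y - x := by nlinarith
    exact ⟨by linarith [hx.1], by linarith [hy.2]⟩
  have hG : Continuous (fun s : ℝ => g (x + (y - x) * max 0 (min 1 s))) :=
    hcont.comp_continuous (by fun_prop) hcl
  have hconv := convexOn_of_cos_mean hG (by
    intro t r hr h0 h1
    have hcl2 : ∀ s : ℝ, 0 < s → s < 1 → max 0 (min 1 s) = s := fun s hs0 hs1 => by
      rw [min_eq_right hs1.le, max_eq_right hs0.le]
    rw [hcl2 t (by linarith) (by linarith)]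
    have hd : 0 < y - x := by linarith
    refine (hmean' (x + (y - x) * t) ((y - x) * r) (by positivity) ?_ ?_).trans (le_of_eq ?_)
    · have : 0 < (y - x) * (t - r) := mul_pos hd h0
      linarith [hx.1]
    · have : (y - x) * (t + r) < (y - x) * 1 := mul_lt_mul_of_pos_left h1 hd
      linarith [hy.2]
    · congr 1
      refine intervalIntegral.integral_congr fun θ _ => ?_
      have hc1 := Real.neg_one_le_cos θ
      have hc2 := Real.cos_le_one θ
      rw [hcl2 (t + r * Real.cos θ) (by nlinarith) (by nlinarith)]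
      congr 1
      ring)
  have h := hconv.2 (x := 0) (y := 1) (by simp) (by simp) hα.le hβ.le hαβ
  simp only [smul_eq_mul, mul_zero, mul_one, zero_add] at h ⊢
  have hβ1 : β ≤ 1 := by linarith
  rw [min_eq_right hβ1, max_eq_right hβ.le] at h
  simp only [min_self, max_eq_right (zero_le_one' ℝ), min_eq_right (zero_le_one' ℝ), max_self,
    mul_zero, add_zero, mul_one] at h
  have e1 : x + (y - x) * β = α * x + β * y := by
    have : α = 1 - β := by linarith
    rw [this]; ring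
  have e2 : x + (y - x) = y := by ring
  rw [e1, e2] at h
  exact h

end WG
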