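import Pool.Agent.Helper853.WG.X1
import Pool.Agent.Helper853.WG.X2
import Pool.Agent.Helper853.WG.X3
import Pool.Agent.Helper853.WG.X4
import Pool.Agent.Helper853.WG.X5

set_option autoImplicit false

open Complex Metric Set Real MeasureTheory

namespace WG

/-- bounds for the envelope -/
theorem env_bounds {a b : ℝ} (ha : 0 < a) (hab : a < b) {h₁ h₂ : ℂ → ℝ} {C : ℝ}
    (hC : ∀ z, |h₁ z - h₂ z| ≤ C) (h1 : DiscSub h₁) (h2 : DiscSub h₂) :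
    ∀ p ∈ (univ : Set ℂ) ×ˢ ann a b,
      max (h₁ p.1 - C * tt a b p.2) (h₂ p.1 - C * (1 - tt a b p.2)) ≤ Env a b h₁ h₂ p ∧
      Env a b h₁ h₂ p ≤ Wup a b h₁ h₂ p ∧
      ∀ v ∈ Fam a b h₁ h₂, v p ≤ Env a b h₁ h₂ p := by
  intro p hp
  have hbdd : BddAbove ((fun v : ℂ × ℂ → ℝ => v p) '' Fam a b h₁ h₂) :=
    ⟨Wup a b h₁ h₂ p, by rintro _ ⟨v, hv, rfl⟩; exact hv.2 p hp⟩
  have hne : ((fun v : ℂ × ℂ → ℝ => v p) '' Fam a b h₁ h₂).Nonempty :=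
    ⟨_, ⟨_, barrier_mem ha hab hC h1 h2, rfl⟩⟩
  refine ⟨?_, ?_, ?_⟩
  · exact le_csSup hbdd ⟨_, barrier_mem ha hab hC h1 h2, rfl⟩
  · refine csSup_le hne ?_
    rintro _ ⟨v, hv, rfl⟩
    exact hv.2 p hp
  · intro v hv
    exact le_csSup hbdd ⟨v, hv, rfl⟩

theorem env_translate {a b : ℝ} (ha : 0 < a) (hab : a < b) {h₁ h₂ : ℂ → ℝ} {C : ℝ}
    (hC : ∀ z, |h₁ z - h₂ z| ≤ C) (h1 : DiscSub h₁) (h2 : DiscSub h₂) (w : ℂ) {Λ : ℝ}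
    (hw1 : ∀ z, |(h₁ (z + w) - ‖z + w‖ ^ 2) - (h₁ z - ‖z‖ ^ 2)| ≤ Λ)
    (hw2 : ∀ z, |(h₂ (z + w) - ‖z + w‖ ^ 2) - (h₂ z - ‖z‖ ^ 2)| ≤ Λ) :
    ∀ z : ℂ, ∀ σ ∈ ann a b,
      Env a b h₁ h₂ (z + w, σ) - ‖z + w‖ ^ 2 ≤ Env a b h₁ h₂ (z, σ) - ‖z‖ ^ 2 + Λ := by
  intro z σ hσ
  have hne : ((fun v : ℂ × ℂ → ℝ => v (z + w, σ)) '' Fam a b h₁ h₂).Nonempty :=
    ⟨_, ⟨_, barrier_mem ha hab hC h1 h2, rfl⟩⟩
  have key : Env a b h₁ h₂ (z + w, σ) ≤ Env a b h₁ h₂ (z, σ) - ‖z‖ ^ 2 + Λ + ‖z + w‖ ^ 2 := by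
    refine csSup_le hne ?_
    rintro _ ⟨v, hv, rfl⟩
    have h3 := fam_translate ha hab hv w hw1 hw2
    have h4 := (env_bounds ha hab hC h1 h2 (z, σ) ⟨mem_univ _, hσ⟩).2.2 _ h3
    simp only at h4
    linarith
  linarith

theorem env_radial {a b : ℝ} (ha : 0 < a) (hab : a < b) {h₁ h₂ : ℂ → ℝ} {C : ℝ}
    (hC : ∀ z, |h₁ z - h₂ z| ≤ C) (h1 : DiscSub h₁) (h2 : DiscSub h₂) {c : ℂ} (hc : ‖c‖ = 1) :
    ∀ z : ℂ, ∀ σ ∈ ann a b, Env a b h₁ h₂ (z, c * σ) = Env a b h₁ h₂ (z, σ) := by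
  intro z σ hσ
  have hcσ : c * σ ∈ ann a b := by
    refine ⟨?_, ?_⟩
    · rw [norm_mul, hc, one_mul]; exact hσ.1
    · rw [norm_mul, hc, one_mul]; exact hσ.2
  apply le_antisymm
  · refine csSup_le ⟨_, ⟨_, barrier_mem ha hab hC h1 h2, rfl⟩⟩ ?_
    rintro _ ⟨v, hv, rfl⟩
    obtain ⟨v', hv', hle, hrad⟩ := fam_radial ha hab hv
    have h3 := hle (z, c * σ) ⟨mem_univ _, hcσ⟩
    have h4 := hrad c hc z σ hσ
    have h5 := (env_bounds ha hab hC h1 h2 (z, σ) ⟨mem_univ _, hσ⟩).2.2 _ hv'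
    simp only
    linarith
  · refine csSup_le ⟨_, ⟨_, barrier_mem ha hab hC h1 h2, rfl⟩⟩ ?_
    rintro _ ⟨v, hv, rfl⟩
    obtain ⟨v', hv', hle, hrad⟩ := fam_radial ha hab hv
    have h3 := hle (z, σ) ⟨mem_univ _, hσ⟩
    have h4 := hrad c hc z σ hσ
    have h5 := (env_bounds ha hab hC h1 h2 (z, c * σ) ⟨mem_univ _, hcσ⟩).2.2 _ hv'
    simp only
    linarith

theorem env_convex {a b : ℝ} (ha : 0 < a) (hab : a < b) {h₁ h₂ : ℂ → ℝ} {C : ℝ}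
    (hC : ∀ z, |h₁ z - h₂ z| ≤ C) (h1 : DiscSub h₁) (h2 : DiscSub h₂) (z : ℂ) :
    ConvexOn ℝ (Ioo (0:ℝ) 1)
      (fun t => Env a b h₁ h₂ (z, ((a * Real.exp (Real.log (b / a) * t) : ℝ) : ℂ))) := by
  have hb : 0 < b := ha.trans hab
  have hlog : 0 < Real.log (b / a) := Real.log_pos (by rw [lt_div_iff₀ ha]; linarith)
  have hmem : ∀ t ∈ Ioo (0:ℝ) 1,
      ((a * Real.exp (Real.log (b / a) * t) : ℝ) : ℂ) ∈ ann a b := by
    intro t ht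
    have hpos : 0 < a * Real.exp (Real.log (b / a) * t) := by positivity
    have hn : ‖((a * Real.exp (Real.log (b / a) * t) : ℝ) : ℂ)‖
        = a * Real.exp (Real.log (b / a) * t) := by
      rw [Complex.norm_real, Real.norm_of_nonneg hpos.le]
    refine ⟨?_, ?_⟩
    · rw [hn]
      have : 1 < Real.exp (Real.log (b / a) * t) := Real.one_lt_exp_iff.2 (mul_pos hlog ht.1)
      nlinarith
    · rw [hn]
      have h3 : Real.exp (Real.log (b / a) * t) < Real.exp (Real.log (b / a)) := by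
        apply Real.exp_lt_exp.2
        nlinarith [ht.2]
      rw [Real.exp_log (by positivity)] at h3
      calc a * Real.exp (Real.log (b / a) * t) < a * (b / a) := by
            exact mul_lt_mul_of_pos_left h3 ha
        _ = b := by field_simp
  refine ⟨convex_Ioo 0 1, ?_⟩
  intro x hx y hy s t hs ht hst
  have hq := convex_Ioo (0:ℝ) 1 hx hy hs ht hst
  simp only
  refine csSup_le ⟨_, ⟨_, barrier_mem ha hab hC h1 h2, rfl⟩⟩ ?_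
  rintro _ ⟨v, hv, rfl⟩
  obtain ⟨v', hv', hle, hrad⟩ := fam_radial ha hab hv
  have h3 := hle (z, ((a * Real.exp (Real.log (b / a) * (s • x + t • y)) : ℝ) : ℂ)) ⟨mem_univ z, hmem _ hq⟩
  have h4 := (radial_convex ha hab hv'.1 hrad z).2 hx hy hs ht hst
  have h5 := (env_bounds ha hab hC h1 h2 (z, ((a * Real.exp (Real.log (b / a) * x) : ℝ) : ℂ)) ⟨mem_univ z, hmem x hx⟩).2.2 _ hv'
  have h6 := (env_bounds ha hab hC h1 h2 (z, ((a * Real.exp (Real.log (b / a) * y) : ℝ) : ℂ)) ⟨mem_univ z, hmem y hy⟩).2.2 _ hv'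
  simp only [smul_eq_mul] at h3 h4 h5 h6 ⊢
  have h7 := mul_le_mul_of_nonneg_left h5 hs
  have h8 := mul_le_mul_of_nonneg_left h6 ht
  linarith

end WG
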