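import Pool.Agent.Helper853.WG.X6

set_option autoImplicit false

open Complex Metric Set Real MeasureTheory

namespace WG

theorem env_tt_mem {a b : ℝ} (ha : 0 < a) (hab : a < b) {σ : ℂ} (hσ : σ ∈ ann a b) :
    tt a b σ ∈ Ioo (0:ℝ) 1 ∧ a * Real.exp (Real.log (b / a) * tt a b σ) = ‖σ‖ := by
  have hL : 0 < Real.log (b / a) := Real.log_pos ((one_lt_div ha).2 hab)
  have h1 : 1 < ‖σ‖ / a := (one_lt_div ha).2 hσ.1
  have h2 : ‖σ‖ / a < b / a := (div_lt_div_iff_of_pos_right ha).2 hσ.2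
  have h3 : 0 < ‖σ‖ / a := by linarith
  refine ⟨⟨div_pos (Real.log_pos h1) hL, ?_⟩, ?_⟩
  · unfold tt
    rw [div_lt_one hL]
    exact Real.log_lt_log h3 h2
  · unfold tt
    rw [mul_div_cancel₀ _ hL.ne', Real.exp_log h3, mul_div_cancel₀ _ ha.ne']

theorem env_pshOn {a b : ℝ} (ha : 0 < a) (hab : a < b) {h₁ h₂ : ℂ → ℝ} {C : ℝ}
    (hC : ∀ z, |h₁ z - h₂ z| ≤ C) (h1 : DiscSub h₁) (h2 : DiscSub h₂)
    (hL1 : ∀ z w, |(h₁ (z + w) - ‖z + w‖ ^ 2) - (h₁ z - ‖z‖ ^ 2)| ≤ ‖w‖)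
    (hL2 : ∀ z w, |(h₂ (z + w) - ‖z + w‖ ^ 2) - (h₂ z - ‖z‖ ^ 2)| ≤ ‖w‖) :
    PSHOn (univ ×ˢ ann a b) (Env a b h₁ h₂) := by
  have hfam : (Fam a b h₁ h₂).Nonempty := ⟨_, barrier_mem ha hab hC h1 h2⟩
  have hcont : ContinuousOn (Env a b h₁ h₂) (univ ×ˢ ann a b) := by
    have hE0 : ContinuousOn (fun p : ℂ × ℂ => Env a b h₁ h₂ p - ‖p.1‖ ^ 2) (univ ×ˢ ann a b) := by
      refine continuousOn_prod_of_continuousOn_lipschitzOnWith _ 1 ?_ ?_
      · intro z _
        show ContinuousOn (fun y : ℂ => Env a b h₁ h₂ (z, y) - ‖z‖ ^ 2) (ann a b)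
        refine ContinuousOn.sub ?_ continuousOn_const
        have hconv := (env_convex ha hab hC h1 h2 z).continuousOn isOpen_Ioo
        have htt : ContinuousOn (tt a b) (ann a b) := by
          unfold tt
          refine ContinuousOn.div_const ?_ _
          refine ContinuousOn.log (by fun_prop) ?_
          intro σ hσ
          exact (div_pos (ha.trans hσ.1) ha).ne'
        have hcomp := hconv.comp htt (fun σ hσ => (env_tt_mem ha hab hσ).1)
        refine hcomp.congr fun σ hσ => ?_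
        simp only [Function.comp]
        rw [(env_tt_mem ha hab hσ).2]
        have hσ0 : ‖σ‖ ≠ 0 := (ha.trans hσ.1).ne'
        have hσ0' : (‖σ‖ : ℂ) ≠ 0 := by exact_mod_cast hσ0
        have hc : ‖σ / (‖σ‖ : ℂ)‖ = 1 := by
          rw [norm_div, Complex.norm_real, norm_norm, div_self hσ0]
        have hm : ((‖σ‖ : ℝ) : ℂ) ∈ ann a b := by
          show a < ‖((‖σ‖ : ℝ) : ℂ)‖ ∧ ‖((‖σ‖ : ℝ) : ℂ)‖ < b
          rw [Complex.norm_real, norm_norm]
          exact hσ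
        have h3 := env_radial ha hab hC h1 h2 hc z _ hm
        rw [div_mul_cancel₀ _ hσ0'] at h3
        exact h3
      · intro σ hσ
        refine LipschitzOnWith.of_dist_le_mul fun z _ z' _ => ?_
        rw [Real.dist_eq, dist_eq_norm, NNReal.coe_one, one_mul]
        have k1 := env_translate ha hab hC h1 h2 (z - z') (fun y => hL1 y _) (fun y => hL2 y _) z' σ hσ
        have k2 := env_translate ha hab hC h1 h2 (z' - z) (fun y => hL1 y _) (fun y => hL2 y _) z σ hσ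
        rw [add_sub_cancel] at k1 k2
        rw [norm_sub_rev z' z] at k2
        rw [abs_le]
        constructor <;> linarith
    have h4 : ContinuousOn (fun p : ℂ × ℂ => (Env a b h₁ h₂ p - ‖p.1‖ ^ 2) + ‖p.1‖ ^ 2)
        (univ ×ˢ ann a b) := hE0.add (by fun_prop)
    refine h4.congr fun p _ => ?_
    simp only
    ring
  refine ⟨hcont, fun f g hf hg hfg => ?_⟩
  have hfgc : ContinuousOn (fun ζ => (f ζ, g ζ)) (sphere (0:ℂ) 1) :=
    (hf.continuousOn.prodMk hg.continuousOn).mono sphere_subset_closedBall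
  have hmaps : MapsTo (fun ζ => (f ζ, g ζ)) (sphere (0:ℂ) 1) (univ ×ˢ ann a b) :=
    fun ζ hζ => hfg ζ (sphere_subset_closedBall hζ)
  refine csSup_le (hfam.image _) ?_
  rintro _ ⟨v, hv, rfl⟩
  refine (hv.1.2 f g hf hg hfg).trans ?_
  refine circleAverage_mono' zero_le_one (hv.1.1.comp hfgc hmaps) (hcont.comp hfgc hmaps) ?_
  intro ζ hζ
  exact (env_bounds ha hab hC h1 h2 (f ζ, g ζ) (hmaps hζ)).2.2 v hv

end WG
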