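import Pool.Agent.Helper853.WG.X7

set_option autoImplicit false

open Complex Metric Set Real MeasureTheory

namespace WG

theorem exists_geodesic_psh_congr {Ω : Set (ℂ × ℂ)} {u v : ℂ × ℂ → ℝ} (hu : PSHOn Ω u)
    (h : ∀ p ∈ Ω, v p = u p) : PSHOn Ω v := by
  refine ⟨hu.1.congr h, ?_⟩
  intro f g hf hg hfg
  have h0 : ((f 0, g 0) : ℂ × ℂ) ∈ Ω := hfg 0 (mem_closedBall_self zero_le_one)
  rw [h _ h0]
  refine (hu.2 f g hf hg hfg).trans (le_of_eq ?_)
  apply circleAverage_congr_sphere
  intro ζ hζ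
  have hζ' : ζ ∈ closedBall (0:ℂ) 1 := by
    rw [abs_one] at hζ
    exact sphere_subset_closedBall hζ
  exact (h _ (hfg ζ hζ')).symm

theorem exists_geodesic {a b : ℝ} (ha : 0 < a) (hab : a < b) {φ₁ : ℂ → ℝ} (h1 : Pot φ₁) :
    ∃ φ : ℂ → ℂ → ℝ, IsWeakGeodesic a b φ₁ (fun z => φ₁ (I * z)) φ := by
  classical
  set k₁ : ℂ → ℝ := fun z => ‖z‖ ^ 2 + φ₁ z with hk₁
  set k₂ : ℂ → ℝ := fun z => ‖z‖ ^ 2 + φ₁ (I * z) with hk₂
  have hC : ∀ z, |k₁ z - k₂ z| ≤ 2 := by
    intro z
    have e1 := abs_le.mp (h1.bdd z)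
    have e2 := abs_le.mp (h1.bdd (I * z))
    simp only [hk₁, hk₂]
    rw [abs_le]
    constructor <;> linarith [e1.1, e1.2, e2.1, e2.2]
  have hI : ∀ z : ℂ, ‖I * z‖ = ‖z‖ := by intro z; rw [norm_mul, norm_I, one_mul]
  have hD1 : DiscSub k₁ := h1.sub
  have hk₂' : ∀ z, k₂ z = k₁ (I * z) := by
    intro z
    simp only [hk₁, hk₂, hI]
  have hD2 : DiscSub k₂ := by
    constructor
    · have : k₂ = fun z => k₁ (I * z) := funext hk₂'
      rw [this]
      exact hD1.1.comp (continuous_const.mul continuous_id)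
    · intro f hf
      have h := hD1.2 (fun z => I * f z) (fun z hz => analyticAt_const.mul (hf z hz))
      simp only [hk₂']
      exact h
  have hL1 : ∀ z w, |(k₁ (z + w) - ‖z + w‖ ^ 2) - (k₁ z - ‖z‖ ^ 2)| ≤ ‖w‖ := by
    intro z w
    have h := h1.lip z w
    rw [one_mul] at h
    have e : (k₁ (z + w) - ‖z + w‖ ^ 2) - (k₁ z - ‖z‖ ^ 2) = φ₁ (z + w) - φ₁ z := by
      simp only [hk₁]; ring
    rw [e]; exact h
  have hL2 : ∀ z w, |(k₂ (z + w) - ‖z + w‖ ^ 2) - (k₂ z - ‖z‖ ^ 2)| ≤ ‖w‖ := by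
    intro z w
    have h := h1.lip (I * z) (I * w)
    rw [one_mul, hI] at h
    have e : (k₂ (z + w) - ‖z + w‖ ^ 2) - (k₂ z - ‖z‖ ^ 2) = φ₁ (I * z + I * w) - φ₁ (I * z) := by
      simp only [hk₂]; rw [mul_add]; ring
    rw [e]; exact h
  have hpsh := env_pshOn ha hab hC hD1 hD2 hL1 hL2
  have hbnd := env_bounds ha hab hC hD1 hD2
  have hlog : 0 < Real.log (b / a) := Real.log_pos (by rw [lt_div_iff₀ ha]; linarith)
  set φ : ℂ → ℂ → ℝ := fun z σ => if ‖σ‖ ≤ a then φ₁ z else if b ≤ ‖σ‖ then φ₁ (I * z)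
    else Env a b k₁ k₂ (z, σ) - ‖z‖ ^ 2 with hφ
  have hleft : ∀ z σ : ℂ, ‖σ‖ = a → φ z σ = φ₁ z := by
    intro z σ hσ
    simp only [hφ]
    rw [if_pos hσ.le]
  have hright : ∀ z σ : ℂ, ‖σ‖ = b → φ z σ = φ₁ (I * z) := by
    intro z σ hσ
    simp only [hφ]
    rw [if_neg (by linarith), if_pos hσ.ge]
  have hmid : ∀ z σ : ℂ, σ ∈ ann a b → φ z σ = Env a b k₁ k₂ (z, σ) - ‖z‖ ^ 2 := by
    intro z σ hσ
    simp only [hφ]
    rw [if_neg (not_le.mpr hσ.1), if_neg (not_le.mpr hσ.2)]
  have htta : ∀ σ : ℂ, ‖σ‖ = a → tt a b σ = 0 := by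
    intro σ hσ
    unfold tt
    rw [hσ, div_self ha.ne', Real.log_one, zero_div]
  have httb : ∀ σ : ℂ, ‖σ‖ = b → tt a b σ = 1 := by
    intro σ hσ
    unfold tt
    rw [hσ, div_self hlog.ne']
  have htt0 : ∀ σ ∈ ann a b, 0 ≤ tt a b σ := by
    intro σ hσ
    unfold tt
    apply div_nonneg _ hlog.le
    apply Real.log_nonneg
    rw [le_div_iff₀ ha]
    linarith [hσ.1]
  have htt1 : ∀ σ ∈ ann a b, tt a b σ ≤ 1 := by
    intro σ hσ
    unfold tt
    rw [div_le_one hlog]
    apply Real.log_le_log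
    · have : 0 < ‖σ‖ := lt_trans ha hσ.1
      positivity
    · exact div_le_div_of_nonneg_right hσ.2.le ha.le
  have hcases : ∀ σ ∈ cann a b, ‖σ‖ = a ∨ ‖σ‖ = b ∨ σ ∈ ann a b := by
    intro σ hσ
    rcases eq_or_lt_of_le hσ.1 with h | h
    · left; exact h.symm
    · rcases eq_or_lt_of_le hσ.2 with h' | h'
      · right; left; exact h'
      · right; right; exact ⟨h, h'⟩
  have claimA : ∀ z σ : ℂ, σ ∈ cann a b → |φ z σ - φ₁ z| ≤ 2 * tt a b σ := by
    intro z σ hσ
    have e1 := abs_le.mp (hC z)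
    rcases hcases σ hσ with h | h | h
    · rw [hleft z σ h, htta σ h, sub_self, abs_zero, mul_zero]
    · rw [hright z σ h, httb σ h, mul_one]
      simp only [hk₁, hk₂] at e1
      rw [abs_le]
      constructor <;> linarith [e1.1, e1.2]
    · obtain ⟨hb1, hb2, -⟩ := hbnd (z, σ) ⟨mem_univ _, h⟩
      have hb3 := (le_max_left _ _).trans hb1
      rw [hmid z σ h]
      have t0 := htt0 σ h
      have e2 : k₁ z = ‖z‖ ^ 2 + φ₁ z := rfl
      dsimp only [Wup] at hb2 hb3
      rw [abs_le]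
      constructor
      · linarith
      · have : tt a b σ * (k₂ z - k₁ z) ≤ tt a b σ * 2 :=
          mul_le_mul_of_nonneg_left (by linarith [e1.1]) t0
        nlinarith
  have claimB : ∀ z σ : ℂ, σ ∈ cann a b → |φ z σ - φ₁ (I * z)| ≤ 2 * (1 - tt a b σ) := by
    intro z σ hσ
    have e1 := abs_le.mp (hC z)
    rcases hcases σ hσ with h | h | h
    · rw [hleft z σ h, htta σ h, sub_zero, mul_one]
      simp only [hk₁, hk₂] at e1
      rw [abs_le]
      constructor <;> linarith [e1.1, e1.2]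
    · rw [hright z σ h, httb σ h, sub_self, abs_zero, sub_self, mul_zero]
    · obtain ⟨hb1, hb2, -⟩ := hbnd (z, σ) ⟨mem_univ _, h⟩
      have hb3 := (le_max_right _ _).trans hb1
      rw [hmid z σ h]
      have t1 := htt1 σ h
      have e2 : k₂ z = ‖z‖ ^ 2 + φ₁ (I * z) := rfl
      dsimp only [Wup] at hb2 hb3
      rw [abs_le]
      constructor
      · linarith
      · have : (1 - tt a b σ) * (k₁ z - k₂ z) ≤ (1 - tt a b σ) * 2 :=
          mul_le_mul_of_nonneg_left (by linarith [e1.2]) (by linarith)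
        nlinarith
  have httc : ∀ σ : ℂ, 0 < ‖σ‖ → ContinuousAt (tt a b) σ := by
    intro σ hσ
    unfold tt
    apply ContinuousAt.div_const
    apply ContinuousAt.log
    · exact continuous_norm.continuousAt.div_const _
    · positivity
  have hφ₁c : Continuous φ₁ := h1.cont
  have hannopen : IsOpen ((univ : Set ℂ) ×ˢ ann a b) := by
    apply isOpen_univ.prod
    exact (isOpen_lt continuous_const continuous_norm).inter
      (isOpen_lt continuous_norm continuous_const)
  refine ⟨φ, ?_, ?_, hleft, hright, ?_, ?_⟩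
  · -- periodic
    intro z σ hσ m n
    rcases hcases σ hσ with h | h | h
    · rw [hleft _ _ h, hleft _ _ h, h1.periodic]
    · rw [hright _ _ h, hright _ _ h]
      have e : I * (z + (m + n * I)) = I * z + (((-n : ℤ) : ℂ) + ((m : ℤ) : ℂ) * I) := by
        push_cast
        have := I_mul_I
        linear_combination (n : ℂ) * this
      rw [e, h1.periodic]
    · rw [hmid _ _ h, hmid _ _ h]
      have p1 : ∀ z, φ₁ (z + (m + n * I)) = φ₁ z := fun z => h1.periodic z m n
      have p2 : ∀ z, φ₁ (I * (z + (m + n * I))) = φ₁ (I * z) := by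
        intro z
        have e : I * (z + (m + n * I)) = I * z + (((-n : ℤ) : ℂ) + ((m : ℤ) : ℂ) * I) := by
          push_cast
          have := I_mul_I
          linear_combination (n : ℂ) * this
        rw [e, h1.periodic]
      set w : ℂ := m + n * I with hw
      have q1 : ∀ z, φ₁ (z + -w) = φ₁ z := by
        intro z
        have := p1 (z + -w)
        rw [neg_add_cancel_right] at this
        exact this.symm
      have q2 : ∀ z, φ₁ (I * (z + -w)) = φ₁ (I * z) := by
        intro z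
        have := p2 (z + -w)
        rw [neg_add_cancel_right] at this
        exact this.symm
      have t1 := env_translate ha hab hC hD1 hD2 w (Λ := 0)
        (by intro z; simp only [hk₁]; rw [p1 z]; simp)
        (by intro z; simp only [hk₂]; rw [p2 z]; simp) z σ h
      have t2 := env_translate ha hab hC hD1 hD2 (-w) (Λ := 0)
        (by intro z; simp only [hk₁]; rw [q1 z]; simp)
        (by intro z; simp only [hk₂]; rw [q2 z]; simp) (z + w) σ h
      rw [add_neg_cancel_right] at t2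
      linarith
  · -- continuity
    rintro ⟨z, σ⟩ ⟨-, hσ⟩
    rcases hcases σ hσ with h | h | h
    · have hσ0 : 0 < ‖σ‖ := by rw [h]; exact ha
      have h0 : Filter.Tendsto (fun p : ℂ × ℂ => φ p.1 p.2 - φ₁ p.1)
          (nhdsWithin (z, σ) (univ ×ˢ cann a b)) (nhds 0) := by
        refine squeeze_zero_norm' (a := fun p : ℂ × ℂ => 2 * tt a b p.2) ?_ ?_
        · filter_upwards [self_mem_nhdsWithin] with p hp
          rw [Real.norm_eq_abs]
          exact claimA p.1 p.2 hp.2
        · have h2' : ContinuousAt (fun p : ℂ × ℂ => tt a b p.2) (z, σ) :=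
            ContinuousAt.comp' (g := tt a b) (f := fun p : ℂ × ℂ => p.2) (x := (z, σ))
              (httc σ hσ0) continuousAt_snd
          have h2 : ContinuousAt (fun p : ℂ × ℂ => 2 * tt a b p.2) (z, σ) :=
            continuousAt_const.mul h2'
          have h3 := h2.tendsto
          simp only [htta σ h, mul_zero] at h3
          exact h3.mono_left nhdsWithin_le_nhds
      have h4 : Filter.Tendsto (fun p : ℂ × ℂ => φ₁ p.1)
          (nhdsWithin (z, σ) (univ ×ˢ cann a b)) (nhds (φ₁ z)) :=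
        ((hφ₁c.comp continuous_fst).tendsto (z, σ)).mono_left nhdsWithin_le_nhds
      have h5 := h0.add h4
      simp only [sub_add_cancel, zero_add] at h5
      show Filter.Tendsto _ _ (nhds (φ z σ))
      rw [hleft z σ h]
      exact h5
    · have hσ0 : 0 < ‖σ‖ := by rw [h]; linarith
      have h0 : Filter.Tendsto (fun p : ℂ × ℂ => φ p.1 p.2 - φ₁ (I * p.1))
          (nhdsWithin (z, σ) (univ ×ˢ cann a b)) (nhds 0) := by
        refine squeeze_zero_norm' (a := fun p : ℂ × ℂ => 2 * (1 - tt a b p.2)) ?_ ?_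
        · filter_upwards [self_mem_nhdsWithin] with p hp
          rw [Real.norm_eq_abs]
          exact claimB p.1 p.2 hp.2
        · have h2' : ContinuousAt (fun p : ℂ × ℂ => tt a b p.2) (z, σ) :=
            ContinuousAt.comp' (g := tt a b) (f := fun p : ℂ × ℂ => p.2) (x := (z, σ))
              (httc σ hσ0) continuousAt_snd
          have h2 : ContinuousAt (fun p : ℂ × ℂ => 2 * (1 - tt a b p.2)) (z, σ) :=
            continuousAt_const.mul (continuousAt_const.sub h2')
          have h3 := h2.tendsto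
          simp only [httb σ h, sub_self, mul_zero] at h3
          exact h3.mono_left nhdsWithin_le_nhds
      have h4 : Filter.Tendsto (fun p : ℂ × ℂ => φ₁ (I * p.1))
          (nhdsWithin (z, σ) (univ ×ˢ cann a b)) (nhds (φ₁ (I * z))) :=
        ((hφ₁c.comp (continuous_const.mul continuous_fst)).tendsto (z, σ)).mono_left
          nhdsWithin_le_nhds
      have h5 := h0.add h4
      simp only [sub_add_cancel, zero_add] at h5
      show Filter.Tendsto _ _ (nhds (φ z σ))
      rw [hright z σ h]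
      exact h5
    · apply ContinuousAt.continuousWithinAt
      have hmem : ((z, σ) : ℂ × ℂ) ∈ (univ : Set ℂ) ×ˢ ann a b := ⟨mem_univ _, h⟩
      have hc1 : ContinuousAt (Env a b k₁ k₂) (z, σ) :=
        hpsh.1.continuousAt (hannopen.mem_nhds hmem)
      have hc2 : ContinuousAt (fun p : ℂ × ℂ => Env a b k₁ k₂ p - ‖p.1‖ ^ 2) (z, σ) :=
        hc1.sub (by fun_prop)
      refine hc2.congr ?_
      filter_upwards [hannopen.mem_nhds hmem] with p hp
      exact (hmid p.1 p.2 hp.2).symm
  · -- psh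
    apply exists_geodesic_psh_congr hpsh
    intro p hp
    rw [hmid p.1 p.2 hp.2]
    ring
  · -- maximal
    intro v hv hK p hp
    obtain ⟨K, hKc, hKs, hKle⟩ := hK
    have e : ∀ p ∈ (univ : Set ℂ) ×ˢ ann a b, ‖p.1‖ ^ 2 + φ p.1 p.2 = Env a b k₁ k₂ p := by
      intro p hp
      rw [hmid p.1 p.2 hp.2]
      ring
    have hv1 := slice_le ha hab (h₁ := k₁) (h₂ := k₂) hv hKc hKs (by
      intro q hq
      have := hKle q hq
      simp only [e q hq.1] at this
      exact this.trans (hbnd q hq.1).2.1)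
    have hv2 := (hbnd p hp).2.2 v ⟨hv, hv1⟩
    simp only [e p hp]
    exact hv2

end WG
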